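import Pool.Agent.Lib.MP_7f333f_an.Comb

set_option autoImplicit false

/-!
Existence, in every combinatorial space, of a sequence of blocks equivalent to the basis of `c₀`.
-/

namespace Pool.Agent.Comb7f333f

open Filter Topology

theorem combNorm_le_of_filter (a : ℕ →₀ ℝ) (F : Finset ℕ) :
    ∑ k ∈ F, |a k| = ∑ k ∈ F.filter (· ∈ a.support), |a k| := by
  rw [Finset.sum_filter]
  refine Finset.sum_congr rfl fun k _ => ?_
  split_ifs with hk
  · rfl
  · rw [Finsupp.notMem_support_iff.mp hk, abs_zero]

/-- If the section norm is not equivalent to the norm, there are normalised vectors far away with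
small section norms. -/
theorem exists_small_of_not_secEq {𝓕 : Set (Finset ℕ)} {A : Finset ℕ} (hA : ¬ SecEq 𝓕 A)
    (n : ℕ) (ε : ℝ) (hε : 0 < ε) : ∃ a : ℕ →₀ ℝ, (∀ k ∈ a.support, n < k) ∧
      combNorm 𝓕 a = 1 ∧ combNorm (sec 𝓕 A) a < ε := by
  unfold SecEq at hA
  push Not at hA
  obtain ⟨a, ha, h1⟩ := hA ε hε n
  have h2 := combNorm_nonneg (sec 𝓕 A) a
  have h3 : 0 < combNorm 𝓕 a := by
    by_contra hcon
    push Not at hcon
    nlinarith
  refine ⟨(combNorm 𝓕 a)⁻¹ • a, fun k hk => ha k (Finsupp.support_smul hk), ?_, ?_⟩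
  · rw [combNorm_smul, abs_of_pos (inv_pos.mpr h3), inv_mul_cancel₀ h3.ne']
  · rw [combNorm_smul, abs_of_pos (inv_pos.mpr h3), ← div_eq_inv_mul, div_lt_iff₀ h3]
    exact h1

theorem sum_half_pow_le (s : Finset ℕ) : ∑ j ∈ s, (1 / 2 : ℝ) ^ (j + 1) ≤ 1 := by
  obtain ⟨n, hn⟩ : ∃ n, s ⊆ Finset.range n := ⟨s.sup id + 1, fun x hx => by
    rw [Finset.mem_range]
    exact Nat.lt_succ_of_le (Finset.le_sup (f := id) hx)⟩
  refine (Finset.sum_le_sum_of_subset_of_nonneg hn fun _ _ _ => by positivity).trans ?_
  have h : ∀ n, ∑ j ∈ Finset.range n, (1 / 2 : ℝ) ^ (j + 1) = 1 - (1 / 2) ^ n := by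
    intro n
    induction n with
    | zero => simp
    | succ n ih => rw [Finset.sum_range_succ, ih, pow_succ]; ring
  rw [h]
  have : (0 : ℝ) ≤ (1 / 2) ^ n := by positivity
  linarith

section Regular

variable {𝓕 : Set (Finset ℕ)} (h : IsRegular 𝓕)

include h

/-- There are blocks equivalent to the basis of `c₀`. -/
theorem exists_blocks : ∃ (u : ℕ → (ℕ →₀ ℝ)) (M : ℕ → ℕ) (C : ℝ), 0 ≤ C ∧
    StrictMono M ∧ (∀ j, ∀ k ∈ (u j).support, M j < k ∧ k ≤ M (j + 1)) ∧
    (∀ j, combNorm 𝓕 (u j) = 1) ∧
    ∀ (s : Finset ℕ) (c : ℕ → ℝ) (B : ℝ), 0 ≤ B → (∀ j ∈ s, |c j| ≤ B) →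
      combNorm 𝓕 (∑ j ∈ s, c j • u j) ≤ C * B := by
  classical
  obtain ⟨A, ⟨c0, hc0, M1, hM1⟩, hmax⟩ := exists_maximal_section h
  -- the choice of the blocks
  have hstep : ∀ (j m : ℕ), ∃ a : ℕ →₀ ℝ, (∀ i ∈ A, i < m) → (∀ k ∈ a.support, m < k) ∧
      combNorm 𝓕 a = 1 ∧ combNorm (sec 𝓕 (insert m A)) a < (1 / 2) ^ (j + 1) := by
    intro j m
    by_cases hm : ∀ i ∈ A, i < m
    · obtain ⟨a, ha⟩ := exists_small_of_not_secEq (hmax m hm) m ((1 / 2) ^ (j + 1))
        (by positivity)
      exact ⟨a, fun _ => ha⟩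
    · exact ⟨0, fun h' => absurd h' hm⟩
  choose U hU using hstep
  set M0 : ℕ := M1 + A.sup id + 1 with hM0
  let M : ℕ → ℕ := fun n => Nat.rec M0 (fun j m => max (m + 1) ((U j m).support.sup id)) n
  have hM00 : M 0 = M0 := rfl
  have hMs : ∀ j, M (j + 1) = max (M j + 1) ((U j (M j)).support.sup id) := fun j => rfl
  clear_value M
  have hMlt : ∀ j, M j < M (j + 1) := fun j => by
    rw [hMs]; exact lt_of_lt_of_le (Nat.lt_succ_self _) (le_max_left _ _)
  have hMmono : StrictMono M := strictMono_nat_of_lt_succ hMlt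
  have hMge : ∀ j, M0 ≤ M j := fun j => by
    rw [← hM00]; exact hMmono.monotone (Nat.zero_le j)
  have hAM : ∀ j, ∀ i ∈ A, i < M j := by
    intro j i hi
    have h1 : i ≤ A.sup id := Finset.le_sup (f := id) hi
    have h2 := hMge j
    omega
  set u : ℕ → (ℕ →₀ ℝ) := fun j => U j (M j) with hu
  have hu1 : ∀ j, ∀ k ∈ (u j).support, M j < k ∧ k ≤ M (j + 1) := by
    intro j k hk
    refine ⟨(hU j (M j) (hAM j)).1 k hk, ?_⟩
    rw [hMs]
    exact (Finset.le_sup (f := id) hk).trans (le_max_right _ _)
  have hu2 : ∀ j, combNorm 𝓕 (u j) = 1 := fun j => (hU j (M j) (hAM j)).2.1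
  have hu3 : ∀ j, combNorm (sec 𝓕 (insert (M j) A)) (u j) < (1 / 2) ^ (j + 1) :=
    fun j => (hU j (M j) (hAM j)).2.2
  refine ⟨u, M, 2 / c0, by positivity, hMmono, hu1, hu2, ?_⟩
  intro s c B hB hcB
  set x : ℕ →₀ ℝ := ∑ j ∈ s, c j • u j with hx
  have hxk : ∀ k, x k = ∑ j ∈ s, c j * u j k := by
    intro k
    rw [hx, Finsupp.finsetSum_apply]
    rfl
  have hsupp : ∀ k ∈ x.support, M1 < k := by
    intro k hk
    rw [Finsupp.mem_support_iff, hxk] at hk
    obtain ⟨j, hj, hjk⟩ := Finset.exists_ne_zero_of_sum_ne_zero hk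
    have h1 : k ∈ (u j).support := by
      rw [Finsupp.mem_support_iff]
      intro h0
      rw [h0, mul_zero] at hjk
      exact hjk rfl
    have h2 := (hu1 j k h1).1
    have h3 := hMge j
    omega
  have h1 := hM1 x hsupp
  have h2 : combNorm (sec 𝓕 A) x ≤ 2 * B := by
    refine combNorm_le _ (by positivity) fun F hF => ?_
    have hF𝓕 : F ∈ 𝓕 := h.hereditary _ hF.2 _ Finset.subset_union_right
    set a : ℕ → ℝ := fun j => ∑ k ∈ F, |u j k| with ha
    have ha0 : ∀ j, 0 ≤ a j := fun j => Finset.sum_nonneg fun _ _ => abs_nonneg _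
    have ha1 : ∀ j, a j ≤ 1 := fun j => by rw [← hu2 j]; exact le_combNorm _ hF𝓕
    -- the key claim
    have hkey : ∀ j j', j < j' → a j ≠ 0 → a j' ≤ (1 / 2) ^ (j' + 1) := by
      intro j j' hjj' hj
      obtain ⟨k0, hk0F, hk0⟩ := Finset.exists_ne_zero_of_sum_ne_zero hj
      have hk0s : k0 ∈ (u j).support := by
        rw [Finsupp.mem_support_iff]
        intro h0
        rw [h0, abs_zero] at hk0
        exact hk0 rfl
      have hk1 := hu1 j k0 hk0s
      have hk2 : k0 ≤ M j' := hk1.2.trans (hMmono.monotone hjj')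
      set F' := F.filter (· ∈ (u j').support) with hF'
      have e1 : a j' = ∑ k ∈ F', |u j' k| := combNorm_le_of_filter (u j') F
      have hF's : ∀ k ∈ F', M j' < k := fun k hk => (hu1 j' k (Finset.mem_filter.mp hk).2).1
      have hmem : F' ∈ sec 𝓕 (insert (M j') A) := by
        refine ⟨?_, ?_⟩
        · intro k hk i hi
          rcases Finset.mem_insert.mp hi with rfl | hi
          · exact hF's k hk
          · exact (hAM j' i hi).trans (hF's k hk)
        · refine mem_of_inj h hF.2 (fun x : ℕ => if x = M j' then k0 else x) ?_ ?_ ?_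
          · intro x hx
            by_cases hxM : x = M j'
            · simp only [hxM, if_true]
              exact Finset.mem_union_right _ hk0F
            · simp only [hxM, if_false]
              rcases Finset.mem_union.mp hx with hx | hx
              · rcases Finset.mem_insert.mp hx with hx | hx
                · exact absurd hx hxM
                · exact Finset.mem_union_left _ hx
              · exact Finset.mem_union_right _ (Finset.mem_filter.mp hx).1
          · intro x _
            by_cases hxM : x = M j'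
            · simp only [hxM, if_true]; exact hk2
            · simp only [hxM, if_false]; exact le_rfl
          · have hne : ∀ y ∈ insert (M j') A ∪ F', y ≠ M j' → k0 ≠ y := by
              intro y hy hyM hk
              rcases Finset.mem_union.mp hy with hy | hy
              · rcases Finset.mem_insert.mp hy with hy | hy
                · exact hyM hy
                · have := hAM j y hy
                  omega
              · have := hF's y hy
                omega
            intro x hx y hy hxy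
            simp only at hxy
            by_cases hxM : x = M j' <;> by_cases hyM : y = M j'
            · rw [hxM, hyM]
            · rw [if_pos hxM, if_neg hyM] at hxy
              exact absurd hxy (hne y hy hyM)
            · rw [if_neg hxM, if_pos hyM] at hxy
              exact absurd hxy.symm (hne x hx hxM)
            · rw [if_neg hxM, if_neg hyM] at hxy
              exact hxy
      rw [e1]
      exact (le_combNorm _ hmem).trans (hu3 j').le
    have hsum : ∑ j ∈ s, a j ≤ 2 := by
      by_cases hall : ∀ j ∈ s, a j = 0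
      · rw [Finset.sum_eq_zero hall]; norm_num
      · push Not at hall
        set J := s.filter (fun j => a j ≠ 0) with hJ
        have hJne : J.Nonempty := by
          obtain ⟨j, hj, hj0⟩ := hall
          exact ⟨j, Finset.mem_filter.mpr ⟨hj, hj0⟩⟩
        set j0 := J.min' hJne with hj0
        have hj0J : j0 ∈ J := Finset.min'_mem _ _
        have hb : ∀ j ∈ s, a j ≤ (if j = j0 then 1 else 0) + (1 / 2 : ℝ) ^ (j + 1) := by
          intro j hj
          have hp : (0 : ℝ) ≤ (1 / 2) ^ (j + 1) := by positivity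
          rcases lt_trichotomy j j0 with hlt | heq | hgt
          · have h0 : a j = 0 := by
              by_contra hne
              have := Finset.min'_le J j (Finset.mem_filter.mpr ⟨hj, hne⟩)
              omega
            rw [h0, if_neg (by omega), zero_add]; exact hp
          · rw [if_pos heq]; linarith [ha1 j]
          · rw [if_neg (by omega), zero_add]
            exact hkey j0 j hgt (Finset.mem_filter.mp hj0J).2
        refine (Finset.sum_le_sum hb).trans ?_
        rw [Finset.sum_add_distrib, Finset.sum_ite_eq', if_pos (Finset.mem_filter.mp hj0J).1]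
        have := sum_half_pow_le s
        linarith
    calc ∑ k ∈ F, |x k| ≤ ∑ k ∈ F, ∑ j ∈ s, B * |u j k| := by
          refine Finset.sum_le_sum fun k _ => ?_
          rw [hxk]
          refine (Finset.abs_sum_le_sum_abs _ _).trans (Finset.sum_le_sum fun j hj => ?_)
          rw [abs_mul]
          exact mul_le_mul_of_nonneg_right (hcB j hj) (abs_nonneg _)
      _ = B * ∑ j ∈ s, a j := by
          rw [Finset.sum_comm, Finset.mul_sum]
          refine Finset.sum_congr rfl fun j _ => ?_
          rw [ha, Finset.mul_sum]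
      _ ≤ B * 2 := mul_le_mul_of_nonneg_left hsum hB
      _ = 2 * B := by ring
  rw [div_mul_eq_mul_div, le_div_iff₀ hc0]
  linarith

/-- Norming sets for the blocks. -/
theorem exists_norming (a : ℕ →₀ ℝ) (ha : combNorm 𝓕 a = 1) : ∃ F ∈ 𝓕, F ⊆ a.support ∧
    1 / 2 ≤ ∑ k ∈ F, |a k| := by
  classical
  obtain ⟨r, ⟨F, hF, rfl⟩, hr⟩ := exists_lt_of_lt_csSup
    (s := {r | ∃ F ∈ 𝓕, r = ∑ k ∈ F, |a k|}) ⟨_, {0}, h.singleton 0, rfl⟩
    (show (1 / 2 : ℝ) < _ by
      change (1 / 2 : ℝ) < combNorm 𝓕 a
      rw [ha]; norm_num)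
  refine ⟨F.filter (· ∈ a.support), h.hereditary F hF _ (Finset.filter_subset _ _), ?_, ?_⟩
  · intro k hk
    exact (Finset.mem_filter.mp hk).2
  · rw [← combNorm_le_of_filter]
    exact hr.le

end Regular

end Pool.Agent.Comb7f333f
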