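import Mathlib

set_option autoImplicit false

/-!
Renorming of a seminormed real vector space by adding spikes: the seminorm whose unit ball is
the convex hull of the old unit ball and of the spikes. The denting points of the new ball are
spikes.
-/

namespace Pool.Agent.Comb7f333f

open Finsupp

section L1

variable {ι : Type*}

/-- The `ℓ₁` norm of a finitely supported family. -/
noncomputable def l1 (l : ι →₀ ℝ) : ℝ := l.sum fun _ c => |c|

theorem l1_eq_of_subset (l : ι →₀ ℝ) (t : Finset ι) (h : l.support ⊆ t) :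
    l1 l = ∑ i ∈ t, |l i| :=
  Finsupp.sum_of_support_subset l h _ (by simp)

theorem l1_nonneg (l : ι →₀ ℝ) : 0 ≤ l1 l :=
  Finset.sum_nonneg fun _ _ => abs_nonneg _

theorem l1_add_le (l l' : ι →₀ ℝ) : l1 (l + l') ≤ l1 l + l1 l' := by
  classical
  rw [l1_eq_of_subset (l + l') (l.support ∪ l'.support) Finsupp.support_add,
    l1_eq_of_subset l (l.support ∪ l'.support) Finset.subset_union_left,
    l1_eq_of_subset l' (l.support ∪ l'.support) Finset.subset_union_right,
    ← Finset.sum_add_distrib]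
  exact Finset.sum_le_sum fun i _ => by simpa using abs_add_le (l i) (l' i)

theorem l1_smul (c : ℝ) (l : ι →₀ ℝ) : l1 (c • l) = |c| * l1 l := by
  classical
  rw [l1_eq_of_subset (c • l) l.support Finsupp.support_smul, l1_eq_of_subset l l.support
    (Finset.Subset.refl _), Finset.mul_sum]
  exact Finset.sum_congr rfl fun i _ => by simp [abs_mul]

theorem l1_single (i : ι) (c : ℝ) : l1 (Finsupp.single i c) = |c| := by
  simp [l1]

@[simp] theorem l1_zero : l1 (0 : ι →₀ ℝ) = 0 := by simp [l1]

end L1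

theorem seminorm_sum_le {V : Type*} [AddCommGroup V] [Module ℝ V] (q : Seminorm ℝ V)
    {ι : Type*} (t : Finset ι) (f : ι → V) : q (∑ i ∈ t, f i) ≤ ∑ i ∈ t, q (f i) :=
  Finset.le_sum_of_subadditive q (map_zero q).le (map_add_le_add q) t f

section SpikeNorm

variable {V : Type*} [AddCommGroup V] [Module ℝ V] (q : Seminorm ℝ V) {ι : Type*} (s : ι → V)

/-- The value of a representation of `x` as the sum of a vector and a combination of spikes. -/
noncomputable def spikeVal (x : V) (l : ι →₀ ℝ) : ℝ :=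
  q (x - Finsupp.linearCombination ℝ s l) + l1 l

theorem spikeVal_nonneg (x : V) (l : ι →₀ ℝ) : 0 ≤ spikeVal q s x l :=
  add_nonneg (apply_nonneg q _) (l1_nonneg l)

/-- The seminorm with unit ball the convex hull of the unit ball of `q` and the spikes. -/
noncomputable def spikeFun (x : V) : ℝ := ⨅ l : ι →₀ ℝ, spikeVal q s x l

theorem spikeFun_bdd (x : V) : BddBelow (Set.range (spikeVal q s x)) :=
  ⟨0, by rintro _ ⟨l, rfl⟩; exact spikeVal_nonneg q s x l⟩

theorem spikeFun_nonneg (x : V) : 0 ≤ spikeFun q s x :=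
  Real.iInf_nonneg fun l => spikeVal_nonneg q s x l

theorem spikeFun_le_val (x : V) (l : ι →₀ ℝ) : spikeFun q s x ≤ spikeVal q s x l :=
  ciInf_le (spikeFun_bdd q s x) l

theorem spikeFun_le (x : V) : spikeFun q s x ≤ q x := by
  simpa [spikeVal] using spikeFun_le_val q s x 0

theorem exists_val_lt (x : V) (ε : ℝ) (hε : 0 < ε) :
    ∃ l : ι →₀ ℝ, spikeVal q s x l < spikeFun q s x + ε :=
  exists_lt_of_ciInf_lt (lt_add_of_pos_right _ hε)

theorem spikeFun_add_le (x y : V) : spikeFun q s (x + y) ≤ spikeFun q s x + spikeFun q s y := by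
  refine le_of_forall_pos_le_add fun ε hε => ?_
  obtain ⟨l, hl⟩ := exists_val_lt q s x (ε / 2) (by positivity)
  obtain ⟨l', hl'⟩ := exists_val_lt q s y (ε / 2) (by positivity)
  have h1 := spikeFun_le_val q s (x + y) (l + l')
  have h2 : spikeVal q s (x + y) (l + l') ≤ spikeVal q s x l + spikeVal q s y l' := by
    unfold spikeVal
    have h3 : x + y - Finsupp.linearCombination ℝ s (l + l') =
        (x - Finsupp.linearCombination ℝ s l) + (y - Finsupp.linearCombination ℝ s l') := by
      rw [map_add]; abel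
    rw [h3]
    have h4 := map_add_le_add q (x - Finsupp.linearCombination ℝ s l)
      (y - Finsupp.linearCombination ℝ s l')
    have h5 := l1_add_le l l'
    linarith
  linarith

theorem spikeFun_smul_le (c : ℝ) (x : V) : spikeFun q s (c • x) ≤ |c| * spikeFun q s x := by
  refine le_of_forall_pos_le_add fun ε hε => ?_
  obtain ⟨l, hl⟩ := exists_val_lt q s x (ε / (|c| + 1)) (by positivity)
  have h1 := spikeFun_le_val q s (c • x) (c • l)
  have h2 : spikeVal q s (c • x) (c • l) = |c| * spikeVal q s x l := by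
    unfold spikeVal
    rw [map_smul, ← smul_sub, map_smul_eq_mul, l1_smul, Real.norm_eq_abs]
    ring
  have h3 : |c| * spikeVal q s x l ≤ |c| * (spikeFun q s x + ε / (|c| + 1)) :=
    mul_le_mul_of_nonneg_left hl.le (abs_nonneg c)
  have h4 : |c| * (ε / (|c| + 1)) ≤ ε := by
    rw [mul_div_assoc', div_le_iff₀ (by positivity)]
    nlinarith [abs_nonneg c]
  rw [h2] at h1
  linarith

/-- The spike seminorm. -/
noncomputable def spikeNorm : Seminorm ℝ V :=
  Seminorm.ofSMulLE (spikeFun q s)
    (by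
      refine le_antisymm ?_ (spikeFun_nonneg q s 0)
      simpa using spikeFun_le q s 0)
    (spikeFun_add_le q s)
    (fun c x => by simpa using spikeFun_smul_le q s c x)

theorem spikeNorm_apply (x : V) : spikeNorm q s x = spikeFun q s x := rfl

theorem spikeNorm_le (x : V) : spikeNorm q s x ≤ q x := spikeFun_le q s x

theorem spikeNorm_le_val (x : V) (l : ι →₀ ℝ) : spikeNorm q s x ≤ spikeVal q s x l :=
  spikeFun_le_val q s x l

theorem exists_val_lt' (x : V) (ε : ℝ) (hε : 0 < ε) :
    ∃ l : ι →₀ ℝ, spikeVal q s x l < spikeNorm q s x + ε := exists_val_lt q s x ε hε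

theorem spikeNorm_spike (i : ι) : spikeNorm q s (s i) ≤ 1 := by
  have := spikeNorm_le_val q s (s i) (Finsupp.single i 1)
  simpa [spikeVal, l1_single] using this

/-- Lower bounds for the spike seminorm by linear functionals. -/
theorem abs_le_spikeNorm (φ : V →ₗ[ℝ] ℝ) (hq : ∀ x, |φ x| ≤ q x) (hs : ∀ i, |φ (s i)| ≤ 1)
    (x : V) : |φ x| ≤ spikeNorm q s x := by
  refine le_ciInf fun l => ?_
  unfold spikeVal
  have h1 : φ x = φ (x - Finsupp.linearCombination ℝ s l) +
      φ (Finsupp.linearCombination ℝ s l) := by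
    rw [← map_add]; simp
  have h2 : |φ (Finsupp.linearCombination ℝ s l)| ≤ l1 l := by
    rw [Finsupp.linearCombination_apply, map_finsuppSum, l1]
    refine (Finset.abs_sum_le_sum_abs _ _).trans (Finset.sum_le_sum fun i _ => ?_)
    show |φ (l i • s i)| ≤ |l i|
    rw [map_smul, smul_eq_mul, abs_mul]
    exact mul_le_of_le_one_right (abs_nonneg _) (hs i)
  rw [h1]
  exact (abs_add_le _ _).trans (add_le_add (hq _) h2)

/-- Comparison of the spike seminorm with the original one. -/
theorem le_mul_spikeNorm (R : ℝ) (hR : 1 ≤ R) (hs : ∀ i, q (s i) ≤ R) (x : V) :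
    q x ≤ R * spikeNorm q s x := by
  refine le_of_forall_pos_le_add fun ε hε => ?_
  obtain ⟨l, hl⟩ := exists_val_lt' q s x (ε / R) (by positivity)
  unfold spikeVal at hl
  have h1 : x = (x - Finsupp.linearCombination ℝ s l) + Finsupp.linearCombination ℝ s l := by
    simp
  have h2 : q (Finsupp.linearCombination ℝ s l) ≤ R * l1 l := by
    rw [Finsupp.linearCombination_apply, Finsupp.sum, l1, Finsupp.sum, Finset.mul_sum]
    refine (seminorm_sum_le q _ _).trans (Finset.sum_le_sum fun i _ => ?_)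
    rw [map_smul_eq_mul, Real.norm_eq_abs, mul_comm]
    exact mul_le_mul_of_nonneg_right (hs i) (abs_nonneg _)
  have h3 := map_add_le_add q (x - Finsupp.linearCombination ℝ s l)
    (Finsupp.linearCombination ℝ s l)
  rw [← h1] at h3
  have h4 : q (x - Finsupp.linearCombination ℝ s l) ≤
      R * q (x - Finsupp.linearCombination ℝ s l) :=
    le_mul_of_one_le_left (apply_nonneg q _) hR
  have h5 : R * (q (x - Finsupp.linearCombination ℝ s l) + l1 l) ≤
      R * (spikeNorm q s x + ε / R) := mul_le_mul_of_nonneg_left hl.le (by linarith)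
  have h6 : R * (ε / R) = ε := by field_simp
  nlinarith

end SpikeNorm

section Dent

variable {V : Type*} [AddCommGroup V] [Module ℝ V]

/-- Denting points of the unit ball of `N`, defined by slices. -/
def Dent (N : Seminorm ℝ V) (x : V) : Prop :=
  N x ≤ 1 ∧ ∀ ε > 0, ∃ (φ : V →ₗ[ℝ] ℝ) (η : ℝ), 0 < η ∧
    ∀ y, N y ≤ 1 → φ x - η < φ y → N (y - x) < ε

theorem Dent.map {N : Seminorm ℝ V} (T : V ≃ₗ[ℝ] V) (hT : ∀ x, N (T x) = N x) {x : V}
    (hx : Dent N x) : Dent N (T x) := by
  refine ⟨by rw [hT]; exact hx.1, fun ε hε => ?_⟩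
  obtain ⟨φ, η, hη, h⟩ := hx.2 ε hε
  refine ⟨φ.comp T.symm.toLinearMap, η, hη, fun y hy hφ => ?_⟩
  have h1 : N (T.symm y) ≤ 1 := by rw [← hT]; simpa using hy
  have h2 := h (T.symm y) h1 (by simpa using hφ)
  rw [← hT] at h2
  simpa using h2

variable (q : Seminorm ℝ V) {ι : Type*} (s : ι → V)

/-- Near a denting point there is a spike. -/
theorem Dent.near (hsym : ∀ i, ∃ j, s j = - s i) (c : ℝ)
    (hfar : ∀ y, q y ≤ 1 → ∃ u, c ≤ spikeNorm q s u ∧ q (y + u) ≤ 1 ∧ q (y - u) ≤ 1)
    {x : V} (hx : Dent (spikeNorm q s) x) (ε : ℝ) (hε : 0 < ε) (hεc : 2 * ε ≤ c) :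
    ∃ i, spikeNorm q s (x - s i) < ε := by
  obtain ⟨φ, η, hη, h⟩ := hx.2 ε hε
  by_contra hcon
  push Not at hcon
  -- no spike lies in the slice
  have hs1 : ∀ i, φ (s i) ≤ φ x - η := by
    intro i
    by_contra hi
    push Not at hi
    have := h (s i) (spikeNorm_spike q s i) hi
    rw [map_sub_rev] at this
    exact absurd this (not_lt.mpr (hcon i))
  -- no point of the old ball lies in the slice
  have hb1 : ∀ y, q y ≤ 1 → φ y ≤ φ x - η := by
    intro y hy
    by_contra hi
    push Not at hi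
    obtain ⟨u, hu, h1, h2⟩ := hfar y hy
    have h3 : spikeNorm q s (y + u) ≤ 1 := (spikeNorm_le q s _).trans h1
    have h4 : spikeNorm q s (y - u) ≤ 1 := (spikeNorm_le q s _).trans h2
    have h0 : spikeNorm q s (y - x) < ε := h y ((spikeNorm_le q s _).trans hy) hi
    rcases le_total 0 (φ u) with h5 | h5
    · have h6 := h (y + u) h3 (by rw [map_add]; linarith)
      have h7 : u = (y + u - x) - (y - x) := by abel
      have h8 : spikeNorm q s u ≤ spikeNorm q s (y + u - x) + spikeNorm q s (y - x) := by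
        conv_lhs => rw [h7]
        exact map_sub_le_add _ _ _
      linarith
    · have h6 := h (y - u) h4 (by rw [map_sub]; linarith)
      have h7 : u = (y - x) - (y - u - x) := by abel
      have h8 : spikeNorm q s u ≤ spikeNorm q s (y - x) + spikeNorm q s (y - u - x) := by
        conv_lhs => rw [h7]
        exact map_sub_le_add _ _ _
      linarith
  set β := φ x - η with hβ
  have hβ0 : 0 ≤ β := by simpa using hb1 0 (by simp)
  have hb2 : ∀ y, φ y ≤ β * q y := by
    intro y
    rcases eq_or_lt_of_le (apply_nonneg q y) with h0 | h0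
    · rw [← h0, mul_zero]
      by_contra hy
      push Not at hy
      have h1 := hb1 (((β + 1) / φ y) • y) (by
        rw [map_smul_eq_mul, ← h0, mul_zero]; exact zero_le_one)
      rw [map_smul, smul_eq_mul, div_mul_cancel₀ _ hy.ne'] at h1
      linarith
    · have h1 := hb1 ((q y)⁻¹ • y) (by
        rw [map_smul_eq_mul, Real.norm_eq_abs, abs_of_pos (inv_pos.mpr h0),
          inv_mul_cancel₀ h0.ne'])
      rw [map_smul, smul_eq_mul, inv_mul_le_iff₀ h0] at h1
      linarith
  have hs2 : ∀ i (r : ℝ), φ (r • s i) ≤ β * |r| := by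
    intro i r
    rcases le_total 0 r with hr | hr
    · rw [map_smul, smul_eq_mul, abs_of_nonneg hr, mul_comm]
      exact mul_le_mul_of_nonneg_right (hs1 i) hr
    · obtain ⟨j, hj⟩ := hsym i
      have h1 := hs1 j
      rw [hj, map_neg] at h1
      rw [map_smul, smul_eq_mul, abs_of_nonpos hr]
      nlinarith
  have hfin : ∀ δ > 0, φ x ≤ β * (1 + δ) := by
    intro δ hδ
    obtain ⟨l, hl⟩ := exists_val_lt' q s x δ hδ
    unfold spikeVal at hl
    have h1 : φ x = φ (x - Finsupp.linearCombination ℝ s l) +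
        φ (Finsupp.linearCombination ℝ s l) := by
      rw [← map_add]; simp
    have h2 : φ (Finsupp.linearCombination ℝ s l) ≤ β * l1 l := by
      rw [Finsupp.linearCombination_apply, map_finsuppSum, l1, Finsupp.sum, Finsupp.sum,
        Finset.mul_sum]
      exact Finset.sum_le_sum fun i _ => hs2 i _
    have h3 := hb2 (x - Finsupp.linearCombination ℝ s l)
    have h4 : β * (q (x - Finsupp.linearCombination ℝ s l) + l1 l) ≤ β * (1 + δ) :=
      mul_le_mul_of_nonneg_left (by linarith [hx.1]) hβ0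
    nlinarith
  have h1 := hfin (η / (2 * (β + 1))) (by positivity)
  have h2 : β * (η / (2 * (β + 1))) ≤ η / 2 := by
    rw [mul_div_assoc', div_le_div_iff₀ (by positivity) (by positivity)]
    nlinarith
  have h3 : φ x = β + η := by rw [hβ]; ring
  nlinarith

/-- A certificate for a spike to be a denting point. -/
theorem dent_of_certificate (κ : ℝ) (hκ : 0 < κ) (i : ι) (φ : V →ₗ[ℝ] ℝ) (h1 : φ (s i) = 1)
    (hq : ∀ x, |φ x| ≤ (1 - κ) * q x)
    (hs : ∀ j, s j = s i ∨ s j = - s i ∨ |φ (s j)| ≤ 1 - κ) :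
    Dent (spikeNorm q s) (s i) := by
  classical
  refine ⟨spikeNorm_spike q s i, fun ε hε => ?_⟩
  have hη : 0 < ε / (2 * (1 + 4 / κ)) := by positivity
  refine ⟨φ, ε / (2 * (1 + 4 / κ)), hη, fun y hy hφ => ?_⟩
  set η := ε / (2 * (1 + 4 / κ)) with hηdef
  rw [h1] at hφ
  obtain ⟨l, hl⟩ := exists_val_lt' q s y η hη
  unfold spikeVal at hl
  set b := y - Finsupp.linearCombination ℝ s l with hb
  -- split the sum
  set A := l.support.filter (fun j => s j = s i ∨ s j = - s i) with hA
  set B := l.support.filter (fun j => ¬ (s j = s i ∨ s j = - s i)) with hB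
  have hsplit : ∀ {M : Type _} [AddCommMonoid M] (f : ι → M), ∑ j ∈ l.support, f j =
      ∑ j ∈ A, f j + ∑ j ∈ B, f j := by
    intro M _ f
    exact (Finset.sum_filter_add_sum_filter_not _ _ _).symm
  set a := ∑ j ∈ A, |l j| with ha
  set r := ∑ j ∈ B, |l j| with hr
  set α := ∑ j ∈ A, l j * φ (s j) with hα
  have hl1 : l1 l = a + r := by rw [l1, Finsupp.sum, hsplit]
  have hsA : ∑ j ∈ A, l j • s j = α • s i := by
    rw [hα, Finset.sum_smul]
    refine Finset.sum_congr rfl fun j hj => ?_
    rcases (Finset.mem_filter.mp hj).2 with h | h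
    · rw [h, h1, mul_one]
    · rw [h, map_neg, h1]; simp
  have hy' : y = b + (α • s i + ∑ j ∈ B, l j • s j) := by
    rw [← hsA, hb, Finsupp.linearCombination_apply, Finsupp.sum,
      ← Finset.sum_filter_add_sum_filter_not l.support (fun j => s j = s i ∨ s j = - s i)
        (fun j => l j • s j)]
    abel
  have hαa : |α| ≤ a := by
    refine (Finset.abs_sum_le_sum_abs _ _).trans (Finset.sum_le_sum fun j hj => ?_)
    rw [abs_mul]
    have : |φ (s j)| = 1 := by
      rcases (Finset.mem_filter.mp hj).2 with h | h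
      · rw [h, h1, abs_one]
      · rw [h, map_neg, h1, abs_neg, abs_one]
    rw [this, mul_one]
  have hrB : |φ (∑ j ∈ B, l j • s j)| ≤ (1 - κ) * r := by
    rw [map_sum, hr, Finset.mul_sum]
    refine (Finset.abs_sum_le_sum_abs _ _).trans (Finset.sum_le_sum fun j hj => ?_)
    rw [map_smul, smul_eq_mul, abs_mul, mul_comm]
    have h2 := (Finset.mem_filter.mp hj).2
    push Not at h2
    rcases hs j with h | h | h
    · exact absurd h h2.1
    · exact absurd h h2.2
    · exact mul_le_mul_of_nonneg_right h (abs_nonneg _)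
  have hNB : spikeNorm q s (∑ j ∈ B, l j • s j) ≤ r := by
    refine (seminorm_sum_le (spikeNorm q s) _ _).trans (Finset.sum_le_sum fun j _ => ?_)
    rw [map_smul_eq_mul, Real.norm_eq_abs]
    exact mul_le_of_le_one_right (abs_nonneg _) (spikeNorm_spike q s j)
  have hφy : φ y = φ b + (α + φ (∑ j ∈ B, l j • s j)) := by
    conv_lhs => rw [hy']
    rw [map_add, map_add, map_smul, h1, smul_eq_mul, mul_one]
  have hbq := hq b
  have hb0 : 0 ≤ q b := apply_nonneg q b
  have hr0 : 0 ≤ r := Finset.sum_nonneg fun _ _ => abs_nonneg _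
  have e1 : φ b ≤ (1 - κ) * q b := (le_abs_self _).trans hbq
  have e2 : φ (∑ j ∈ B, l j • s j) ≤ (1 - κ) * r := (le_abs_self _).trans hrB
  have e3 : α ≤ a := (le_abs_self _).trans hαa
  have e4 : κ * (q b + r) < 2 * η := by nlinarith
  have e5 : q b + r < 2 * η / κ := by rw [lt_div_iff₀ hκ]; linarith
  have e6 : |α - 1| ≤ η + 2 * η / κ := by
    rw [abs_le]
    constructor
    · nlinarith [mul_nonneg hκ.le (add_nonneg hb0 hr0)]
    · have : 0 ≤ 2 * η / κ := by positivity
      linarith
  have hfin : spikeNorm q s (y - s i) ≤ q b + (|α - 1| + r) := by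
    have h3 : y - s i = b + ((α - 1) • s i + ∑ j ∈ B, l j • s j) := by
      conv_lhs => rw [hy']
      rw [sub_smul, one_smul]; abel
    rw [h3]
    refine (map_add_le_add _ _ _).trans (add_le_add (spikeNorm_le q s b) ?_)
    refine (map_add_le_add _ _ _).trans (add_le_add ?_ hNB)
    rw [map_smul_eq_mul, Real.norm_eq_abs]
    exact mul_le_of_le_one_right (abs_nonneg _) (spikeNorm_spike q s i)
  have e7 : 2 * η / κ + 2 * η / κ + η = η * (1 + 4 / κ) := by ring
  have e8 : η * (1 + 4 / κ) = ε / 2 := by rw [hηdef]; field_simp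
  linarith

/-- Isometries of the spike norm permute the spikes. -/
theorem exists_spike_map (hN : ∀ x, spikeNorm q s x = 0 → x = 0)
    (hsym : ∀ i, ∃ j, s j = - s i) (c : ℝ) (hc : 0 < c)
    (hfar : ∀ y, q y ≤ 1 → ∃ u, c ≤ spikeNorm q s u ∧ q (y + u) ≤ 1 ∧ q (y - u) ≤ 1)
    (δ : ℝ) (hδ : 0 < δ) (hsep : ∀ i j, s i ≠ s j → δ ≤ spikeNorm q s (s i - s j))
    (hdent : ∀ i, Dent (spikeNorm q s) (s i))
    (T : V ≃ₗ[ℝ] V) (hT : ∀ x, spikeNorm q s (T x) = spikeNorm q s x) (i : ι) :
    ∃ j, T (s i) = s j := by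
  have hx := (hdent i).map T hT
  set x := T (s i)
  set ε₀ := min (c / 2) (δ / 2) with hε₀
  have hε₀pos : 0 < ε₀ := by positivity
  obtain ⟨j, hj⟩ := Dent.near q s hsym c hfar hx ε₀ hε₀pos
    (by have := min_le_left (c / 2) (δ / 2); linarith)
  refine ⟨j, ?_⟩
  have key : ∀ ε > 0, spikeNorm q s (x - s j) ≤ ε := by
    intro ε hε
    obtain ⟨k, hk⟩ := Dent.near q s hsym c hfar hx (min ε ε₀) (by positivity)
      (by have := min_le_left (c / 2) (δ / 2); have := min_le_right ε ε₀; linarith)
    by_cases hjk : s k = s j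
    · rw [← hjk]; exact hk.le.trans (min_le_left _ _)
    · exfalso
      have h1 := hsep k j hjk
      have h2 : s k - s j = (x - s j) - (x - s k) := by abel
      have h3 : spikeNorm q s (s k - s j) ≤ spikeNorm q s (x - s j) + spikeNorm q s (x - s k) := by
        rw [h2]; exact map_sub_le_add _ _ _
      have h4 := min_le_right ε ε₀
      have h5 := min_le_right (c / 2) (δ / 2)
      linarith
  have h0 : spikeNorm q s (x - s j) = 0 :=
    le_antisymm (le_of_forall_pos_le_add fun ε hε => by simpa using key ε hε)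
      (apply_nonneg _ _)
  exact sub_eq_zero.mp (hN _ h0)

end Dent

end Pool.Agent.Comb7f333f
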