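import Pool.Agent.Lib.MP_7f333f_an.Defs
import Pool.Agent.Lib.MP_7f333f_an.SpikeNorm

set_option autoImplicit false

/-!
Basic facts on the norms given by families of finite sets, and the existence of blocks equivalent
to the basis of `c₀`.
-/

namespace Pool.Agent.Comb7f333f

open Filter Topology

theorem sum_abs_le_l1 (a : ℕ →₀ ℝ) (F : Finset ℕ) : ∑ k ∈ F, |a k| ≤ l1 a := by
  classical
  rw [l1_eq_of_subset a (a.support ∪ F) Finset.subset_union_left]
  exact Finset.sum_le_sum_of_subset_of_nonneg Finset.subset_union_right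
    fun _ _ _ => abs_nonneg _

theorem combNorm_bdd (𝓕 : Set (Finset ℕ)) (a : ℕ →₀ ℝ) :
    BddAbove {r | ∃ F ∈ 𝓕, r = ∑ k ∈ F, |a k|} :=
  ⟨l1 a, by rintro _ ⟨F, _, rfl⟩; exact sum_abs_le_l1 a F⟩

theorem le_combNorm {𝓕 : Set (Finset ℕ)} (a : ℕ →₀ ℝ) {F : Finset ℕ} (hF : F ∈ 𝓕) :
    ∑ k ∈ F, |a k| ≤ combNorm 𝓕 a := le_csSup (combNorm_bdd 𝓕 a) ⟨F, hF, rfl⟩

theorem combNorm_le {𝓕 : Set (Finset ℕ)} (a : ℕ →₀ ℝ) {c : ℝ} (hc : 0 ≤ c)
    (h : ∀ F ∈ 𝓕, ∑ k ∈ F, |a k| ≤ c) : combNorm 𝓕 a ≤ c :=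
  Real.sSup_le (by rintro _ ⟨F, hF, rfl⟩; exact h F hF) hc

theorem combNorm_nonneg (𝓕 : Set (Finset ℕ)) (a : ℕ →₀ ℝ) : 0 ≤ combNorm 𝓕 a :=
  Real.sSup_nonneg (by rintro _ ⟨F, _, rfl⟩; exact Finset.sum_nonneg fun _ _ => abs_nonneg _)

theorem combNorm_add_le (𝓕 : Set (Finset ℕ)) (a b : ℕ →₀ ℝ) :
    combNorm 𝓕 (a + b) ≤ combNorm 𝓕 a + combNorm 𝓕 b := by
  refine combNorm_le _ (add_nonneg (combNorm_nonneg _ _) (combNorm_nonneg _ _)) fun F hF => ?_
  refine (Finset.sum_le_sum fun k _ => (abs_add_le (a k) (b k))).trans ?_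
  rw [Finset.sum_add_distrib]
  exact add_le_add (le_combNorm a hF) (le_combNorm b hF)

theorem combNorm_smul (𝓕 : Set (Finset ℕ)) (c : ℝ) (a : ℕ →₀ ℝ) :
    combNorm 𝓕 (c • a) = |c| * combNorm 𝓕 a := by
  have h : ∀ (c : ℝ) (a : ℕ →₀ ℝ), combNorm 𝓕 (c • a) ≤ |c| * combNorm 𝓕 a := by
    intro c a
    refine combNorm_le _ (mul_nonneg (abs_nonneg _) (combNorm_nonneg _ _)) fun F hF => ?_
    have : ∑ k ∈ F, |(c • a) k| = |c| * ∑ k ∈ F, |a k| := by
      rw [Finset.mul_sum]
      exact Finset.sum_congr rfl fun k _ => by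
        rw [Finsupp.smul_apply, smul_eq_mul, abs_mul]
    rw [this]
    exact mul_le_mul_of_nonneg_left (le_combNorm a hF) (abs_nonneg _)
  refine le_antisymm (h c a) ?_
  rcases eq_or_ne c 0 with rfl | hc
  · simp [combNorm_nonneg]
  · have h1 := h c⁻¹ (c • a)
    rw [smul_smul, inv_mul_cancel₀ hc, one_smul, abs_inv] at h1
    have h2 : 0 < |c| := abs_pos.mpr hc
    rwa [← div_eq_inv_mul, le_div_iff₀ h2, mul_comm] at h1

section Regular

variable {𝓕 : Set (Finset ℕ)} (h : IsRegular 𝓕)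

include h

theorem abs_le_combNorm (a : ℕ →₀ ℝ) (k : ℕ) : |a k| ≤ combNorm 𝓕 a := by
  have := le_combNorm a (h.singleton k)
  simpa using this

/-- A set which is dominated by a set of the family belongs to the family. -/
theorem mem_of_dominated {S T : Finset ℕ} (hS : S ∈ 𝓕)
    (hST : ∀ n, (T.filter (· ≤ n)).card ≤ (S.filter (· ≤ n)).card) : T ∈ 𝓕 := by
  classical
  have hcard : T.card ≤ S.card := by
    obtain ⟨n, hn⟩ : ∃ n, ∀ x ∈ T ∪ S, x ≤ n := ⟨(T ∪ S).sup id, fun x hx => Finset.le_sup (f := id) hx⟩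
    have h1 := hST n
    rwa [Finset.filter_true_of_mem fun x hx => hn x (Finset.mem_union_left _ hx),
      Finset.filter_true_of_mem fun x hx => hn x (Finset.mem_union_right _ hx)] at h1
  set k : Fin T.card → ℕ := fun i => T.orderEmbOfFin rfl i with hk
  set l0 : Fin S.card → ℕ := fun i => S.orderEmbOfFin rfl i with hl0
  set l : Fin T.card → ℕ := fun i => l0 (Fin.castLE hcard i) with hl
  have hkm : StrictMono k := (T.orderEmbOfFin rfl).strictMono
  have hl0m : StrictMono l0 := (S.orderEmbOfFin rfl).strictMono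
  have hlm : StrictMono l := fun i j hij => hl0m (by simpa using hij)
  have hkT : Finset.univ.image k = T := by
    ext x
    rw [← Finset.mem_coe (s := T), ← Finset.range_orderEmbOfFin T rfl]
    simp [hk]
  have hl0S : ∀ i, l0 i ∈ S := fun i => Finset.orderEmbOfFin_mem S rfl i
  rw [← hkT]
  refine h.spreading _ l k hlm hkm ?_ (h.hereditary S hS _ ?_)
  · intro i
    by_contra hcon
    push Not at hcon
    have h1 : S.filter (· ≤ k i) ⊆ (Finset.univ.filter fun j : Fin S.card => (j : ℕ) < i).image l0 := by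
      intro x hx
      rw [Finset.mem_filter] at hx
      have hxS : x ∈ Set.range (S.orderEmbOfFin rfl) := by
        rw [Finset.range_orderEmbOfFin]; exact hx.1
      obtain ⟨j, rfl⟩ := hxS
      refine Finset.mem_image_of_mem _ (Finset.mem_filter.mpr ⟨Finset.mem_univ _, ?_⟩)
      have h2 : l0 j < l0 (Fin.castLE hcard i) := lt_of_le_of_lt hx.2 hcon
      have h3 := hl0m.lt_iff_lt.mp h2
      exact h3
    have h2 : (Finset.univ.filter fun j : Fin T.card => j ≤ i).image k ⊆ T.filter (· ≤ k i) := by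
      intro x hx
      obtain ⟨j, hj, rfl⟩ := Finset.mem_image.mp hx
      rw [Finset.mem_filter]
      exact ⟨Finset.orderEmbOfFin_mem T rfl j, hkm.monotone (Finset.mem_filter.mp hj).2⟩
    have h3 := Finset.card_le_card h1
    have h4 := Finset.card_le_card h2
    rw [Finset.card_image_of_injective _ hkm.injective] at h4
    have h5 := Finset.card_image_le (s := Finset.univ.filter fun j : Fin S.card => (j : ℕ) < i)
      (f := l0)
    have h6 : (Finset.univ.filter fun j : Fin S.card => (j : ℕ) < i).card ≤ i := by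
      have : (Finset.univ.filter fun j : Fin S.card => (j : ℕ) < i).card ≤
          (Finset.range (i : ℕ)).card :=
        Finset.card_le_card_of_injOn (fun j => (j : ℕ))
          (fun j hj => by simpa using hj) (fun a _ b _ hab => Fin.ext hab)
      simpa using this
    have h7 : (Finset.univ.filter fun j : Fin T.card => j ≤ i).card = i + 1 := by
      have : (Finset.univ.filter fun j : Fin T.card => j ≤ i) = Finset.Iic i := by
        ext; simp
      rw [this, Fin.card_Iic]
    have h8 := hST (k i)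
    omega
  · intro x hx
    obtain ⟨j, _, rfl⟩ := Finset.mem_image.mp hx
    exact hl0S _

/-- A set which injects decreasingly into a set of the family belongs to the family. -/
theorem mem_of_inj {S T : Finset ℕ} (hS : S ∈ 𝓕) (φ : ℕ → ℕ) (h1 : ∀ x ∈ T, φ x ∈ S)
    (h2 : ∀ x ∈ T, φ x ≤ x) (h3 : Set.InjOn φ T) : T ∈ 𝓕 := by
  refine mem_of_dominated h hS fun n => ?_
  refine Finset.card_le_card_of_injOn φ ?_ ?_
  · intro x hx
    simp only [Finset.coe_filter, Set.mem_ofPred_eq] at hx ⊢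
    exact ⟨h1 x hx.1, (h2 x hx.1).trans hx.2⟩
  · exact h3.mono fun x hx => by
      simp only [Finset.coe_filter, Set.mem_ofPred_eq] at hx
      exact hx.1

/-- The sections of the family. -/
def sec (𝓕 : Set (Finset ℕ)) (A : Finset ℕ) : Set (Finset ℕ) :=
  {F | (∀ k ∈ F, ∀ i ∈ A, i < k) ∧ A ∪ F ∈ 𝓕}

omit h in
theorem sec_empty : sec 𝓕 ∅ = 𝓕 := by
  ext F; simp [sec]

/-- The section norm is equivalent to the norm on a tail. -/
def SecEq (𝓕 : Set (Finset ℕ)) (A : Finset ℕ) : Prop :=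
  ∃ c : ℝ, 0 < c ∧ ∃ M : ℕ, ∀ a : ℕ →₀ ℝ, (∀ k ∈ a.support, M < k) →
    c * combNorm 𝓕 a ≤ combNorm (sec 𝓕 A) a

theorem SecEq.mem {A : Finset ℕ} (hA : SecEq 𝓕 A) : A ∈ 𝓕 := by
  classical
  obtain ⟨c, hc, M, hM⟩ := hA
  by_contra hcon
  have h1 : sec 𝓕 A = ∅ := by
    ext F
    simp only [sec, Set.mem_ofPred_eq, Set.mem_empty_iff_false, iff_false, not_and]
    intro _ h2
    exact hcon (h.hereditary _ h2 _ Finset.subset_union_left)
  have h2 := hM (Finsupp.single (M + 1) 1) (by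
    intro k hk
    have := Finsupp.support_single_subset hk
    simp at this; omega)
  have h3 := abs_le_combNorm h (Finsupp.single (M + 1) 1) (M + 1)
  rw [h1] at h2
  have h4 : combNorm ∅ (Finsupp.single (M + 1) (1 : ℝ)) = 0 := by
    simp [combNorm]
  rw [h4] at h2
  simp only [Finsupp.single_eq_same, abs_one] at h3
  nlinarith

/-- There is a maximal section whose norm is equivalent to the norm. -/
theorem exists_maximal_section : ∃ A : Finset ℕ, SecEq 𝓕 A ∧
    ∀ m, (∀ i ∈ A, i < m) → ¬ SecEq 𝓕 (insert m A) := by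
  classical
  by_contra hcon
  push Not at hcon
  have h0 : SecEq 𝓕 ∅ := ⟨1, one_pos, 0, fun a _ => by rw [sec_empty, one_mul]⟩
  choose f hf1 hf2 using hcon
  -- the chain
  let A : ℕ → {A : Finset ℕ // SecEq 𝓕 A} := fun n => Nat.rec ⟨∅, h0⟩
    (fun _ B => ⟨insert (f B.1 B.2) B.1, hf2 B.1 B.2⟩) n
  have hA : ∀ n, (A (n + 1)).1 = insert (f (A n).1 (A n).2) (A n).1 := fun n => rfl
  have hsub : ∀ n, (A n).1 ⊆ (A (n + 1)).1 := fun n => by
    rw [hA]; exact Finset.subset_insert _ _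
  have hmono : Monotone fun n => (A n).1 := monotone_nat_of_le_succ hsub
  have hcard : ∀ n, (A n).1.card = n := by
    intro n
    induction n with
    | zero => rfl
    | succ n ih =>
      rw [hA, Finset.card_insert_of_notMem, ih]
      intro hmem
      exact lt_irrefl _ (hf1 (A n).1 (A n).2 _ hmem)
  set χ : ℕ → Bool := fun n => decide (∃ j, n ∈ (A j).1) with hχ
  have htend : Tendsto (fun j => (fun n => decide (n ∈ (A j).1) : ℕ → Bool)) atTop (𝓝 χ) := by
    rw [tendsto_pi_nhds]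
    intro n
    refine tendsto_nhds_of_eventually_eq ?_
    by_cases hn : ∃ j, n ∈ (A j).1
    · obtain ⟨j, hj⟩ := hn
      filter_upwards [eventually_ge_atTop j] with i hi
      have h1 : n ∈ (A i).1 := hmono hi hj
      have h2 : ∃ j, n ∈ (A j).1 := ⟨j, hj⟩
      simp [hχ, h1, h2]
    · filter_upwards with i
      have h1 : n ∉ (A i).1 := fun h' => hn ⟨i, h'⟩
      simp only [hχ, h1, hn]
  have hmem := h.compact.isClosed.mem_of_tendsto htend (Filter.Eventually.of_forall fun j =>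
    ⟨(A j).1, SecEq.mem h (A j).2, fun n => rfl⟩)
  obtain ⟨F, _, hF⟩ := hmem
  have hAF : ∀ j, (A j).1 ⊆ F := by
    intro j n hn
    have h1 := hF n
    have h2 : χ n = true := by
      simp only [hχ, decide_eq_true_eq]
      exact ⟨j, hn⟩
    rw [h2] at h1
    exact of_decide_eq_true h1.symm
  have h1 := Finset.card_le_card (hAF (F.card + 1))
  have h2 := hcard (F.card + 1)
  omega

end Regular

end Pool.Agent.Comb7f333f
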