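import Pool.Agent.Lib.MP_7f333f_an.Comb

set_option autoImplicit false

/-!
Matrices act on combinatorial spaces, by acting on blocks of consecutive coordinates.
-/

namespace Pool.Agent.Comb7f333f

open Filter Topology

section Fin0

variable {m : ℕ}

/-- Move the coordinates of residue `s` to the coordinates of residue `r`, in each block of `m`
consecutive coordinates. -/
noncomputable def moveFin (m r s : ℕ) : (ℕ →₀ ℝ) →ₗ[ℝ] (ℕ →₀ ℝ) :=
  Finsupp.linearCombination ℝ fun k => if k % m = s then Finsupp.single (m * (k / m) + r) 1 else 0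

theorem move_iff (m r s j k : ℕ) (hr : r < m) (hs : s < m) :
    (j % m = s ∧ m * (j / m) + r = k) ↔ (k % m = r ∧ j = m * (k / m) + s) := by
  have hm : 0 < m := by omega
  constructor
  · rintro ⟨rfl, rfl⟩
    have h1 : (m * (j / m) + r) / m = j / m := by
      rw [Nat.mul_add_div hm, Nat.div_eq_of_lt hr, add_zero]
    refine ⟨by rw [Nat.mul_add_mod, Nat.mod_eq_of_lt hr], ?_⟩
    rw [h1, Nat.div_add_mod]
  · rintro ⟨rfl, rfl⟩
    have h1 : (m * (k / m) + s) / m = k / m := by
      rw [Nat.mul_add_div hm, Nat.div_eq_of_lt hs, add_zero]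
    refine ⟨by rw [Nat.mul_add_mod, Nat.mod_eq_of_lt hs], ?_⟩
    rw [h1, Nat.div_add_mod]

theorem moveFin_apply (m r s : ℕ) (hr : r < m) (hs : s < m) (a : ℕ →₀ ℝ) (k : ℕ) :
    moveFin m r s a k = if k % m = r then a (m * (k / m) + s) else 0 := by
  induction a using Finsupp.induction_linear with
  | zero => simp
  | add a b ha hb =>
    rw [map_add, Finsupp.add_apply, ha, hb]
    split_ifs <;> simp
  | single j c =>
    unfold moveFin
    rw [Finsupp.linearCombination_single]
    have h := move_iff m r s j k hr hs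
    by_cases h1 : j % m = s
    · rw [if_pos h1, Finsupp.smul_single, smul_eq_mul, mul_one, Finsupp.single_apply]
      by_cases h2 : m * (j / m) + r = k
      · obtain ⟨h3, h4⟩ := h.mp ⟨h1, h2⟩
        rw [if_pos h2, if_pos h3, ← h4, Finsupp.single_eq_same]
      · rw [if_neg h2]
        by_cases h3 : k % m = r
        · rw [if_pos h3, Finsupp.single_apply, if_neg]
          intro h4
          exact h2 (h.mpr ⟨h3, h4⟩).2
        · rw [if_neg h3]
    · rw [if_neg h1, smul_zero, Finsupp.zero_apply]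
      by_cases h3 : k % m = r
      · rw [if_pos h3, Finsupp.single_apply, if_neg]
        intro h4
        exact h1 (h.mpr ⟨h3, h4⟩).1
      · rw [if_neg h3]

end Fin0

section Regular

variable {𝓕 : Set (Finset ℕ)} (h : IsRegular 𝓕)

include h

theorem combNorm_moveFin (m r s : ℕ) (hr : r < m) (hs : s < m) (a : ℕ →₀ ℝ) :
    combNorm 𝓕 (moveFin m r s a) ≤ 2 * combNorm 𝓕 a := by
  classical
  have hm : 0 < m := by omega
  refine combNorm_le _ (mul_nonneg (by norm_num) (combNorm_nonneg _ _)) fun F hF => ?_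
  set Fr := F.filter (fun k => k % m = r) with hFr
  have hFr𝓕 : Fr ∈ 𝓕 := h.hereditary F hF _ (Finset.filter_subset _ _)
  set φ : ℕ → ℕ := fun k => m * (k / m) + s with hφ
  set ψ : ℕ → ℕ := fun k => m * (k / m) + r with hψ
  have hφψ : ∀ k ∈ Fr, ψ (φ k) = k := by
    intro k hk
    have h1 : (m * (k / m) + s) / m = k / m := by
      rw [Nat.mul_add_div hm, Nat.div_eq_of_lt hs, add_zero]
    have h2 : k % m = r := (Finset.mem_filter.mp hk).2
    show m * ((m * (k / m) + s) / m) + r = k
    rw [h1, ← h2, Nat.div_add_mod]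
  have hφinj : Set.InjOn φ Fr := fun x hx y hy hxy => by
    rw [← hφψ x hx, ← hφψ y hy, hxy]
  set D := Fr.image φ with hD
  have hsum : ∑ k ∈ F, |moveFin m r s a k| = ∑ d ∈ D, |a d| := by
    rw [hD, Finset.sum_image hφinj, hFr, Finset.sum_filter]
    refine Finset.sum_congr rfl fun k _ => ?_
    rw [moveFin_apply m r s hr hs]
    split_ifs <;> simp [hφ]
  rw [hsum]
  rcases D.eq_empty_or_nonempty with hD0 | hDne
  · rw [hD0, Finset.sum_empty]
    exact mul_nonneg (by norm_num) (combNorm_nonneg _ _)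
  have hDmod : ∀ d ∈ D, d % m = s := by
    intro d hd
    obtain ⟨k, _, rfl⟩ := Finset.mem_image.mp hd
    show (m * (k / m) + s) % m = s
    rw [Nat.mul_add_mod, Nat.mod_eq_of_lt hs]
  have hDψ : ∀ d ∈ D, ψ d ∈ Fr := by
    intro d hd
    obtain ⟨k, hk, rfl⟩ := Finset.mem_image.mp hd
    rw [hφψ k hk]; exact hk
  have hψinj : Set.InjOn ψ D := by
    intro x hx y hy hxy
    have h1 := hDmod x hx
    have h2 := hDmod y hy
    have h3 : m * (x / m) = m * (y / m) := by
      have : m * (x / m) + r = m * (y / m) + r := hxy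
      omega
    rw [← Nat.div_add_mod x m, ← Nat.div_add_mod y m, h1, h2, h3]
  set d0 := D.min' hDne with hd0
  have hd0D : d0 ∈ D := Finset.min'_mem _ _
  have hT : D.erase d0 ∈ 𝓕 := by
    refine mem_of_dominated h hFr𝓕 fun n => ?_
    set Dn := D.filter (· ≤ n) with hDn
    have h1 : (D.erase d0).filter (· ≤ n) = Dn.erase d0 := by
      ext x; simp only [Finset.mem_filter, Finset.mem_erase, hDn]; tauto
    rw [h1]
    rcases Dn.eq_empty_or_nonempty with hDn0 | hDnne
    · rw [hDn0]; simp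
    have hd0n : d0 ∈ Dn := by
      obtain ⟨x, hx⟩ := hDnne
      rw [hDn, Finset.mem_filter] at hx ⊢
      exact ⟨hd0D, (Finset.min'_le D x hx.1).trans hx.2⟩
    set d1 := Dn.max' hDnne with hd1
    have hd1n : d1 ∈ Dn := Finset.max'_mem _ _
    rw [Finset.card_erase_of_mem hd0n, ← Finset.card_erase_of_mem hd1n]
    refine Finset.card_le_card_of_injOn ψ ?_ ?_
    · intro x hx
      have hx1 : x ∈ Dn := Finset.mem_of_mem_erase hx
      have hx2 : x ≠ d1 := Finset.ne_of_mem_erase hx
      have hx3 : x < d1 := lt_of_le_of_ne (Finset.le_max' Dn x hx1) hx2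
      have hxD : x ∈ D := (Finset.mem_filter.mp hx1).1
      have hd1D : d1 ∈ D := (Finset.mem_filter.mp hd1n).1
      have hdiv : x / m < d1 / m := by
        by_contra hcon
        push Not at hcon
        have h2 := hDmod x hxD
        have h3 := hDmod d1 hd1D
        have h4 := Nat.div_add_mod x m
        have h5 := Nat.div_add_mod d1 m
        have h6 : m * (d1 / m) ≤ m * (x / m) := Nat.mul_le_mul_left m hcon
        omega
      have h7 : m * (x / m) + m ≤ m * (d1 / m) := by
        have : m * (x / m + 1) ≤ m * (d1 / m) := Nat.mul_le_mul_left m hdiv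
        linarith
      have h8 := Nat.div_add_mod d1 m
      have h9 : d1 ≤ n := (Finset.mem_filter.mp hd1n).2
      simp only [Finset.coe_filter, Set.mem_ofPred_eq]
      refine ⟨hDψ x hxD, ?_⟩
      show m * (x / m) + r ≤ n
      omega
    · refine hψinj.mono fun x hx => ?_
      have hx1 : x ∈ Dn := Finset.mem_of_mem_erase hx
      exact (Finset.mem_filter.mp hx1).1
  rw [← Finset.add_sum_erase D _ hd0D]
  have h1 := abs_le_combNorm h a d0
  have h2 := le_combNorm a hT
  linarith

/-- The action of a matrix on the finitely supported sequences. -/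
noncomputable def matFin {m : ℕ} (A : Matrix (Fin m) (Fin m) ℝ) : (ℕ →₀ ℝ) →ₗ[ℝ] (ℕ →₀ ℝ) :=
  ∑ r : Fin m, ∑ s : Fin m, A r s • moveFin m r s

omit h in
theorem matFin_apply {m : ℕ} (hm : 0 < m) (A : Matrix (Fin m) (Fin m) ℝ) (a : ℕ →₀ ℝ) (k : ℕ) :
    matFin A a k = ∑ s : Fin m, A ⟨k % m, Nat.mod_lt k hm⟩ s * a (m * (k / m) + s) := by
  unfold matFin
  simp only [LinearMap.sum_apply, LinearMap.smul_apply, Finsupp.finsetSum_apply,
    Finsupp.smul_apply, smul_eq_mul]
  rw [Finset.sum_eq_single (⟨k % m, Nat.mod_lt k hm⟩ : Fin m)]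
  · refine Finset.sum_congr rfl fun s _ => ?_
    rw [moveFin_apply m _ s (Nat.mod_lt k hm) s.2, if_pos rfl]
  · intro r _ hr
    refine Finset.sum_eq_zero fun s _ => ?_
    rw [moveFin_apply m r s r.2 s.2, if_neg, mul_zero]
    intro h'
    exact hr (Fin.ext h'.symm)
  · intro h'
    exact absurd (Finset.mem_univ _) h'

omit h in
theorem matFin_mul {m : ℕ} (hm : 0 < m) (A B : Matrix (Fin m) (Fin m) ℝ) (a : ℕ →₀ ℝ) :
    matFin (A * B) a = matFin A (matFin B a) := by
  ext k
  rw [matFin_apply hm, matFin_apply hm]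
  have h1 : ∀ s : Fin m, matFin B a (m * (k / m) + s) =
      ∑ t : Fin m, B s t * a (m * (k / m) + t) := by
    intro s
    rw [matFin_apply hm]
    have e1 : (m * (k / m) + s) / m = k / m := by
      rw [Nat.mul_add_div hm, Nat.div_eq_of_lt s.2, add_zero]
    have e2 : (⟨(m * (k / m) + s) % m, Nat.mod_lt _ hm⟩ : Fin m) = s := by
      apply Fin.ext
      show (m * (k / m) + s) % m = s
      rw [Nat.mul_add_mod, Nat.mod_eq_of_lt s.2]
    rw [e1, e2]
  simp only [h1, Matrix.mul_apply, Finset.sum_mul, Finset.mul_sum]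
  rw [Finset.sum_comm]
  refine Finset.sum_congr rfl fun s _ => Finset.sum_congr rfl fun t _ => ?_
  ring

omit h in
theorem matFin_one {m : ℕ} (hm : 0 < m) (a : ℕ →₀ ℝ) :
    matFin (1 : Matrix (Fin m) (Fin m) ℝ) a = a := by
  ext k
  rw [matFin_apply hm, Finset.sum_eq_single (⟨k % m, Nat.mod_lt k hm⟩ : Fin m)]
  · rw [Matrix.one_apply_eq, one_mul]
    show a (m * (k / m) + k % m) = a k
    rw [Nat.div_add_mod]
  · intro s _ hs
    rw [Matrix.one_apply_ne hs.symm, zero_mul]
  · intro h'
    exact absurd (Finset.mem_univ _) h'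

theorem combNorm_matFin {m : ℕ} (A : Matrix (Fin m) (Fin m) ℝ) (B : ℝ)
    (hA : ∀ r s, |A r s| ≤ B) (a : ℕ →₀ ℝ) :
    combNorm 𝓕 (matFin A a) ≤ (2 * m ^ 2 * B) * combNorm 𝓕 a := by
  classical
  unfold matFin
  simp only [LinearMap.sum_apply, LinearMap.smul_apply]
  have hadd : ∀ (t : Finset (Fin m)) (f : Fin m → (ℕ →₀ ℝ)),
      combNorm 𝓕 (∑ i ∈ t, f i) ≤ ∑ i ∈ t, combNorm 𝓕 (f i) := by
    intro t f
    exact Finset.le_sum_of_subadditive (combNorm 𝓕)
      (combNorm_le _ le_rfl fun F _ => by simp) (combNorm_add_le 𝓕) t f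
  refine (hadd _ _).trans ?_
  have h1 : ∀ r : Fin m, combNorm 𝓕 (∑ s : Fin m, A r s • moveFin m r s a) ≤
      m * (B * (2 * combNorm 𝓕 a)) := by
    intro r
    refine (hadd _ _).trans ?_
    have h2 : ∀ s ∈ (Finset.univ : Finset (Fin m)),
        combNorm 𝓕 (A r s • moveFin m r s a) ≤ B * (2 * combNorm 𝓕 a) := by
      intro s _
      rw [combNorm_smul]
      exact mul_le_mul (hA r s) (combNorm_moveFin h m r s r.2 s.2 a) (combNorm_nonneg _ _)
        ((abs_nonneg _).trans (hA r s))
    refine (Finset.sum_le_card_nsmul _ _ _ h2).trans ?_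
    simp
  refine (Finset.sum_le_card_nsmul _ _ _ fun r _ => h1 r).trans ?_
  simp only [Finset.card_univ, Fintype.card_fin, nsmul_eq_mul]
  apply le_of_eq
  ring

end Regular

/-! ### The action on the space -/

section Space

variable {𝓕 : Set (Finset ℕ)} {X : Type*} [NormedAddCommGroup X] [NormedSpace ℝ X]
  [CompleteSpace X] {e : ℕ → X}

/-- The action of a matrix on the space. -/
noncomputable def matX (e : ℕ → X) {m : ℕ} (A : Matrix (Fin m) (Fin m) ℝ) : X →L[ℝ] X :=
  ((Finsupp.linearCombination ℝ e).comp (matFin A)).extendOfNorm (Finsupp.linearCombination ℝ e)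

variable (h : IsRegular 𝓕) (hX : IsCombSpace 𝓕 e)

include h hX

omit [CompleteSpace X] in
theorem matX_bound {m : ℕ} (A : Matrix (Fin m) (Fin m) ℝ) (B : ℝ)
    (hA : ∀ r s, |A r s| ≤ B) (a : ℕ →₀ ℝ) :
    ‖((Finsupp.linearCombination ℝ e).comp (matFin A)) a‖ ≤
      (2 * m ^ 2 * B) * ‖Finsupp.linearCombination ℝ e a‖ := by
  rw [LinearMap.comp_apply, hX.norm_eq, hX.norm_eq]
  exact combNorm_matFin h A B hA a

omit [CompleteSpace X] h hX in
theorem exists_entry_bound {m : ℕ} (A : Matrix (Fin m) (Fin m) ℝ) : ∃ B, ∀ r s, |A r s| ≤ B :=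
  ⟨∑ r, ∑ s, |A r s|, fun r s =>
    (Finset.single_le_sum (f := fun s => |A r s|) (fun _ _ => abs_nonneg _)
      (Finset.mem_univ s)).trans
      (Finset.single_le_sum (f := fun r => ∑ s, |A r s|)
        (fun _ _ => Finset.sum_nonneg fun _ _ => abs_nonneg _) (Finset.mem_univ r))⟩

theorem matX_comb {m : ℕ} (A : Matrix (Fin m) (Fin m) ℝ) (a : ℕ →₀ ℝ) :
    matX e A (Finsupp.linearCombination ℝ e a) =
      Finsupp.linearCombination ℝ e (matFin A a) := by
  obtain ⟨B, hB⟩ := exists_entry_bound A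
  exact LinearMap.extendOfNorm_eq hX.dense ⟨_, matX_bound h hX A B hB⟩ a

theorem norm_matX_le {m : ℕ} (A : Matrix (Fin m) (Fin m) ℝ) (B : ℝ)
    (hA : ∀ r s, |A r s| ≤ B) (x : X) : ‖matX e A x‖ ≤ (2 * m ^ 2 * B) * ‖x‖ :=
  LinearMap.norm_extendOfNorm_apply_le hX.dense _ (matX_bound h hX A B hA) x

theorem matX_mul {m : ℕ} (hm : 0 < m) (A B : Matrix (Fin m) (Fin m) ℝ) (x : X) :
    matX e (A * B) x = matX e A (matX e B x) := by
  refine congrFun (hX.dense.equalizer (matX e (A * B)).continuous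
    ((matX e A).continuous.comp (matX e B).continuous) (funext fun a => ?_)) x
  simp only [Function.comp_apply]
  rw [matX_comb h hX, matX_comb h hX, matX_comb h hX, matFin_mul hm]

theorem matX_one {m : ℕ} (hm : 0 < m) (x : X) :
    matX e (1 : Matrix (Fin m) (Fin m) ℝ) x = x := by
  refine congrFun (hX.dense.equalizer (matX e (1 : Matrix (Fin m) (Fin m) ℝ)).continuous
    continuous_id (funext fun a => ?_)) x
  simp only [Function.comp_apply, id]
  rw [matX_comb h hX, matFin_one hm]

theorem matX_neg_one {m : ℕ} (hm : 0 < m) (x : X) :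
    matX e (-1 : Matrix (Fin m) (Fin m) ℝ) x = - x := by
  refine congrFun (hX.dense.equalizer (matX e (-1 : Matrix (Fin m) (Fin m) ℝ)).continuous
    continuous_neg (funext fun a => ?_)) x
  simp only [Function.comp_apply]
  rw [matX_comb h hX]
  have h1 : matFin (-1 : Matrix (Fin m) (Fin m) ℝ) a = - a := by
    have h2 : matFin (-1 : Matrix (Fin m) (Fin m) ℝ) a =
        - matFin (1 : Matrix (Fin m) (Fin m) ℝ) a := by
      ext k
      rw [matFin_apply hm, Finsupp.neg_apply, matFin_apply hm, ← Finset.sum_neg_distrib]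
      exact Finset.sum_congr rfl fun s _ => by rw [Matrix.neg_apply, neg_mul]
    rw [h2, matFin_one hm]
  rw [h1, map_neg]

end Space

end Pool.Agent.Comb7f333f
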