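import Pool.Agent.Lib.MP_7f333f_an.Defs

set_option autoImplicit false

/-!
A closed group of permutations of `ℕ` acts as a closed group on the product of `ℕ` and an orbit
of a tuple.
-/

namespace Pool.Agent.Comb7f333f

section

variable (G : Subgroup (Equiv.Perm ℕ)) (N : ℕ)

/-- The orbit of the initial tuple. -/
def Orb : Type := {t : Fin N → ℕ // ∃ g : G, ∀ j, t j = (g : Equiv.Perm ℕ) j}

instance : MulAction G (Orb G N) where
  smul g t := ⟨fun j => (g : Equiv.Perm ℕ) (t.1 j), by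
    obtain ⟨h, hh⟩ := t.2
    refine ⟨g * h, fun j => ?_⟩
    show (g : Equiv.Perm ℕ) (t.1 j) = (g : Equiv.Perm ℕ) ((h : Equiv.Perm ℕ) j)
    rw [hh]⟩
  one_smul t := rfl
  mul_smul g h t := rfl

variable {G N}

theorem Orb.smul_apply (g : G) (t : Orb G N) (j : Fin N) :
    (g • t).1 j = (g : Equiv.Perm ℕ) (t.1 j) := rfl

instance : Countable (Orb G N) := by
  unfold Orb
  infer_instance

/-- The initial tuple. -/
def Orb.base : Orb G N := ⟨fun j => j, 1, fun _ => rfl⟩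

instance : Nonempty (Orb G N) := ⟨Orb.base⟩

theorem smul_pair (g : G) (n : ℕ) (t : Orb G N) :
    g • ((n, t) : ℕ × Orb G N) = ((g : Equiv.Perm ℕ) n, g • t) := rfl

theorem stab_of_fix (g : G) (p : ℕ × Orb G N) (h : g • p = p) :
    ∃ k : G, ∀ j : ℕ, j < N → ((k⁻¹ * g * k : G) : Equiv.Perm ℕ) j = j := by
  obtain ⟨n, t⟩ := p
  obtain ⟨k, hk⟩ := t.2
  refine ⟨k, fun j hj => ?_⟩
  have h1 : g • t = t := congrArg Prod.snd h
  have h2 : (g : Equiv.Perm ℕ) (t.1 ⟨j, hj⟩) = t.1 ⟨j, hj⟩ := by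
    rw [← Orb.smul_apply, h1]
  rw [hk] at h2
  show (k : Equiv.Perm ℕ)⁻¹ ((g : Equiv.Perm ℕ) ((k : Equiv.Perm ℕ) j)) = j
  rw [h2]
  simp

theorem closed_pair (hG : IsClosedPerm G) (π : Equiv.Perm (ℕ × Orb G N))
    (hπ : ∀ F : Finset (ℕ × Orb G N), ∃ g : G, ∀ p ∈ F, g • p = π p) :
    ∃ g : G, ∀ p, g • p = π p := by
  classical
  set o : Orb G N := Orb.base
  have h1 : ∀ n t, (π (n, t)).1 = (π (n, o)).1 := by
    intro n t
    obtain ⟨g, hg⟩ := hπ {(n, t), (n, o)}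
    rw [← hg (n, t) (by simp), ← hg (n, o) (by simp)]
    rfl
  have hinj : Function.Injective fun n => (π (n, o)).1 := by
    intro n n' h
    obtain ⟨g, hg⟩ := hπ {(n, o), (n', o)}
    simp only [← hg (n, o) (by simp), ← hg (n', o) (by simp)] at h
    exact (g : Equiv.Perm ℕ).injective h
  have hsurj : Function.Surjective fun n => (π (n, o)).1 := by
    intro m
    refine ⟨(π.symm (m, o)).1, ?_⟩
    show (π ((π.symm (m, o)).1, o)).1 = m
    rw [← h1 _ (π.symm (m, o)).2]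
    simp
  set π1 : Equiv.Perm ℕ := Equiv.ofBijective _ ⟨hinj, hsurj⟩ with hπ1
  have hπ1v : ∀ n, π1 n = (π (n, o)).1 := fun n => rfl
  have hmem : π1 ∈ G := by
    refine hG π1 fun F => ?_
    obtain ⟨g, hg⟩ := hπ (F.image fun n => (n, o))
    refine ⟨g, g.2, fun n hn => ?_⟩
    rw [hπ1v, ← hg (n, o) (Finset.mem_image_of_mem _ hn)]
    rfl
  refine ⟨⟨π1, hmem⟩, ?_⟩
  rintro ⟨n, t⟩
  obtain ⟨g, hg⟩ := hπ (insert (n, t) (Finset.univ.image fun j => (t.1 j, o)))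
  have e1 := hg (n, t) (Finset.mem_insert_self _ _)
  have e2 : ∀ j, (g : Equiv.Perm ℕ) (t.1 j) = π1 (t.1 j) := by
    intro j
    rw [hπ1v, ← hg (t.1 j, o) (Finset.mem_insert_of_mem
      (Finset.mem_image_of_mem _ (Finset.mem_univ j)))]
    rfl
  have e3 : (g : Equiv.Perm ℕ) n = π1 n := by
    rw [hπ1v, ← h1 n t, ← e1]; rfl
  rw [← e1, smul_pair, smul_pair, e3]
  refine Prod.ext rfl ?_
  apply Subtype.ext
  funext j
  exact (e2 j).symm

end

end Pool.Agent.Comb7f333f
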