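import Pool.Agent.Lib.MP_7f333f_an.Iso
import Pool.Agent.Lib.MP_7f333f_an.Mat
import Pool.Agent.Lib.MP_7f333f_an.Reduction

set_option autoImplicit false

/-!
The main theorem: the displayability, on every combinatorial space, of the closed groups of
permutations with a central involution which acts as `-1` in some finite-dimensional orthogonal
representation.
-/

namespace Pool.Agent.Comb7f333f

open Filter Topology

theorem mem_isomGroup {X : Type*} [AddCommGroup X] [Module ℝ X] (N : Seminorm ℝ X)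
    (T : X ≃ₗ[ℝ] X) : T ∈ isomGroup N ↔ ∀ x, N (T x) = N x := Iff.rfl

section Space

variable {𝓕 : Set (Finset ℕ)} {X : Type*} [NormedAddCommGroup X] [NormedSpace ℝ X]
  [CompleteSpace X] {e : ℕ → X} {G : Type*} [Group G]

/-- A representation by orthogonal matrices gives a representation on the space. -/
noncomputable def repX (h : IsRegular 𝓕) (hX : IsCombSpace 𝓕 e) {m : ℕ} (hm : 0 < m)
    (σ : G →* Matrix.orthogonalGroup (Fin m) ℝ) : G →* (X →ₗ[ℝ] X) where
  toFun g := (matX e (σ g : Matrix (Fin m) (Fin m) ℝ)).toLinearMap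
  map_one' := by
    ext x
    rw [map_one]
    exact matX_one h hX hm x
  map_mul' g g' := by
    ext x
    rw [map_mul]
    exact matX_mul h hX hm _ _ x

theorem entry_le {m : ℕ} (A : Matrix.orthogonalGroup (Fin m) ℝ) (r s : Fin m) :
    |(A : Matrix (Fin m) (Fin m) ℝ) r s| ≤ 1 := by
  rw [← Real.norm_eq_abs]
  exact entry_norm_bound_of_unitary A.2 r s

variable (h : IsRegular 𝓕) (hX : IsCombSpace 𝓕 e) {m : ℕ} (hm : 0 < m)
    (σ : G →* Matrix.orthogonalGroup (Fin m) ℝ)

theorem norm_repX_le (g : G) (x : X) : ‖repX h hX hm σ g x‖ ≤ (2 * m ^ 2 * 1) * ‖x‖ :=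
  norm_matX_le h hX _ 1 (entry_le (σ g)) x

theorem repX_bdd (x : X) : BddAbove (Set.range fun g => ‖repX h hX hm σ g x‖) :=
  ⟨_, by rintro _ ⟨g, rfl⟩; exact norm_repX_le h hX hm σ g x⟩

/-- The invariant norm. -/
noncomputable def invNorm : Seminorm ℝ X :=
  Seminorm.ofSMulLE (fun x => ⨆ g, ‖repX h hX hm σ g x‖) (by simp)
    (fun x y => ciSup_le fun g => by
      rw [map_add]
      exact (norm_add_le _ _).trans (add_le_add (le_ciSup (repX_bdd h hX hm σ x) g)
        (le_ciSup (repX_bdd h hX hm σ y) g)))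
    (fun c x => ciSup_le fun g => by
      rw [map_smul, norm_smul]
      exact mul_le_mul_of_nonneg_left (le_ciSup (repX_bdd h hX hm σ x) g) (norm_nonneg c))

theorem le_invNorm (x : X) : ‖x‖ ≤ invNorm h hX hm σ x := by
  have h1 := le_ciSup (repX_bdd h hX hm σ x) 1
  simp only [map_one] at h1
  exact h1

theorem invNorm_le (x : X) : invNorm h hX hm σ x ≤ (2 * m ^ 2 * 1) * ‖x‖ :=
  ciSup_le fun g => norm_repX_le h hX hm σ g x

theorem invNorm_rep (g : G) (x : X) :
    invNorm h hX hm σ (repX h hX hm σ g x) = invNorm h hX hm σ x := by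
  have h1 : ∀ (g : G) (x : X),
      invNorm h hX hm σ (repX h hX hm σ g x) ≤ invNorm h hX hm σ x := by
    intro g x
    refine ciSup_le fun k => ?_
    have h2 := le_ciSup (repX_bdd h hX hm σ x) (k * g)
    simp only [map_mul] at h2
    exact h2
  refine le_antisymm (h1 g x) ?_
  have h2 := h1 g⁻¹ (repX h hX hm σ g x)
  rwa [← Module.End.mul_apply, ← map_mul, inv_mul_cancel, map_one, Module.End.one_apply] at h2

omit [CompleteSpace X] in
theorem norm_basis_le (hX : IsCombSpace 𝓕 e) (n : ℕ) : ‖e n‖ ≤ 1 := by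
  classical
  have h1 := hX.norm_eq (Finsupp.single n 1)
  rw [Finsupp.linearCombination_single, one_smul] at h1
  rw [h1]
  refine combNorm_le _ zero_le_one fun F _ => ?_
  have h2 : ∀ k ∈ F, |(Finsupp.single n (1 : ℝ)) k| = if n = k then 1 else 0 := by
    intro k _
    rw [Finsupp.single_apply]
    split_ifs <;> simp
  rw [Finset.sum_congr rfl h2, Finset.sum_ite_eq]
  split_ifs <;> norm_num

end Space

section Main

variable {𝓕 : Set (Finset ℕ)} {X : Type*} [NormedAddCommGroup X] [NormedSpace ℝ X]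
  [CompleteSpace X] {e : ℕ → X}

theorem main (h : IsRegular 𝓕) (hX : IsCombSpace 𝓕 e)
    (G : Subgroup (Equiv.Perm ℕ)) (hG : IsClosedPerm G) (z : G) (hz : ∀ g, g * z = z * g)
    (hzz : z * z = 1) {m : ℕ} (hm : 0 < m) (σ : G →* Matrix.orthogonalGroup (Fin m) ℝ)
    (hσ : ∃ F : Finset ℕ, ∀ g : G, (∀ n ∈ F, (g : Equiv.Perm ℕ) n = n) → σ g = 1)
    (hσz : (σ z : Matrix (Fin m) (Fin m) ℝ) = -1) :
    ∃ N : Seminorm ℝ X, (∃ c C : ℝ, 0 < c ∧ ∀ x, c * ‖x‖ ≤ N x ∧ N x ≤ C * ‖x‖) ∧
      ∃ Φ : G ≃* isomGroup N,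
        (∀ x, ∀ ε > 0, ∃ F : Finset ℕ, ∀ g : G, (∀ n ∈ F, (g : Equiv.Perm ℕ) n = n) →
          N ((Φ g : X ≃ₗ[ℝ] X) x - x) < ε) ∧
        (∀ n, ∃ x, ∃ ε > 0, ∀ g : G, N ((Φ g : X ≃ₗ[ℝ] X) x - x) < ε →
          (g : Equiv.Perm ℕ) n = n) := by
  classical
  obtain ⟨F0, hF0⟩ := hσ
  set L : ℕ := F0.sup id + 1 with hL
  have hker0 : ∀ g : G, (∀ j : ℕ, j < L → (g : Equiv.Perm ℕ) j = j) → σ g = 1 := by
    intro g hg
    refine hF0 g fun n hn => hg n ?_
    have : n ≤ F0.sup id := Finset.le_sup (f := id) hn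
    omega
  have hker1 : ∀ (g : G) (p : ℕ × Orb G L), g • p = p → σ g = 1 := by
    intro g p hp
    obtain ⟨k, hk⟩ := stab_of_fix g p hp
    have h1 := hker0 _ hk
    rw [map_mul, map_mul, map_inv] at h1
    calc σ g = σ k * ((σ k)⁻¹ * σ g * σ k) * (σ k)⁻¹ := by group
      _ = 1 := by rw [h1]; group
  have hfree : ∀ p : ℕ × Orb G L, z • p ≠ p := by
    intro p hp
    have h1 := hker1 z p hp
    rw [h1] at hσz
    have h2 := congrFun (congrFun hσz ⟨0, hm⟩) ⟨0, hm⟩
    rw [Matrix.neg_apply] at h2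
    simp only [OneMemClass.coe_one, Matrix.one_apply_eq] at h2
    norm_num at h2
  set K : ℝ := 2 * m ^ 2 * 1 with hK
  have hK0 : 0 ≤ K := by positivity
  obtain ⟨x, hx⟩ := exists_surjective_nat (ℕ × Orb G L)
  let D : Data G (ℕ × Orb G L) X :=
    { z := z
      hz := hz
      hzz := hzz
      hfree := hfree
      hinf := inferInstance
      x := x
      hx := hx
      hclosed := closed_pair hG
      qZ := invNorm h hX hm σ
      qZ_def := fun y hy => by
        have h1 := le_invNorm h hX hm σ y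
        rw [hy] at h1
        exact norm_le_zero_iff.mp h1
      ρZ := repX h hX hm σ
      hρq := invNorm_rep h hX hm σ
      hρz := fun y => by
        show matX e (σ z : Matrix (Fin m) (Fin m) ℝ) y = -y
        rw [hσz]
        exact matX_neg_one h hX hm y
      hker := fun g p hp => by
        ext y
        show matX e (σ g : Matrix (Fin m) (Fin m) ℝ) y = y
        rw [hker1 g p hp]
        exact matX_one h hX hm y
      ζ := fun n => (del n / (K + 1)) • e n
      hζ := fun n => by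
        refine (invNorm_le h hX hm σ _).trans ?_
        rw [norm_smul, Real.norm_eq_abs, abs_of_pos (by have := del_pos n; positivity)]
        have h1 := norm_basis_le hX n
        have h2 := del_pos n
        have h3 : del n / (K + 1) * ‖e n‖ ≤ del n / (K + 1) :=
          mul_le_of_le_one_right (by positivity) h1
        have h4 : K * (del n / (K + 1)) ≤ del n := by
          rw [mul_div_assoc', div_le_iff₀ (by positivity)]
          nlinarith
        exact (mul_le_mul_of_nonneg_left h3 hK0).trans h4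
      hζd := fun y ε hε => by
        obtain ⟨a, ha⟩ := hX.dense.exists_dist_lt y (show (0 : ℝ) < ε / (K + 1) by positivity)
        refine ⟨Finsupp.linearCombination ℝ e a, ?_, ?_⟩
        · rw [Finsupp.linearCombination_apply]
          refine Submodule.sum_mem _ fun k _ => Submodule.smul_mem _ _ ?_
          have h1 : e k = (del k / (K + 1))⁻¹ • ((del k / (K + 1)) • e k) := by
            rw [smul_smul, inv_mul_cancel₀, one_smul]
            have := del_pos k
            positivity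
          rw [h1]
          exact Submodule.smul_mem _ _ (Submodule.subset_span ⟨k, rfl⟩)
        · refine lt_of_le_of_lt (invNorm_le h hX hm σ _) ?_
          rw [dist_eq_norm] at ha
          have h1 : K * ‖y - Finsupp.linearCombination ℝ e a‖ ≤ K * (ε / (K + 1)) :=
            mul_le_mul_of_nonneg_left ha.le hK0
          have h2 : K * (ε / (K + 1)) < ε := by
            rw [mul_div_assoc', div_lt_iff₀ (by positivity)]
            nlinarith
          exact lt_of_le_of_lt h1 h2 }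
  have hfreeI := D.freeI
  obtain ⟨Θ, C, hC, hΘ1, hΘ2⟩ := exists_iso (I := D.I) (z := D.z) h hX D.hzz hfreeI
  let N : Seminorm ℝ X := D.S.N.comp Θ.toLinearMap
  have hN : ∀ y, N y = D.S.N (Θ y) := fun _ => rfl
  -- the action
  let Ψ0 : G → (X ≃ₗ[ℝ] X) := fun g =>
    LinearEquiv.ofLinearMap (Θ.symm.toLinearMap.comp ((D.ρ g).comp Θ.toLinearMap))
      (Θ.symm.toLinearMap.comp ((D.ρ g⁻¹).comp Θ.toLinearMap))
      (by
        ext y
        show Θ.symm (D.ρ g (Θ (Θ.symm (D.ρ g⁻¹ (Θ y))))) = y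
        rw [Θ.apply_symm_apply, ← Module.End.mul_apply, ← map_mul, mul_inv_cancel, map_one,
          Module.End.one_apply, Θ.symm_apply_apply])
      (by
        ext y
        show Θ.symm (D.ρ g⁻¹ (Θ (Θ.symm (D.ρ g (Θ y))))) = y
        rw [Θ.apply_symm_apply, ← Module.End.mul_apply, ← map_mul, inv_mul_cancel, map_one,
          Module.End.one_apply, Θ.symm_apply_apply])
  have hΨ0 : ∀ g y, Ψ0 g y = Θ.symm (D.ρ g (Θ y)) := fun _ _ => rfl
  have hΘΨ : ∀ g y, Θ (Ψ0 g y) = D.ρ g (Θ y) := fun g y => by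
    rw [hΨ0, Θ.apply_symm_apply]
  let Ψ : G →* isomGroup N :=
    { toFun := fun g => ⟨Ψ0 g, fun y => by rw [hN, hN, hΘΨ, D.equivar.N_ρ]⟩
      map_one' := by
        apply Subtype.ext
        ext y
        show Θ.symm (D.ρ 1 (Θ y)) = y
        rw [map_one, Module.End.one_apply, Θ.symm_apply_apply]
      map_mul' := fun g g' => by
        apply Subtype.ext
        ext y
        show Θ.symm (D.ρ (g * g') (Θ y)) = Ψ0 g (Ψ0 g' y)
        rw [hΨ0, hΘΨ, map_mul, Module.End.mul_apply] }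
  have hΨ : ∀ g y, ((Ψ g : isomGroup N) : X ≃ₗ[ℝ] X) y = Θ.symm (D.ρ g (Θ y)) := fun _ _ => rfl
  have hfix : ∀ (g : G) (n : ℕ), g • ((n, Orb.base) : ℕ × Orb G L) = (n, Orb.base) →
      (g : Equiv.Perm ℕ) n = n := fun g n hg => congrArg Prod.fst hg
  have hinj : Function.Injective Ψ := by
    rw [injective_iff_map_eq_one]
    intro g hg
    apply Subtype.ext
    apply Equiv.ext
    intro n
    refine hfix g n (D.ρ_injective g (fun v => ?_) _)
    have h1 : Θ.symm (D.ρ g (Θ (Θ.symm v))) = Θ.symm v := by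
      rw [← hΨ, hg]; rfl
    rw [Θ.apply_symm_apply] at h1
    exact Θ.symm.injective h1
  have hsurj : Function.Surjective Ψ := by
    rintro ⟨T, hT⟩
    have hT' : ∀ y, N (T y) = N y := hT
    obtain ⟨g, hg⟩ := (D.isom_iff ((Θ.symm.trans T).trans Θ)).mp (fun v => by
      show D.S.N (Θ (T (Θ.symm v))) = D.S.N v
      rw [← hN, hT', hN, Θ.apply_symm_apply])
    refine ⟨g, Subtype.ext (LinearEquiv.ext fun y => ?_)⟩
    rw [hΨ, ← hg]
    show Θ.symm (Θ (T (Θ.symm (Θ y)))) = T y
    rw [Θ.symm_apply_apply, Θ.symm_apply_apply]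
  refine ⟨N, ⟨1 / (6 * C), (K + 1) * C, by positivity, fun y => ⟨?_, ?_⟩⟩,
    MulEquiv.ofBijective Ψ ⟨hinj, hsurj⟩, ?_, ?_⟩
  · have h1 := hΘ2 y
    have h2 : ‖(Θ y).1‖ ≤ D.q (Θ y) :=
      (le_invNorm h hX hm σ _).trans (le_max_left _ _)
    have h3 : supC D.I D.z (Θ y).2 ≤ D.q (Θ y) := le_max_right _ _
    have h4 : D.q (Θ y) ≤ 3 * N y := D.S.q_le (Θ y)
    rw [div_mul_eq_mul_div, div_le_iff₀ (by positivity), one_mul]
    calc ‖y‖ ≤ C * (‖(Θ y).1‖ + supC D.I D.z (Θ y).2) := h1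
      _ ≤ C * (3 * N y + 3 * N y) :=
          mul_le_mul_of_nonneg_left (add_le_add (h2.trans h4) (h3.trans h4)) hC.le
      _ = N y * (6 * C) := by ring
  · have h0 := norm_nonneg y
    refine (D.S.N_le (Θ y)).trans ?_
    show max (invNorm h hX hm σ (Θ y).1) (supC D.I D.z (Θ y).2) ≤ _
    obtain ⟨h1, h2⟩ := hΘ1 y
    refine max_le ?_ ?_
    · refine (invNorm_le h hX hm σ _).trans ?_
      have h3 : K * ‖(Θ y).1‖ ≤ K * (C * ‖y‖) := mul_le_mul_of_nonneg_left h1 hK0
      have h4 : 0 ≤ C * ‖y‖ := mul_nonneg hC.le h0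
      linarith
    · have h4 : 0 ≤ K * (C * ‖y‖) := mul_nonneg hK0 (mul_nonneg hC.le h0)
      linarith
  · intro y ε hε
    obtain ⟨F', hF'⟩ := D.cont (Θ y) ε hε
    refine ⟨F'.biUnion fun p => insert p.1 (Finset.univ.image p.2.1), fun g hg => ?_⟩
    have h1 : ∀ p ∈ F', g • p = p := by
      rintro ⟨n, t⟩ hp
      have e1 : (g : Equiv.Perm ℕ) n = n := hg n (Finset.mem_biUnion.mpr
        ⟨(n, t), hp, Finset.mem_insert_self _ _⟩)
      have e2 : ∀ j, (g : Equiv.Perm ℕ) (t.1 j) = t.1 j := fun j =>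
        hg _ (Finset.mem_biUnion.mpr ⟨(n, t), hp, Finset.mem_insert_of_mem
          (Finset.mem_image_of_mem _ (Finset.mem_univ j))⟩)
      rw [smul_pair, e1]
      refine Prod.ext rfl (Subtype.ext (funext fun j => e2 j))
    have h2 := hF' g h1
    show D.S.N (Θ (Ψ0 g y - y)) < ε
    rw [map_sub, hΘΨ]
    exact h2
  · intro n
    refine ⟨Θ.symm (D.S.aP (n, Orb.base)), 1 / 25, by norm_num, fun g hg => ?_⟩
    refine hfix g n (D.equivar.fixes_of_close g _ ?_)
    have h2 : D.S.N (Θ (Ψ0 g (Θ.symm (D.S.aP (n, Orb.base))) -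
        Θ.symm (D.S.aP (n, Orb.base)))) < 1 / 25 := hg
    rw [map_sub, hΘΨ, Θ.apply_symm_apply] at h2
    exact h2

end Main

end Pool.Agent.Comb7f333f
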