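import Mathlib

set_option autoImplicit false

/-!
Regular families, combinatorial Banach spaces, closed groups of permutations, isometry groups.
-/

namespace Pool.Agent.Comb7f333f

/-- Regular families of finite subsets of `ℕ` which contain all the singletons: hereditary,
spreading, and compact as a set of points of the Cantor space `{0,1}^ℕ`. -/
structure IsRegular (𝓕 : Set (Finset ℕ)) : Prop where
  hereditary : ∀ F ∈ 𝓕, ∀ F', F' ⊆ F → F' ∈ 𝓕
  spreading : ∀ (n : ℕ) (l k : Fin n → ℕ), StrictMono l → StrictMono k → (∀ i, l i ≤ k i) →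
    Finset.univ.image l ∈ 𝓕 → Finset.univ.image k ∈ 𝓕
  compact : IsCompact {c : ℕ → Bool | ∃ F ∈ 𝓕, ∀ n, c n = decide (n ∈ F)}
  singleton : ∀ n, {n} ∈ 𝓕

/-- The norm of the combinatorial space of `𝓕` on the finitely supported sequences: the supremum
of the sums of `|a k|` over the sets `F` of the family. -/
noncomputable def combNorm (𝓕 : Set (Finset ℕ)) (a : ℕ →₀ ℝ) : ℝ :=
  sSup {r | ∃ F ∈ 𝓕, r = ∑ k ∈ F, |a k|}

/-- `X`, with the sequence `e`, is the combinatorial Banach space of `𝓕`: the finite linear
combinations of the `e k` are dense and their norms are given by the family. (The completeness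
of `X` is a separate assumption.) -/
structure IsCombSpace (𝓕 : Set (Finset ℕ)) {X : Type*} [NormedAddCommGroup X]
    [NormedSpace ℝ X] (e : ℕ → X) : Prop where
  norm_eq : ∀ a : ℕ →₀ ℝ, ‖Finsupp.linearCombination ℝ e a‖ = combNorm 𝓕 a
  dense : DenseRange (Finsupp.linearCombination ℝ e)

/-- A subgroup of `SYM(ℕ)` is closed (for the topology of pointwise convergence): it contains
every permutation which agrees on each finite set with some element of the subgroup. -/
def IsClosedPerm (G : Subgroup (Equiv.Perm ℕ)) : Prop :=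
  ∀ π : Equiv.Perm ℕ, (∀ F : Finset ℕ, ∃ g ∈ G, ∀ n ∈ F, g n = π n) → π ∈ G

/-- The group of the linear bijections of `X` which preserve the seminorm `N`. -/
def isomGroup {X : Type*} [AddCommGroup X] [Module ℝ X] (N : Seminorm ℝ X) :
    Subgroup (X ≃ₗ[ℝ] X) where
  carrier := {T | ∀ x, N (T x) = N x}
  mul_mem' {S T} hS hT x := by
    show N (S (T x)) = N x
    rw [hS, hT]
  one_mem' _ := rfl
  inv_mem' {T} hT x := by
    show N (T.symm x) = N x
    rw [← hT (T.symm x), LinearEquiv.apply_symm_apply]

end Pool.Agent.Comb7f333f
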