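import Pool.Agent.Lib.MP_7f333f_an.Rigid

set_option autoImplicit false

/-!
Group actions on systems of spikes: the isometries of the spike norm are exactly the elements of
the group, if the group is closed.
-/

namespace Pool.Agent.Comb7f333f

section Map

variable {V : Type*} [AddCommGroup V] [Module ℝ V] (q : Seminorm ℝ V) {ι : Type*} (s : ι → V)

theorem spikeNorm_map_le (ρ : V →ₗ[ℝ] V) (hq : ∀ x, q (ρ x) ≤ q x) (e : ι → ι)
    (he : Function.Injective e) (hs : ∀ i, ρ (s i) = s (e i)) (x : V) :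
    spikeNorm q s (ρ x) ≤ spikeNorm q s x := by
  refine le_of_forall_pos_le_add fun ε hε => ?_
  obtain ⟨l, hl⟩ := exists_val_lt' q s x ε hε
  have h1 := spikeNorm_le_val q s (ρ x) (Finsupp.mapDomain e l)
  have h2 : Finsupp.linearCombination ℝ s (Finsupp.mapDomain e l) =
      ρ (Finsupp.linearCombination ℝ s l) := by
    rw [Finsupp.linearCombination_mapDomain, Finsupp.linearCombination_apply,
      Finsupp.linearCombination_apply, map_finsuppSum]
    refine Finset.sum_congr rfl fun i _ => ?_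
    show l i • s (e i) = ρ (l i • s i)
    rw [map_smul, hs]
  have h3 : l1 (Finsupp.mapDomain e l) = l1 l := by
    unfold l1
    rw [Finsupp.sum_mapDomain_index_inj he]
  unfold spikeVal at hl h1
  rw [h2, h3, ← map_sub] at h1
  have h4 := hq (x - Finsupp.linearCombination ℝ s l)
  linarith

end Map

/-- An action of a group on a system of spikes. -/
structure Equivar {V : Type*} [AddCommGroup V] [Module ℝ V] {P Q : Type*}
    (S : SpikeSystem V P Q) (G : Type*) [Group G] [MulAction G P] [MulAction G Q]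
    (ρ : G →* (V →ₗ[ℝ] V)) : Prop where
  q_ρ : ∀ g x, S.q (ρ g x) = S.q x
  ρ_aP : ∀ g p, ρ g (S.aP p) = S.aP (g • p)
  ρ_aQ : ∀ (g : G) (t : Q), ρ g (S.aQ t) = S.aQ (g • t)
  ρ_zeta : ∀ (g : G) (t : Q), ρ g (S.zeta t) = S.zeta (g • t)
  len_smul : ∀ (g : G) (t : Q), S.len (g • t) = S.len t
  tup_smul : ∀ (g : G) (t : Q), ∀ j ≤ S.len t, S.tup (g • t) j = g • S.tup t j

namespace Equivar

variable {V : Type*} [AddCommGroup V] [Module ℝ V] {P Q : Type*}
  {S : SpikeSystem V P Q} {G : Type*} [Group G] [MulAction G P] [MulAction G Q]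
  {ρ : G →* (V →ₗ[ℝ] V)} (E : Equivar S G ρ)

include E

theorem ρ_w (g : G) (t : Q) : ρ g (S.w t) = S.w (g • t) := by
  unfold SpikeSystem.w
  rw [map_add, map_sum, E.ρ_zeta, E.len_smul]
  congr 1
  refine Finset.sum_congr rfl fun j hj => ?_
  rw [map_smul, E.ρ_aP, E.tup_smul g t j (by simpa [Nat.lt_succ_iff] using hj)]

theorem ρ_v (g : G) (t : Q) : ρ g (S.v t) = S.v (g • t) := by
  unfold SpikeSystem.v
  rw [map_add, map_smul, E.ρ_aQ, E.ρ_w, E.len_smul]

theorem N_ρ_le (g : G) (x : V) : S.N (ρ g x) ≤ S.N x := by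
  refine spikeNorm_map_le S.q S.spk (ρ g) (fun x => (E.q_ρ g x).le)
    (fun i => match i with
      | .pt p => .pt (g • p)
      | .tA t => .tA (g • t)
      | .tV t => .tV (g • t)) ?_ ?_ x
  · intro i j hij
    cases i <;> cases j <;> simp_all
  · intro i
    cases i with
    | pt p => exact E.ρ_aP g p
    | tA t => exact E.ρ_aQ g t
    | tV t => exact E.ρ_v g t

theorem N_ρ (g : G) (x : V) : S.N (ρ g x) = S.N x := by
  refine le_antisymm (E.N_ρ_le g x) ?_
  have h := E.N_ρ_le g⁻¹ (ρ g x)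
  rwa [← Module.End.mul_apply, ← map_mul, inv_mul_cancel, map_one, Module.End.one_apply] at h

/-- Every isometry of the new norm is the action of an element of the group. -/
theorem eq_of_isom
    (hext : ∀ t t', S.len t = S.len t' → (∀ j ≤ S.len t, S.tup t j = S.tup t' j) → t = t')
    (hcod : ∀ π : Equiv.Perm P, (∀ t, ∃ t', S.len t' = S.len t ∧
      ∀ j ≤ S.len t, S.tup t' j = π (S.tup t j)) → ∃ g : G, ∀ p, π p = g • p)
    (hdense : ∀ x : V, ∀ ε > 0, ∃ y ∈ Submodule.span ℝ
      (Set.range S.aP ∪ Set.range S.aQ ∪ Set.range S.zeta), S.q (x - y) < ε)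
    (T : V ≃ₗ[ℝ] V) (hT : ∀ x, S.N (T x) = S.N x) : ∃ g : G, ∀ x, T x = ρ g x := by
  obtain ⟨π, τ, hπ, hτ⟩ := S.structure_isom T hT
  obtain ⟨π', τ', hπ', hτ'⟩ := S.structure_isom T.symm (S.symm_isom T hT)
  have hinj : ∀ p p', S.aP p = S.aP p' → p = p' := by
    intro p p' h
    have h1 := S.spk_injective (a₁ := .pt p) (a₂ := .pt p') h
    injection h1
  have hl : ∀ p, π' (π p) = p := by
    intro p
    apply hinj
    rw [← hπ', ← hπ, LinearEquiv.symm_apply_apply]
  have hr : ∀ p, π (π' p) = p := by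
    intro p
    apply hinj
    rw [← hπ, ← hπ', LinearEquiv.apply_symm_apply]
  obtain ⟨g, hg⟩ := hcod ⟨π, π', hl, hr⟩ fun t => ⟨τ t, (hτ t).2.1, (hτ t).2.2.1⟩
  change ∀ p, π p = g • p at hg
  refine ⟨g, ?_⟩
  have hτg : ∀ t, τ t = g • t := by
    intro t
    refine hext _ _ (by rw [(hτ t).2.1, E.len_smul]) fun j hj => ?_
    rw [(hτ t).2.1] at hj
    rw [(hτ t).2.2.1 j hj, E.tup_smul g t j hj, hg]
  have hspan : ∀ y ∈ Submodule.span ℝ
      (Set.range S.aP ∪ Set.range S.aQ ∪ Set.range S.zeta), T y = ρ g y := by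
    intro y hy
    induction hy using Submodule.span_induction with
    | mem y hy =>
      rcases hy with (⟨p, rfl⟩ | ⟨t, rfl⟩) | ⟨t, rfl⟩
      · rw [hπ, E.ρ_aP, hg]
      · rw [(hτ t).1, E.ρ_aQ, hτg]
      · rw [(hτ t).2.2.2, E.ρ_zeta, hτg]
    | zero => simp
    | add a b _ _ ha hb => rw [map_add, map_add, ha, hb]
    | smul c a _ ha => rw [map_smul, map_smul, ha]
  intro x
  have h0 : S.N (T x - ρ g x) = 0 := by
    refine le_antisymm (le_of_forall_pos_le_add fun ε hε => ?_) (apply_nonneg _ _)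
    obtain ⟨y, hy, hxy⟩ := hdense x (ε / 2) (by positivity)
    have h1 : T x - ρ g x = T (x - y) - ρ g (x - y) := by
      rw [map_sub, map_sub, hspan y hy]; abel
    rw [h1, zero_add]
    refine (map_sub_le_add _ _ _).trans ?_
    rw [hT, E.N_ρ]
    have := S.N_le (x - y)
    linarith
  exact sub_eq_zero.mp (S.N_def _ h0)

/-- The action on the new space is continuous. -/
theorem continuous_at_one
    (hext : ∀ t t', S.len t = S.len t' → (∀ j ≤ S.len t, S.tup t j = S.tup t' j) → t = t')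
    (hdense : ∀ x : V, ∀ ε > 0, ∃ y ∈ Submodule.span ℝ
      (Set.range S.aP ∪ Set.range S.aQ ∪ Set.range S.zeta), S.q (x - y) < ε)
    (x : V) (ε : ℝ) (hε : 0 < ε) :
    ∃ F : Finset P, ∀ g : G, (∀ p ∈ F, g • p = p) → S.N (ρ g x - x) < ε := by
  classical
  have hQ : ∀ t : Q, ∃ F : Finset P, ∀ g : G, (∀ p ∈ F, g • p = p) → g • t = t := by
    intro t
    refine ⟨(Finset.range (S.len t + 1)).image (S.tup t), fun g hg => ?_⟩
    refine hext _ _ (E.len_smul g t) fun j hj => ?_
    rw [E.len_smul] at hj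
    rw [E.tup_smul g t j hj]
    exact hg _ (Finset.mem_image_of_mem _ (by simpa [Nat.lt_succ_iff] using hj))
  have hspan : ∀ y ∈ Submodule.span ℝ
      (Set.range S.aP ∪ Set.range S.aQ ∪ Set.range S.zeta), ∃ F : Finset P,
      ∀ g : G, (∀ p ∈ F, g • p = p) → ρ g y = y := by
    intro y hy
    induction hy using Submodule.span_induction with
    | mem y hy =>
      rcases hy with (⟨p, rfl⟩ | ⟨t, rfl⟩) | ⟨t, rfl⟩
      · exact ⟨{p}, fun g hg => by rw [E.ρ_aP, hg p (by simp)]⟩
      · obtain ⟨F, hF⟩ := hQ t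
        exact ⟨F, fun g hg => by rw [E.ρ_aQ, hF g hg]⟩
      · obtain ⟨F, hF⟩ := hQ t
        exact ⟨F, fun g hg => by rw [E.ρ_zeta, hF g hg]⟩
    | zero => exact ⟨∅, fun g _ => by simp⟩
    | add a b _ _ ha hb =>
      obtain ⟨F, hF⟩ := ha
      obtain ⟨F', hF'⟩ := hb
      exact ⟨F ∪ F', fun g hg => by
        rw [map_add, hF g fun p hp => hg p (Finset.mem_union_left _ hp),
          hF' g fun p hp => hg p (Finset.mem_union_right _ hp)]⟩
    | smul c a _ ha =>
      obtain ⟨F, hF⟩ := ha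
      exact ⟨F, fun g hg => by rw [map_smul, hF g hg]⟩
  obtain ⟨y, hy, hxy⟩ := hdense x (ε / 2) (by positivity)
  obtain ⟨F, hF⟩ := hspan y hy
  refine ⟨F, fun g hg => ?_⟩
  have h1 : ρ g x - x = ρ g (x - y) - (x - y) := by
    rw [map_sub, hF g hg]; abel
  rw [h1]
  refine (map_sub_le_add _ _ _).trans_lt ?_
  rw [E.N_ρ]
  have := S.N_le (x - y)
  linarith

/-- The inverse of the action is continuous. -/
theorem fixes_of_close (g : G) (p : P) (h : S.N (ρ g (S.aP p) - S.aP p) < 1 / 25) :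
    g • p = p := by
  by_contra hne
  have h1 := S.N_sep (.pt (g • p)) (.pt p) (by
    intro h'
    injection h' with h'
    exact hne h')
  rw [E.ρ_aP] at h
  exact absurd h (not_lt.mpr h1)

end Equivar

end Pool.Agent.Comb7f333f
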