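import Pool.Agent.Lib.MP_7f333f_an.Equivar

set_option autoImplicit false

/-!
The concrete system of spikes of a group action with a central involution, on the product of
a space with the space of odd null families.
-/

namespace Pool.Agent.Comb7f333f

open Filter Topology

section Odd

variable {G : Type*} [Group G] {I : Type*} [MulAction G I]

/-- The odd families indexed by `I` which tend to zero. -/
def oddC0 (I : Type*) [MulAction G I] (z : G) : Submodule ℝ (I → ℝ) where
  carrier := {f | Tendsto f cofinite (𝓝 0) ∧ ∀ i, f (z • i) = - f i}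
  add_mem' := by
    rintro f g ⟨hf, hf'⟩ ⟨hg, hg'⟩
    refine ⟨by have h := hf.add hg; rw [add_zero] at h; exact h, fun i => ?_⟩
    simp only [Pi.add_apply, hf', hg']; ring
  zero_mem' := ⟨tendsto_const_nhds, fun i => by simp⟩
  smul_mem' := by
    rintro c f ⟨hf, hf'⟩
    refine ⟨by have h := hf.const_smul c; rw [smul_zero] at h; exact h, fun i => ?_⟩
    simp only [Pi.smul_apply, hf', smul_eq_mul]; ring

variable {z : G}

theorem oddC0_bdd (f : oddC0 I z) : BddAbove (Set.range fun i => |f.1 i|) := by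
  have h : Tendsto (fun i => |f.1 i|) cofinite (𝓝 0) := by simpa using f.2.1.abs
  exact h.bddAbove_range_of_cofinite

/-- The supremum norm. -/
noncomputable def supC (I : Type*) [MulAction G I] (z : G) : Seminorm ℝ (oddC0 I z) :=
  Seminorm.ofSMulLE (fun f => ⨆ i, |f.1 i|) (by simp)
    (fun f g => Real.iSup_le (fun i => (abs_add_le _ _).trans
      (add_le_add (le_ciSup (oddC0_bdd f) i) (le_ciSup (oddC0_bdd g) i)))
      (add_nonneg (Real.iSup_nonneg fun i => abs_nonneg _)
        (Real.iSup_nonneg fun i => abs_nonneg _)))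
    (fun c f => Real.iSup_le (fun i => by
        show |c * f.1 i| ≤ _
        rw [abs_mul, Real.norm_eq_abs]
        exact mul_le_mul_of_nonneg_left (le_ciSup (oddC0_bdd f) i) (abs_nonneg c))
      (mul_nonneg (norm_nonneg c) (Real.iSup_nonneg fun i => abs_nonneg _)))

theorem le_supC (f : oddC0 I z) (i : I) : |f.1 i| ≤ supC I z f := le_ciSup (oddC0_bdd f) i

theorem supC_le (f : oddC0 I z) (c : ℝ) (hc : 0 ≤ c) (h : ∀ i, |f.1 i| ≤ c) :
    supC I z f ≤ c := Real.iSup_le h hc

open Classical in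
/-- The odd function with value `2` at `i`. -/
noncomputable def bmpFun (z : G) (i j : I) : ℝ := (if j = i then 2 else 0) - (if j = z • i then 2 else 0)

theorem tendsto_cofinite_of_support {I : Type*} (f : I → ℝ) (s : Set I) (hs : s.Finite)
    (h : ∀ i ∉ s, f i = 0) : Tendsto f cofinite (𝓝 0) := by
  refine tendsto_nhds_of_eventually_eq ?_
  exact hs.subset fun i hi => by
    by_contra h'
    exact hi (h i h')

/-- The bump at `i`. -/
noncomputable def bmp (z : G) (hzz : z * z = 1) (i : I) : oddC0 I z :=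
  ⟨bmpFun z i, tendsto_cofinite_of_support _ {i, z • i} (by simp) (by
    intro j hj
    simp only [Set.mem_insert_iff, Set.mem_singleton_iff, not_or] at hj
    simp [bmpFun, hj.1, hj.2]), by
    intro j
    have h1 : (z • j = i) ↔ (j = z • i) := by
      constructor
      · rintro rfl; rw [smul_smul, hzz, one_smul]
      · rintro rfl; rw [smul_smul, hzz, one_smul]
    have h2 : (z • j = z • i) ↔ j = i := by simp
    classical
    simp only [bmpFun, h1, h2]
    ring⟩

variable (hzz : z * z = 1)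

theorem bmp_self (hfree : ∀ i : I, z • i ≠ i) (i : I) : (bmp z hzz i).1 i = 2 := by
  simp [bmp, bmpFun, (hfree i).symm]

theorem bmp_ne (i j : I) (h1 : j ≠ i) (h2 : j ≠ z • i) : (bmp z hzz i).1 j = 0 := by
  simp [bmp, bmpFun, h1, h2]

theorem bmp_z (i : I) : bmp z hzz (z • i) = - bmp z hzz i := by
  apply Subtype.ext
  funext j
  show bmpFun z (z • i) j = - bmpFun z i j
  have h : z • z • i = i := by rw [smul_smul, hzz, one_smul]
  classical
  simp only [bmpFun, h]
  ring

theorem abs_bmp_le (hfree : ∀ i : I, z • i ≠ i) (i j : I) : |(bmp z hzz i).1 j| ≤ 2 := by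
  by_cases h1 : j = i
  · rw [h1, bmp_self hzz hfree]; norm_num
  by_cases h2 : j = z • i
  · rw [h2, (bmp z hzz i).2.2 i, bmp_self hzz hfree]; norm_num
  · rw [bmp_ne hzz i j h1 h2]; norm_num

theorem supC_bmp_le (hfree : ∀ i : I, z • i ≠ i) (i : I) : supC I z (bmp z hzz i) ≤ 2 :=
  supC_le _ _ (by norm_num) (abs_bmp_le hzz hfree i)

/-- The action of the group on the odd families. -/
def actC (hz : ∀ g, g * z = z * g) : G →* (oddC0 I z →ₗ[ℝ] oddC0 I z) where
  toFun g :=
    { toFun := fun f => ⟨fun i => f.1 (g⁻¹ • i), by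
        refine ⟨f.2.1.comp (MulAction.injective g⁻¹).tendsto_cofinite, fun i => ?_⟩
        show f.1 (g⁻¹ • z • i) = - f.1 (g⁻¹ • i)
        rw [smul_smul, hz g⁻¹, ← smul_smul, f.2.2]⟩
      map_add' := fun f f' => rfl
      map_smul' := fun c f => rfl }
  map_one' := by
    ext f i
    show f.1 ((1 : G)⁻¹ • i) = f.1 i
    simp
  map_mul' g h := by
    ext f i
    show f.1 ((g * h)⁻¹ • i) = f.1 (h⁻¹ • g⁻¹ • i)
    rw [mul_inv_rev, smul_smul]

theorem actC_apply (hz : ∀ g, g * z = z * g) (g : G) (f : oddC0 I z) (i : I) :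
    (actC hz g f).1 i = f.1 (g⁻¹ • i) := rfl

theorem actC_bmp (hz : ∀ g, g * z = z * g) (g : G) (i : I) :
    actC hz g (bmp z hzz i) = bmp z hzz (g • i) := by
  apply Subtype.ext
  funext j
  show bmpFun z i (g⁻¹ • j) = bmpFun z (g • i) j
  have h1 : (g⁻¹ • j = i) ↔ (j = g • i) := by rw [inv_smul_eq_iff]
  have h2 : (g⁻¹ • j = z • i) ↔ (j = z • g • i) := by
    rw [inv_smul_eq_iff, smul_smul, smul_smul, hz]
  classical
  simp only [bmpFun, h1, h2]

theorem supC_actC (hz : ∀ g, g * z = z * g) (g : G) (f : oddC0 I z) :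
    supC I z (actC hz g f) = supC I z f := by
  have h : ∀ (g : G) (f : oddC0 I z), supC I z (actC hz g f) ≤ supC I z f := fun g f =>
    supC_le _ _ (apply_nonneg _ _) fun i => le_supC f _
  refine le_antisymm (h g f) ?_
  have h2 := h g⁻¹ (actC hz g f)
  rwa [← Module.End.mul_apply, ← map_mul, inv_mul_cancel, map_one, Module.End.one_apply] at h2

/-- Finite combinations of bumps are dense. -/
theorem bmp_dense (hfree : ∀ i : I, z • i ≠ i) (f : oddC0 I z) (ε : ℝ) (hε : 0 < ε) :
    ∃ y ∈ Submodule.span ℝ (Set.range (bmp (I := I) z hzz)), supC I z (f - y) < ε := by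
  classical
  have hfin : {i | ε / 2 ≤ |f.1 i|}.Finite := by
    have h := f.2.1.abs
    rw [abs_zero] at h
    have h2 := h.eventually (gt_mem_nhds (show (0 : ℝ) < ε / 2 by positivity))
    have h3 : {i | ¬ (|f.1 i| < ε / 2)}.Finite := h2
    exact h3.subset fun i hi => not_lt.mpr hi
  set s := hfin.toFinset with hs
  have hmem : ∀ i, i ∈ s ↔ ε / 2 ≤ |f.1 i| := fun i => by simp [hs]
  have hzs : ∀ i, z • i ∈ s ↔ i ∈ s := fun i => by rw [hmem, hmem, f.2.2, abs_neg]
  refine ⟨∑ i ∈ s, (f.1 i / 4) • bmp z hzz i, Submodule.sum_mem _ fun i _ =>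
    Submodule.smul_mem _ _ (Submodule.subset_span ⟨i, rfl⟩), ?_⟩
  have hval : ∀ j, (∑ i ∈ s, (f.1 i / 4) • bmp z hzz i).1 j = if j ∈ s then f.1 j else 0 := by
    intro j
    have h1 : (∑ i ∈ s, (f.1 i / 4) • bmp z hzz i).1 j =
        ∑ i ∈ s, (f.1 i / 4) * bmpFun z i j := by
      rw [Submodule.coe_sum, Finset.sum_apply]
      rfl
    rw [h1]
    have h2 : ∀ i, (f.1 i / 4) * bmpFun z i j =
        (if i = j then f.1 j / 2 else 0) + (if i = z • j then f.1 j / 2 else 0) := by
      intro i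
      have e1 : (j = i) ↔ (i = j) := eq_comm
      have e2 : (j = z • i) ↔ (i = z • j) := by
        constructor
        · rintro rfl; rw [smul_smul, hzz, one_smul]
        · rintro rfl; rw [smul_smul, hzz, one_smul]
      unfold bmpFun
      simp only [e1, e2]
      by_cases h3 : i = j
      · subst h3
        by_cases h4 : i = z • i
        · exact absurd h4.symm (hfree i)
        · simp [h4]; ring
      · by_cases h4 : i = z • j
        · subst h4
          simp [h3, f.2.2]; ring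
        · simp [h3, h4]
    rw [Finset.sum_congr rfl fun i _ => h2 i, Finset.sum_add_distrib, Finset.sum_ite_eq',
      Finset.sum_ite_eq']
    simp only [hzs]
    split_ifs <;> ring
  refine lt_of_le_of_lt (supC_le _ (ε / 2) (by positivity) fun j => ?_) (by linarith)
  show |f.1 j - (∑ i ∈ s, (f.1 i / 4) • bmp z hzz i).1 j| ≤ ε / 2
  rw [hval]
  split_ifs with h
  · simp; positivity
  · rw [sub_zero]
    rw [hmem, not_le] at h
    exact h.le

end Odd

/-! ### Tuples -/

section Tuples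

variable {G : Type*} [Group G] {P : Type*} [MulAction G P]

/-- The tuples in the orbits of the initial tuples of the sequence `x`. -/
def Tup (G : Type*) [Group G] {P : Type*} [MulAction G P] (x : ℕ → P) : Type _ :=
  Σ n : ℕ, {t : Fin (n + 1) → P // ∃ g : G, ∀ j, t j = g • x j}

variable {x : ℕ → P}

instance : MulAction G (Tup G x) where
  smul g t := ⟨t.1, ⟨fun j => g • t.2.1 j, by
    obtain ⟨h, hh⟩ := t.2.2
    refine ⟨g * h, fun j => ?_⟩
    rw [mul_smul]
    exact congrArg (g • ·) (hh j)⟩⟩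
  one_smul := by
    rintro ⟨n, t, ht⟩
    show (⟨n, ⟨fun j => (1 : G) • t j, _⟩⟩ : Tup G x) = ⟨n, t, ht⟩
    simp
  mul_smul := by
    rintro g h ⟨n, t, ht⟩
    show (⟨n, ⟨fun j => (g * h) • t j, _⟩⟩ : Tup G x) = ⟨n, ⟨fun j => g • h • t j, _⟩⟩
    simp [mul_smul]

/-- The length minus one. -/
def Tup.len (t : Tup G x) : ℕ := t.1

/-- The entries of a tuple. -/
def Tup.ent (t : Tup G x) (j : ℕ) : P := t.2.1 ⟨min j t.1, by omega⟩

theorem Tup.len_smul (g : G) (t : Tup G x) : (g • t).len = t.len := rfl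

theorem Tup.ent_smul (g : G) (t : Tup G x) (j : ℕ) : (g • t).ent j = g • t.ent j := rfl

theorem Tup.ext' (t t' : Tup G x) (h : t.len = t'.len) (h2 : ∀ j ≤ t.len, t.ent j = t'.ent j) :
    t = t' := by
  obtain ⟨n, t, ht⟩ := t
  obtain ⟨n', t', ht'⟩ := t'
  simp only [Tup.len] at h h2
  subst h
  congr 2
  funext j
  have h3 := h2 j (by omega)
  simp only [Tup.ent] at h3
  have h4 : (⟨min (j : ℕ) n, by omega⟩ : Fin (n + 1)) = j := by
    apply Fin.ext
    show min (j : ℕ) n = j
    omega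
  rw [h4] at h3
  exact h3

theorem Tup.exists_elt (t : Tup G x) : ∃ g : G, ∀ j ≤ t.len, t.ent j = g • x j := by
  obtain ⟨n, t, g, hg⟩ := t
  refine ⟨g, fun j hj => ?_⟩
  have h := hg ⟨min j n, by omega⟩
  simp only [Tup.ent, Tup.len] at hj ⊢
  rw [h]
  simp [min_eq_left hj]

/-- The initial tuple of the sequence. -/
def Tup.base (G : Type*) [Group G] {P : Type*} [MulAction G P] (x : ℕ → P) (n : ℕ) : Tup G x :=
  ⟨n, ⟨fun j => x j, 1, fun j => by simp⟩⟩

theorem Tup.base_len (n : ℕ) : (Tup.base G x n).len = n := rfl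

theorem Tup.base_ent (n j : ℕ) (h : j ≤ n) : (Tup.base G x n).ent j = x j := by
  simp [Tup.ent, Tup.base, min_eq_left h]

theorem Tup.free (z : G) (hfree : ∀ p : P, z • p ≠ p) (t : Tup G x) : z • t ≠ t := by
  intro h
  apply hfree (t.ent 0)
  rw [← Tup.ent_smul, h]

instance [Countable P] : Countable (Tup G x) := by
  unfold Tup
  infer_instance

end Tuples

/-! ### The system -/

section System

variable {G : Type*} [Group G] {P : Type*} [MulAction G P] (z : G) (hz : ∀ g, g * z = z * g)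
  (hzz : z * z = 1) (hfree : ∀ p : P, z • p ≠ p) (x : ℕ → P)
  {X : Type*} [AddCommGroup X] [Module ℝ X] (qZ : Seminorm ℝ X) (ρZ : G →* (X →ₗ[ℝ] X))

/-- The data needed for the construction. -/
structure Data (G : Type*) [Group G] (P : Type*) [MulAction G P] (X : Type*) [AddCommGroup X]
    [Module ℝ X] where
  z : G
  hz : ∀ g, g * z = z * g
  hzz : z * z = 1
  hfree : ∀ p : P, z • p ≠ p
  hinf : Infinite P
  x : ℕ → P
  hx : Function.Surjective x
  hclosed : ∀ π : Equiv.Perm P, (∀ F : Finset P, ∃ g : G, ∀ p ∈ F, g • p = π p) →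
    ∃ g : G, ∀ p, g • p = π p
  qZ : Seminorm ℝ X
  qZ_def : ∀ y, qZ y = 0 → y = 0
  ρZ : G →* (X →ₗ[ℝ] X)
  hρq : ∀ g y, qZ (ρZ g y) = qZ y
  hρz : ∀ y, ρZ z y = - y
  hker : ∀ g (p : P), g • p = p → ρZ g = 1
  ζ : ℕ → X
  hζ : ∀ n, qZ (ζ n) ≤ del n
  hζd : ∀ y : X, ∀ ε > 0, ∃ y' ∈ Submodule.span ℝ (Set.range ζ), qZ (y - y') < ε

namespace Data

variable {G : Type*} [Group G] {P : Type*} [MulAction G P] {X : Type*} [AddCommGroup X]
    [Module ℝ X] (D : Data G P X)

/-- The index set of the coordinates. -/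
abbrev I : Type _ := P ⊕ Tup G D.x

theorem freeI (i : D.I) : D.z • i ≠ i := by
  cases i with
  | inl p =>
    intro h
    rw [Sum.smul_inl] at h
    exact D.hfree p (Sum.inl_injective h)
  | inr t =>
    intro h
    rw [Sum.smul_inr] at h
    exact Tup.free D.z D.hfree t (Sum.inr_injective h)

/-- The space. -/
abbrev V : Type _ := X × oddC0 D.I D.z

/-- The original norm. -/
noncomputable def q : Seminorm ℝ D.V :=
  (D.qZ.comp (LinearMap.fst ℝ X (oddC0 D.I D.z))) ⊔
    ((supC D.I D.z).comp (LinearMap.snd ℝ X (oddC0 D.I D.z)))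

theorem q_apply (v : D.V) : D.q v = max (D.qZ v.1) (supC D.I D.z v.2) := rfl

theorem q_le_iff (v : D.V) (c : ℝ) : D.q v ≤ c ↔ D.qZ v.1 ≤ c ∧ supC D.I D.z v.2 ≤ c := by
  rw [q_apply, max_le_iff]

/-- The coordinate functionals. -/
noncomputable def f (i : D.I) : D.V →ₗ[ℝ] ℝ where
  toFun v := v.2.1 i
  map_add' _ _ := rfl
  map_smul' _ _ := rfl

/-- The bumps in the space. -/
noncomputable def a (i : D.I) : D.V := (0, bmp D.z D.hzz i)

theorem f_le (i : D.I) (v : D.V) : |D.f i v| ≤ D.q v :=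
  (le_supC v.2 i).trans (le_max_right _ _)

theorem q_a (i : D.I) : D.q (D.a i) ≤ 2 := by
  rw [q_le_iff]
  refine ⟨?_, supC_bmp_le D.hzz D.freeI i⟩
  show D.qZ 0 ≤ 2
  rw [map_zero]; norm_num

theorem f_a_self (i : D.I) : D.f i (D.a i) = 2 := bmp_self D.hzz D.freeI i

theorem f_a_ne (i j : D.I) (h1 : j ≠ i) (h2 : j ≠ D.z • i) : D.f i (D.a j) = 0 := by
  refine bmp_ne D.hzz j i h1.symm fun h => h2 ?_
  rw [h, smul_smul, D.hzz, one_smul]

theorem a_z (i : D.I) : D.a (D.z • i) = - D.a i := by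
  show ((0 : X), bmp D.z D.hzz (D.z • i)) = - ((0 : X), bmp D.z D.hzz i)
  rw [bmp_z, Prod.neg_mk, neg_zero]

/-- The action of the group. -/
noncomputable def ρ : G →* (D.V →ₗ[ℝ] D.V) where
  toFun g := LinearMap.prodMap (D.ρZ g) (actC D.hz g)
  map_one' := by rw [map_one, map_one]; rfl
  map_mul' g h := by rw [map_mul, map_mul]; rfl

theorem ρ_apply (g : G) (v : D.V) : D.ρ g v = (D.ρZ g v.1, actC D.hz g v.2) := rfl

theorem q_ρ (g : G) (v : D.V) : D.q (D.ρ g v) = D.q v := by
  rw [q_apply, q_apply, ρ_apply]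
  show max (D.qZ (D.ρZ g v.1)) (supC D.I D.z (actC D.hz g v.2)) = _
  rw [D.hρq, supC_actC]

theorem ρ_a (g : G) (i : D.I) : D.ρ g (D.a i) = D.a (g • i) := by
  show (D.ρZ g 0, actC D.hz g (bmp D.z D.hzz i)) = ((0 : X), bmp D.z D.hzz (g • i))
  rw [map_zero, actC_bmp]

/-- The additional vector of a tuple. -/
noncomputable def zt (t : Tup G D.x) : X := D.ρZ (Tup.exists_elt t).choose (D.ζ t.len)

theorem zt_eq (t : Tup G D.x) (g : G) (hg : t.ent 0 = g • D.x 0) :
    D.zt t = D.ρZ g (D.ζ t.len) := by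
  have h := (Tup.exists_elt t).choose_spec 0 (Nat.zero_le _)
  set h' := (Tup.exists_elt t).choose with hh'
  have h1 : (g⁻¹ * h') • D.x 0 = D.x 0 := by
    rw [mul_smul, ← h, hg, inv_smul_smul]
  have h2 := D.hker _ _ h1
  unfold zt
  rw [← hh']
  have h3 : h' = g * (g⁻¹ * h') := by group
  rw [h3, map_mul, h2, mul_one]

theorem zt_smul (g : G) (t : Tup G D.x) : D.zt (g • t) = D.ρZ g (D.zt t) := by
  obtain ⟨h, hh⟩ := Tup.exists_elt t
  have h1 := hh 0 (Nat.zero_le _)
  rw [D.zt_eq t h h1, D.zt_eq (g • t) (g * h) (by rw [Tup.ent_smul, h1, mul_smul]), map_mul,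
    Tup.len_smul]
  rfl

theorem zt_base (n : ℕ) : D.zt (Tup.base G D.x n) = D.ζ n := by
  rw [D.zt_eq _ 1 (by rw [Tup.base_ent n 0 (Nat.zero_le _), one_smul]), map_one]
  rfl

theorem qZ_zt (t : Tup G D.x) : D.qZ (D.zt t) ≤ del t.len := by
  unfold zt
  rw [D.hρq]
  exact D.hζ _

theorem q_def (v : D.V) (h : D.q v = 0) : v = 0 := by
  have h1 := (D.q_le_iff v 0).mp h.le
  have h2 : v.1 = 0 := D.qZ_def _ (le_antisymm h1.1 (apply_nonneg _ _))
  have h3 : v.2 = 0 := by
    apply Subtype.ext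
    funext i
    have := (le_supC v.2 i).trans h1.2
    exact abs_nonpos_iff.mp this
  exact Prod.ext h2 h3

theorem far (v : D.V) (hv : D.q v ≤ 1) : ∃ p : P,
    D.q (v + (1 / 4 : ℝ) • D.a (Sum.inl p)) ≤ 1 ∧
      D.q (v - (1 / 4 : ℝ) • D.a (Sum.inl p)) ≤ 1 := by
  have hinf := D.hinf
  obtain ⟨h1, h2⟩ := (D.q_le_iff v 1).mp hv
  have ht : Tendsto (fun i => |v.2.1 i|) cofinite (𝓝 0) := by simpa using v.2.2.1.abs
  have hev := ht.eventually (gt_mem_nhds (show (0 : ℝ) < 1 / 2 by norm_num))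
  have hev2 : ∀ᶠ p : P in cofinite, |v.2.1 (Sum.inl p)| < 1 / 2 :=
    Sum.inl_injective.tendsto_cofinite.eventually hev
  obtain ⟨p, hp⟩ := hev2.exists
  have hval : ∀ c : ℝ, |c| ≤ 1 / 4 → D.q (v + c • D.a (Sum.inl p)) ≤ 1 := by
    intro c hc
    rw [q_le_iff]
    constructor
    · show D.qZ (v.1 + c • (0 : X)) ≤ 1
      rw [smul_zero, add_zero]; exact h1
    · refine supC_le _ _ (by norm_num) fun i => ?_
      show |v.2.1 i + c * (bmp D.z D.hzz (Sum.inl p : D.I)).1 i| ≤ 1
      by_cases e1 : i = Sum.inl p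
      · rw [e1, bmp_self _ D.freeI]
        have := abs_le.mp hp.le
        have := abs_le.mp hc
        rw [abs_le]; constructor <;> linarith
      by_cases e2 : i = D.z • Sum.inl p
      · rw [e2, (bmp D.z D.hzz (Sum.inl p : D.I)).2.2, v.2.2.2, bmp_self _ D.freeI]
        have := abs_le.mp hp.le
        have := abs_le.mp hc
        rw [abs_le]; constructor <;> linarith
      · rw [bmp_ne _ _ _ e1 e2, mul_zero, add_zero]
        exact (le_supC v.2 i).trans h2
  refine ⟨p, hval (1 / 4) (by norm_num), ?_⟩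
  have h5 := hval (-(1 / 4)) (by norm_num)
  have e : v - (1 / 4 : ℝ) • D.a (Sum.inl p) = v + (-(1 / 4) : ℝ) • D.a (Sum.inl p) := by
    module
  rw [e]
  exact h5

/-- The system of spikes. -/
noncomputable def S : SpikeSystem D.V P (Tup G D.x) where
  q := D.q
  q_def := D.q_def
  zP p := D.z • p
  zQ t := D.z • t
  zP_ne := D.hfree
  zQ_ne := Tup.free D.z D.hfree
  aP p := D.a (Sum.inl p)
  aQ t := D.a (Sum.inr t)
  fP p := D.f (Sum.inl p)
  fQ t := D.f (Sum.inr t)
  aP_z p := D.a_z (Sum.inl p)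
  aQ_z t := D.a_z (Sum.inr t)
  q_aP p := D.q_a _
  q_aQ t := D.q_a _
  fP_le p v := D.f_le _ v
  fQ_le t v := D.f_le _ v
  fP_aP_self p := D.f_a_self _
  fP_aP_ne p p' h1 h2 := D.f_a_ne _ _ (fun h => h1 (Sum.inl_injective h))
    (fun h => h2 (Sum.inl_injective h))
  fP_aQ p t := D.f_a_ne _ _ (by simp) (by rw [Sum.smul_inl]; simp)
  fQ_aP t p := D.f_a_ne _ _ (by simp) (by rw [Sum.smul_inr]; simp)
  fQ_aQ_self t := D.f_a_self _
  fQ_aQ_ne t t' h1 h2 := D.f_a_ne _ _ (fun h => h1 (Sum.inr_injective h))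
    (fun h => h2 (Sum.inr_injective h))
  far := D.far
  len := Tup.len
  tup := Tup.ent
  len_z t := rfl
  tup_z t j _ := rfl
  zeta t := (D.zt t, 0)
  zeta_z t := by
    rw [D.zt_smul, D.hρz, Prod.neg_mk, neg_zero]
  q_zeta t := by
    rw [q_le_iff]
    refine ⟨D.qZ_zt t, ?_⟩
    show supC D.I D.z 0 ≤ _
    rw [map_zero]; exact (del_pos _).le
  fP_zeta p t := rfl
  fQ_zeta t' t := rfl

theorem equivar : Equivar D.S G D.ρ where
  q_ρ := D.q_ρ
  ρ_aP g p := D.ρ_a g (Sum.inl p)
  ρ_aQ g t := D.ρ_a g (Sum.inr t)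
  ρ_zeta g t := by
    show (D.ρZ g (D.zt t), actC D.hz g 0) = ((D.zt (g • t), 0) : D.V)
    rw [D.zt_smul, map_zero]
  len_smul g t := rfl
  tup_smul g t j _ := rfl

theorem dense (v : D.V) (ε : ℝ) (hε : 0 < ε) : ∃ y ∈ Submodule.span ℝ
    (Set.range D.S.aP ∪ Set.range D.S.aQ ∪ Set.range D.S.zeta), D.S.q (v - y) < ε := by
  obtain ⟨y1, hy1, h1⟩ := D.hζd v.1 ε hε
  obtain ⟨y2, hy2, h2⟩ := bmp_dense D.hzz D.freeI v.2 ε hε
  refine ⟨(y1, y2), ?_, ?_⟩
  · have e : ((y1, y2) : D.V) = (y1, 0) + (0, y2) := by simp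
    rw [e]
    refine Submodule.add_mem _ ?_ ?_
    · have h3 : ∀ y ∈ Submodule.span ℝ (Set.range D.ζ), ((y, 0) : D.V) ∈ Submodule.span ℝ
          (Set.range D.S.aP ∪ Set.range D.S.aQ ∪ Set.range D.S.zeta) := by
        intro y hy
        induction hy using Submodule.span_induction with
        | mem y hy =>
          obtain ⟨n, rfl⟩ := hy
          refine Submodule.subset_span (Or.inr ⟨Tup.base G D.x n, ?_⟩)
          show ((D.zt (Tup.base G D.x n), 0) : D.V) = _
          rw [D.zt_base]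
        | zero => exact Submodule.zero_mem _
        | add a b _ _ ha hb =>
          have : ((a + b, 0) : D.V) = (a, 0) + (b, 0) := by simp
          rw [this]; exact Submodule.add_mem _ ha hb
        | smul c a _ ha =>
          have : ((c • a, 0) : D.V) = c • (a, 0) := by simp
          rw [this]; exact Submodule.smul_mem _ _ ha
      exact h3 y1 hy1
    · have h3 : ∀ y ∈ Submodule.span ℝ (Set.range (bmp (I := D.I) D.z D.hzz)),
          ((0, y) : D.V) ∈ Submodule.span ℝ
          (Set.range D.S.aP ∪ Set.range D.S.aQ ∪ Set.range D.S.zeta) := by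
        intro y hy
        induction hy using Submodule.span_induction with
        | mem y hy =>
          obtain ⟨i, rfl⟩ := hy
          cases i with
          | inl p => exact Submodule.subset_span (Or.inl (Or.inl ⟨p, rfl⟩))
          | inr t => exact Submodule.subset_span (Or.inl (Or.inr ⟨t, rfl⟩))
        | zero => exact Submodule.zero_mem _
        | add a b _ _ ha hb =>
          have : ((0, a + b) : D.V) = (0, a) + (0, b) := by simp
          rw [this]; exact Submodule.add_mem _ ha hb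
        | smul c a _ ha =>
          have : ((0, c • a) : D.V) = c • (0, a) := by simp
          rw [this]; exact Submodule.smul_mem _ _ ha
      exact h3 y2 hy2
  · show max (D.qZ (v.1 - y1)) (supC D.I D.z (v.2 - y2)) < ε
    exact max_lt h1 h2

theorem cod (π : Equiv.Perm P) (hπ : ∀ t : Tup G D.x, ∃ t' : Tup G D.x, t'.len = t.len ∧
    ∀ j ≤ t.len, t'.ent j = π (t.ent j)) : ∃ g : G, ∀ p, π p = g • p := by
  obtain ⟨g, hg⟩ := D.hclosed π (by
    intro F
    classical
    choose k hk using D.hx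
    obtain ⟨n, hn⟩ : ∃ n, ∀ p ∈ F, k p ≤ n := ⟨F.sup k, fun p hp => Finset.le_sup hp⟩
    obtain ⟨t', h1, h2⟩ := hπ (Tup.base G D.x n)
    obtain ⟨g, hg⟩ := Tup.exists_elt t'
    rw [Tup.base_len] at h1 h2
    rw [h1] at hg
    refine ⟨g, fun p hp => ?_⟩
    have h3 := h2 (k p) (hn p hp)
    rw [hg _ (hn p hp), Tup.base_ent n _ (hn p hp), hk] at h3
    exact h3)
  exact ⟨g, fun p => (hg p).symm⟩

/-- The main property of the new norm. -/
theorem isom_iff (T : D.V ≃ₗ[ℝ] D.V) : (∀ v, D.S.N (T v) = D.S.N v) ↔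
    ∃ g : G, ∀ v, T v = D.ρ g v := by
  constructor
  · intro hT
    exact D.equivar.eq_of_isom Tup.ext' D.cod D.dense T hT
  · rintro ⟨g, hg⟩ v
    rw [hg, D.equivar.N_ρ]

theorem ρ_injective (g : G) (h : ∀ v, D.ρ g v = v) (p : P) : g • p = p := by
  refine D.equivar.fixes_of_close g p ?_
  rw [h, sub_self, map_zero]; norm_num

theorem cont (v : D.V) (ε : ℝ) (hε : 0 < ε) : ∃ F : Finset P, ∀ g : G,
    (∀ p ∈ F, g • p = p) → D.S.N (D.ρ g v - v) < ε :=
  D.equivar.continuous_at_one Tup.ext' D.dense v ε hε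

end Data

end System

end Pool.Agent.Comb7f333f
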