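import Pool.Agent.Lib.MP_7f333f_an.Blocks
import Pool.Agent.Lib.MP_7f333f_an.System

set_option autoImplicit false

/-!
Every combinatorial space is isomorphic to its product with the space of odd null families.
-/

namespace Pool.Agent.Comb7f333f

open Filter Topology

/-- Null sequences. -/
def c0 : Submodule ℝ (ℕ → ℝ) where
  carrier := {f | Tendsto f atTop (𝓝 0)}
  add_mem' := by
    intro f g hf hg
    have h := Tendsto.add hf hg
    rw [add_zero] at h
    exact h
  zero_mem' := tendsto_const_nhds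
  smul_mem' := by
    intro c f hf
    have h := Tendsto.const_smul hf c
    rw [smul_zero] at h
    exact h

section Space

variable {𝓕 : Set (Finset ℕ)} {X : Type*} [NormedAddCommGroup X] [NormedSpace ℝ X]
  [CompleteSpace X] {e : ℕ → X}

/-- The space has a complemented copy of `c₀`. -/
theorem exists_UV (h : IsRegular 𝓕) (hX : IsCombSpace 𝓕 e) :
    ∃ (U : X →ₗ[ℝ] c0) (V : c0 →ₗ[ℝ] X) (C : ℝ), 0 ≤ C ∧
      (∀ x j, |(U x).1 j| ≤ C * ‖x‖) ∧
      (∀ (l : c0) (B : ℝ), 0 ≤ B → (∀ j, |l.1 j| ≤ B) → ‖V l‖ ≤ C * B) ∧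
      ∀ l, U (V l) = l := by
  classical
  obtain ⟨u, M, C, hC, hM, hu1, hu2, hu3⟩ := exists_blocks h
  choose F hF1 hF2 hF3 using fun j => exists_norming h (u j) (hu2 j)
  set ι := Finsupp.linearCombination ℝ e with hι
  set θ : ℕ → ℝ := fun j => ∑ k ∈ F j, |u j k| with hθ
  have hθ2 : ∀ j, 1 / 2 ≤ θ j := hF3
  have hθ0 : ∀ j, 0 < θ j := fun j => by linarith [hθ2 j]
  -- the functionals on finitely supported sequences
  let f : ℕ → ((ℕ →₀ ℝ) →ₗ[ℝ] ℝ) := fun j =>
    (θ j)⁻¹ • ∑ k ∈ F j, (SignType.sign (u j k) : ℝ) • Finsupp.lapply k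
  have hf : ∀ j a, f j a = (θ j)⁻¹ * ∑ k ∈ F j, (SignType.sign (u j k) : ℝ) * a k := by
    intro j a
    simp only [f, LinearMap.smul_apply, LinearMap.sum_apply, smul_eq_mul, Finsupp.lapply_apply]
  have hsg : ∀ x : ℝ, |(SignType.sign x : ℝ)| ≤ 1 := by
    intro x
    rcases lt_trichotomy x 0 with hx | hx | hx
    · rw [sign_neg hx]; simp
    · rw [hx]; simp
    · rw [sign_pos hx]; simp
  have hfb : ∀ j a, ‖f j a‖ ≤ 2 * ‖ι a‖ := by
    intro j a
    rw [hX.norm_eq, hf, Real.norm_eq_abs, abs_mul, abs_of_pos (inv_pos.mpr (hθ0 j))]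
    have h1 : |∑ k ∈ F j, (SignType.sign (u j k) : ℝ) * a k| ≤ combNorm 𝓕 a := by
      refine (Finset.abs_sum_le_sum_abs _ _).trans (le_trans (Finset.sum_le_sum fun k _ => ?_)
        (le_combNorm a (hF1 j)))
      rw [abs_mul]
      exact mul_le_of_le_one_left (abs_nonneg _) (hsg _)
    have h2 : (θ j)⁻¹ ≤ 2 := by
      rw [inv_le_comm₀ (hθ0 j) (by norm_num)]
      linarith [hθ2 j]
    exact mul_le_mul h2 h1 (abs_nonneg _) (by norm_num)
  have hdisj : ∀ i j, i ≠ j → ∀ k ∈ (u i).support, k ∉ (u j).support := by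
    intro i j hij k hk hk'
    have h1 := hu1 i k hk
    have h2 := hu1 j k hk'
    rcases lt_or_gt_of_ne hij with hlt | hlt
    · have := hM.monotone (show i + 1 ≤ j from hlt)
      omega
    · have := hM.monotone (show j + 1 ≤ i from hlt)
      omega
  have hfu : ∀ i j, f j (u i) = if i = j then 1 else 0 := by
    intro i j
    rw [hf]
    by_cases hij : i = j
    · subst hij
      rw [if_pos rfl]
      have h1 : ∑ k ∈ F i, (SignType.sign (u i k) : ℝ) * u i k = θ i :=
        Finset.sum_congr rfl fun k _ => sign_mul_self _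
      rw [h1, inv_mul_cancel₀ (hθ0 i).ne']
    · rw [if_neg hij]
      have h1 : ∑ k ∈ F j, (SignType.sign (u j k) : ℝ) * u i k = 0 := by
        refine Finset.sum_eq_zero fun k hk => ?_
        have h2 := hdisj j i (Ne.symm hij) k (hF2 j hk)
        rw [Finsupp.notMem_support_iff.mp h2, mul_zero]
      rw [h1, mul_zero]
  -- the functionals on the space
  set us : ℕ → (X →L[ℝ] ℝ) := fun j => (f j).extendOfNorm ι with hus
  have hus1 : ∀ j a, us j (ι a) = f j a := fun j a =>
    LinearMap.extendOfNorm_eq hX.dense ⟨2, hfb j⟩ a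
  have hus2 : ∀ j x, |us j x| ≤ 2 * ‖x‖ := fun j x => by
    have := LinearMap.norm_extendOfNorm_apply_le hX.dense 2 (hfb j) x
    rwa [Real.norm_eq_abs] at this
  have hus3 : ∀ x, Tendsto (fun j => us j x) atTop (𝓝 0) := by
    intro x
    rw [Metric.tendsto_atTop]
    intro ε hε
    obtain ⟨a, ha⟩ := hX.dense.exists_dist_lt x (show (0 : ℝ) < ε / 3 by positivity)
    refine ⟨a.support.sup id, fun j hj => ?_⟩
    have h0 : f j a = 0 := by
      rw [hf, Finset.sum_eq_zero, mul_zero]
      intro k hk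
      have h1 := (hu1 j k (hF2 j hk)).1
      have h2 : j ≤ M j := hM.id_le j
      have h3 : k ∉ a.support := by
        intro h4
        have h5 : k ≤ a.support.sup id := Finset.le_sup (f := id) h4
        omega
      rw [Finsupp.notMem_support_iff.mp h3, mul_zero]
    rw [dist_zero_right, Real.norm_eq_abs]
    have h1 : us j x = us j (x - ι a) := by
      rw [map_sub, hus1, h0, sub_zero]
    rw [h1]
    have h2 := hus2 j (x - ι a)
    rw [dist_eq_norm] at ha
    linarith
  let U : X →ₗ[ℝ] c0 :=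
    { toFun := fun x => ⟨fun j => us j x, hus3 x⟩
      map_add' := fun x y => by
        apply Subtype.ext; funext j; exact map_add (us j) x y
      map_smul' := fun c x => by
        apply Subtype.ext; funext j; exact map_smul (us j) c x }
  have hU : ∀ x j, (U x).1 j = us j x := fun _ _ => rfl
  -- the vectors
  set w : ℕ → X := fun j => ι (u j) with hw
  have hwn : ∀ (s : Finset ℕ) (c : ℕ → ℝ) (B : ℝ), 0 ≤ B → (∀ j ∈ s, |c j| ≤ B) →
      ‖∑ j ∈ s, c j • w j‖ ≤ C * B := by
    intro s c B hB hc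
    have h1 : ∑ j ∈ s, c j • w j = ι (∑ j ∈ s, c j • u j) := by
      rw [map_sum]
      exact Finset.sum_congr rfl fun j _ => by rw [map_smul]
    rw [h1, hX.norm_eq]
    exact hu3 s c B hB hc
  have hsum : ∀ l : c0, Summable fun j => l.1 j • w j := by
    intro l
    rw [summable_iff_vanishing_norm]
    intro ε hε
    have h1 : Tendsto (fun j => |l.1 j|) atTop (𝓝 0) := by
      have := Tendsto.abs (show Tendsto l.1 atTop (𝓝 0) from l.2)
      simpa using this
    have h2 := (h1.eventually (gt_mem_nhds (show (0 : ℝ) < ε / (2 * (C + 1)) by positivity)))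
    obtain ⟨n, hn⟩ := eventually_atTop.mp h2
    refine ⟨Finset.range n, fun t ht => ?_⟩
    refine lt_of_le_of_lt (hwn t l.1 (ε / (2 * (C + 1))) (by positivity) fun j hj => ?_) ?_
    · refine (hn j ?_).le
      by_contra hcon
      push Not at hcon
      exact Finset.disjoint_left.mp ht hj (Finset.mem_range.mpr hcon)
    · rw [mul_div_assoc', div_lt_iff₀ (by positivity)]
      nlinarith
  let V : c0 →ₗ[ℝ] X :=
    { toFun := fun l => ∑' j, l.1 j • w j
      map_add' := fun l l' => by
        rw [← (hsum l).tsum_add (hsum l')]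
        refine tsum_congr fun j => ?_
        show (l.1 j + l'.1 j) • w j = _
        rw [add_smul]
      map_smul' := fun c l => by
        rw [RingHom.id_apply, ← (hsum l).tsum_const_smul]
        refine tsum_congr fun j => ?_
        show (c * l.1 j) • w j = _
        rw [mul_smul] }
  have hV : ∀ l, V l = ∑' j, l.1 j • w j := fun _ => rfl
  refine ⟨U, V, max 2 C, le_max_of_le_left (by norm_num), ?_, ?_, ?_⟩
  · intro x j
    rw [hU]
    exact (hus2 j x).trans (mul_le_mul_of_nonneg_right (le_max_left _ _) (norm_nonneg _))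
  · intro l B hB hl
    refine le_trans ?_ (mul_le_mul_of_nonneg_right (le_max_right 2 C) hB)
    rw [hV]
    refine le_of_tendsto (hsum l).hasSum.norm (Filter.Eventually.of_forall fun s => ?_)
    exact hwn s l.1 B hB fun j _ => hl j
  · intro l
    apply Subtype.ext
    funext j
    rw [hU, hV, (us j).map_tsum (hsum l), tsum_eq_single j]
    · rw [map_smul, hus1, hfu, if_pos rfl, smul_eq_mul, mul_one]
    · intro i hij
      rw [map_smul, hus1, hfu, if_neg hij, smul_zero]

end Space

/-! ### Transversals of a free involution -/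

section Transversal

variable {G : Type*} [Group G] {I : Type*} [MulAction G I] {z : G}

theorem exists_transversal [Countable I] [Infinite I] (hzz : z * z = 1)
    (hfree : ∀ i : I, z • i ≠ i) : ∃ (κ : I → ℕ) (sg : I → ℝ) (sct : ℕ → I),
    (∀ i, κ (z • i) = κ i) ∧ (∀ i, sg (z • i) = - sg i) ∧ (∀ k, κ (sct k) = k) ∧
    (∀ k, sg (sct k) = 1) ∧
    ∀ i, (i = sct (κ i) ∧ sg i = 1) ∨ (i = z • sct (κ i) ∧ sg i = -1) := by
  classical
  obtain ⟨ν, hν⟩ := exists_injective_nat I
  have hzz' : ∀ i : I, z • z • i = i := fun i => by rw [smul_smul, hzz, one_smul]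
  have hne : ∀ i, ν i ≠ ν (z • i) := fun i h => hfree i (hν h).symm
  let Ω := {i : I // ν i < ν (z • i)}
  let rep : I → Ω := fun i => if hi : ν i < ν (z • i) then ⟨i, hi⟩ else
    ⟨z • i, by rw [hzz']; exact lt_of_le_of_ne (not_lt.mp hi) (hne i).symm⟩
  have hrep1 : ∀ i, (hi : ν i < ν (z • i)) → rep i = ⟨i, hi⟩ := fun i hi => dif_pos hi
  have hrep2 : ∀ i, ¬ ν i < ν (z • i) → (rep i).1 = z • i := fun i hi => by
    show (dite _ _ _ : Ω).1 = _
    rw [dif_neg hi]
  have hrepz : ∀ i, rep (z • i) = rep i := by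
    intro i
    apply Subtype.ext
    by_cases hi : ν i < ν (z • i)
    · rw [hrep1 i hi, hrep2 (z • i) (by rw [hzz']; omega), hzz']
    · have hi' : ν (z • i) < ν (z • z • i) := by
        rw [hzz']; have := hne i; omega
      rw [hrep1 (z • i) hi', hrep2 i hi]
  have : Infinite Ω := by
    by_contra hfin
    rw [not_infinite_iff_finite] at hfin
    have h1 : (Set.univ : Set I).Finite := by
      have h2 : (Set.univ : Set I) ⊆ (Set.range fun ω : Ω => ω.1) ∪
          Set.range fun ω : Ω => z • ω.1 := by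
        intro i _
        by_cases hi : ν i < ν (z • i)
        · exact Or.inl ⟨⟨i, hi⟩, rfl⟩
        · refine Or.inr ⟨rep i, ?_⟩
          show z • (rep i).1 = i
          rw [hrep2 i hi, hzz']
      exact ((Set.finite_range _).union (Set.finite_range _)).subset h2
    exact Set.infinite_univ h1
  obtain ⟨ε⟩ : Nonempty (Ω ≃ ℕ) := nonempty_equiv_of_countable
  refine ⟨fun i => ε (rep i), fun i => if ν i < ν (z • i) then 1 else -1, fun k => (ε.symm k).1,
    ?_, ?_, ?_, ?_, ?_⟩
  · intro i
    show ε (rep (z • i)) = ε (rep i)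
    rw [hrepz]
  · intro i
    show (if ν (z • i) < ν (z • z • i) then (1 : ℝ) else -1) = - (if ν i < ν (z • i) then 1 else -1)
    rw [hzz']
    by_cases hi : ν i < ν (z • i)
    · rw [if_pos hi, if_neg (by omega)]
    · have := hne i
      rw [if_neg hi, if_pos (by omega), neg_neg]
  · intro k
    show ε (rep (ε.symm k).1) = k
    rw [hrep1 _ (ε.symm k).2]
    exact ε.apply_symm_apply k
  · intro k
    exact if_pos (ε.symm k).2
  · intro i
    by_cases hi : ν i < ν (z • i)
    · left
      refine ⟨?_, if_pos hi⟩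
      show i = (ε.symm (ε (rep i))).1
      rw [ε.symm_apply_apply, hrep1 i hi]
    · right
      refine ⟨?_, if_neg hi⟩
      show i = z • (ε.symm (ε (rep i))).1
      rw [ε.symm_apply_apply, hrep2 i hi, hzz']

/-- `c₀` is isomorphic to its product with the odd null families. -/
theorem exists_split [Countable I] [Infinite I] (hzz : z * z = 1)
    (hfree : ∀ i : I, z • i ≠ i) : ∃ (b : c0 ≃ₗ[ℝ] c0 × oddC0 I z),
      (∀ (l : c0) (B : ℝ), 0 ≤ B → (∀ j, |l.1 j| ≤ B) →
        (∀ j, |(b l).1.1 j| ≤ B) ∧ supC I z (b l).2 ≤ B) ∧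
      (∀ (l : c0) (f : oddC0 I z) (B : ℝ), (∀ j, |l.1 j| ≤ B) → supC I z f ≤ B →
        ∀ j, |(b.symm (l, f)).1 j| ≤ B) := by
  classical
  obtain ⟨κ, sg, sct, hκz, hsgz, hκs, hsgs, hall⟩ := exists_transversal (I := I) hzz hfree
  have hsgabs : ∀ i, |sg i| = 1 := by
    intro i
    rcases hall i with h | h <;> rw [h.2] <;> simp
  have hsctinj : Function.Injective sct := fun a b hab => by rw [← hκs a, ← hκs b, hab]
  have hκtend : Tendsto κ cofinite atTop := by
    rw [← Nat.cofinite_eq_atTop]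
    refine Filter.Tendsto.cofinite_of_finite_preimage_singleton fun k => ?_
    refine ((Set.finite_singleton (sct k)).union (Set.finite_singleton (z • sct k))).subset ?_
    intro i hi
    have hi' : κ i = k := hi
    rcases hall i with h | h
    · left; rw [← hi']; exact h.1
    · right; rw [← hi']; exact h.1
  have h2n : Tendsto (fun n : ℕ => 2 * n) atTop atTop :=
    tendsto_id.const_mul_atTop' (by norm_num)
  have h2n1 : Tendsto (fun n : ℕ => 2 * n + 1) atTop atTop :=
    tendsto_atTop_mono (fun n => by omega) h2n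
  have hdiv : Tendsto (fun n : ℕ => n / 2) atTop atTop :=
    Nat.tendsto_div_const_atTop (by norm_num)
  -- the splitting map
  let s : c0 →ₗ[ℝ] c0 × oddC0 I z :=
    { toFun := fun l => (⟨fun k => l.1 (2 * k), l.2.comp h2n⟩,
        ⟨fun i => sg i * l.1 (2 * κ i + 1), by
          refine ⟨?_, fun i => by
            show sg (z • i) * l.1 (2 * κ (z • i) + 1) = - (sg i * l.1 (2 * κ i + 1))
            rw [hκz, hsgz, neg_mul]⟩
          have h1 : Tendsto (fun i => l.1 (2 * κ i + 1)) cofinite (𝓝 0) :=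
            (show Tendsto l.1 atTop (𝓝 0) from l.2).comp (h2n1.comp hκtend)
          rw [tendsto_zero_iff_abs_tendsto_zero] at h1 ⊢
          refine h1.congr fun i => ?_
          show |l.1 (2 * κ i + 1)| = |sg i * l.1 (2 * κ i + 1)|
          rw [abs_mul, hsgabs, one_mul]⟩)
      map_add' := fun l l' => by
        refine Prod.ext (Subtype.ext (funext fun k => rfl)) (Subtype.ext (funext fun i => ?_))
        show sg i * (l.1 _ + l'.1 _) = sg i * l.1 _ + sg i * l'.1 _
        ring
      map_smul' := fun c l => by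
        refine Prod.ext (Subtype.ext (funext fun k => rfl)) (Subtype.ext (funext fun i => ?_))
        show sg i * (c * l.1 _) = c * (sg i * l.1 _)
        ring }
  let t : c0 × oddC0 I z →ₗ[ℝ] c0 :=
    { toFun := fun p => ⟨fun n => if n % 2 = 0 then p.1.1 (n / 2) else p.2.1 (sct (n / 2)), by
        have h1 : Tendsto (fun n => |p.1.1 (n / 2)|) atTop (𝓝 0) := by
          have := (Tendsto.comp (show Tendsto p.1.1 atTop (𝓝 0) from p.1.2) hdiv).abs
          simpa using this
        have h2 : Tendsto (fun n => |p.2.1 (sct (n / 2))|) atTop (𝓝 0) := by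
          have h3 : Tendsto sct atTop cofinite := by
            rw [← Nat.cofinite_eq_atTop]
            exact hsctinj.tendsto_cofinite
          have := (p.2.2.1.comp (h3.comp hdiv)).abs
          simpa using this
        have h3 := h1.add h2
        rw [add_zero] at h3
        refine squeeze_zero_norm (fun n => ?_) h3
        rw [Real.norm_eq_abs]
        split_ifs
        · linarith [abs_nonneg (p.2.1 (sct (n / 2)))]
        · linarith [abs_nonneg (p.1.1 (n / 2))]⟩
      map_add' := fun p p' => by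
        apply Subtype.ext
        funext n
        show (if n % 2 = 0 then p.1.1 (n / 2) + p'.1.1 (n / 2) else
          p.2.1 (sct (n / 2)) + p'.2.1 (sct (n / 2))) =
          (if n % 2 = 0 then p.1.1 (n / 2) else p.2.1 (sct (n / 2))) +
          (if n % 2 = 0 then p'.1.1 (n / 2) else p'.2.1 (sct (n / 2)))
        split_ifs <;> rfl
      map_smul' := fun c p => by
        apply Subtype.ext
        funext n
        show (if n % 2 = 0 then c * p.1.1 (n / 2) else c * p.2.1 (sct (n / 2))) =
          c * (if n % 2 = 0 then p.1.1 (n / 2) else p.2.1 (sct (n / 2)))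
        split_ifs <;> rfl }
  have hst : ∀ p, s (t p) = p := by
    intro p
    refine Prod.ext (Subtype.ext (funext fun k => ?_)) (Subtype.ext (funext fun i => ?_))
    · show (if (2 * k) % 2 = 0 then p.1.1 (2 * k / 2) else _) = p.1.1 k
      have e1 : 2 * k / 2 = k := by omega
      rw [if_pos (by omega), e1]
    · show sg i * (if (2 * κ i + 1) % 2 = 0 then _ else p.2.1 (sct ((2 * κ i + 1) / 2))) = p.2.1 i
      rw [if_neg (by omega)]
      have e1 : (2 * κ i + 1) / 2 = κ i := by omega
      rw [e1]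
      rcases hall i with h | h
      · rw [h.2, one_mul, ← h.1]
      · have h3 : p.2.1 i = - p.2.1 (sct (κ i)) := by
          conv_lhs => rw [h.1]
          rw [p.2.2.2]
        rw [h.2, h3]; ring
  have hts : ∀ l, t (s l) = l := by
    intro l
    apply Subtype.ext
    funext n
    show (if n % 2 = 0 then l.1 (2 * (n / 2)) else
      sg (sct (n / 2)) * l.1 (2 * κ (sct (n / 2)) + 1)) = l.1 n
    split_ifs with hn
    · have e1 : 2 * (n / 2) = n := by omega
      rw [e1]
    · have e1 : 2 * (n / 2) + 1 = n := by omega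
      rw [hsgs, hκs, one_mul, e1]
  refine ⟨LinearEquiv.ofLinearMap s t (LinearMap.ext hst) (LinearMap.ext hts), ?_, ?_⟩
  · intro l B hB hl
    refine ⟨fun j => hl _, supC_le _ _ hB fun i => ?_⟩
    show |sg i * l.1 (2 * κ i + 1)| ≤ B
    rw [abs_mul, hsgabs, one_mul]
    exact hl _
  · intro l f B hl hf n
    show |if n % 2 = 0 then l.1 (n / 2) else f.1 (sct (n / 2))| ≤ B
    split_ifs
    · exact hl _
    · exact (le_supC f _).trans hf

end Transversal

/-! ### The isomorphism -/

section Space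

variable {𝓕 : Set (Finset ℕ)} {X : Type*} [NormedAddCommGroup X] [NormedSpace ℝ X]
  [CompleteSpace X] {e : ℕ → X}
  {G : Type*} [Group G] {I : Type*} [MulAction G I] {z : G}

theorem exists_iso (h : IsRegular 𝓕) (hX : IsCombSpace 𝓕 e) [Countable I] [Infinite I]
    (hzz : z * z = 1) (hfree : ∀ i : I, z • i ≠ i) :
    ∃ (Θ : X ≃ₗ[ℝ] X × oddC0 I z) (C : ℝ), 0 < C ∧
      (∀ x, ‖(Θ x).1‖ ≤ C * ‖x‖ ∧ supC I z (Θ x).2 ≤ C * ‖x‖) ∧
      ∀ x, ‖x‖ ≤ C * (‖(Θ x).1‖ + supC I z (Θ x).2) := by
  obtain ⟨U, V, C, hC, hU, hV, hUV⟩ := exists_UV h hX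
  obtain ⟨b, hb1, hb2⟩ := exists_split (I := I) hzz hfree
  let f : X →ₗ[ℝ] X × oddC0 I z :=
    (LinearMap.id - V.comp U + V.comp ((LinearMap.fst ℝ c0 (oddC0 I z)).comp
      (b.toLinearMap.comp U))).prod ((LinearMap.snd ℝ c0 (oddC0 I z)).comp
      (b.toLinearMap.comp U))
  let g : X × oddC0 I z →ₗ[ℝ] X :=
    (LinearMap.id - V.comp U).comp (LinearMap.fst ℝ X (oddC0 I z)) +
      V.comp (b.symm.toLinearMap.comp ((U.comp (LinearMap.fst ℝ X (oddC0 I z))).prod
        (LinearMap.snd ℝ X (oddC0 I z))))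
  have hf : ∀ x, f x = (x - V (U x) + V (b (U x)).1, (b (U x)).2) := fun x => rfl
  have hg : ∀ p, g p = p.1 - V (U p.1) + V (b.symm (U p.1, p.2)) := fun p => rfl
  have hfg : ∀ p, f (g p) = p := by
    intro p
    have h1 : U (g p) = b.symm (U p.1, p.2) := by
      rw [hg, map_add, map_sub, hUV, hUV, sub_self, zero_add]
    rw [hf, h1, b.apply_symm_apply, hg]
    refine Prod.ext ?_ rfl
    show p.1 - V (U p.1) + V (b.symm (U p.1, p.2)) - V (b.symm (U p.1, p.2)) + V (U p.1) = p.1
    abel
  have hgf : ∀ x, g (f x) = x := by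
    intro x
    have h1 : U (f x).1 = (b (U x)).1 := by
      rw [hf]
      show U (x - V (U x) + V (b (U x)).1) = _
      rw [map_add, map_sub, hUV, hUV, sub_self, zero_add]
    have h2 : (f x).2 = (b (U x)).2 := rfl
    rw [hg, h1, h2]
    have h3 : b.symm ((b (U x)).1, (b (U x)).2) = U x := by
      rw [Prod.mk.eta, b.symm_apply_apply]
    rw [h3]
    show x - V (U x) + V (b (U x)).1 - V (b (U x)).1 + V (U x) = x
    abel
  refine ⟨LinearEquiv.ofLinearMap f g (LinearMap.ext hfg) (LinearMap.ext hgf),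
    (1 + C) * (1 + C) + C * C + C + 1, by positivity, ?_, ?_⟩
  · intro x
    have hx := norm_nonneg x
    have h0 : 0 ≤ C * ‖x‖ := mul_nonneg hC hx
    obtain ⟨h1, h2⟩ := hb1 (U x) (C * ‖x‖) h0 (hU x)
    constructor
    · show ‖x - V (U x) + V (b (U x)).1‖ ≤ _
      have h3 := hV (U x) (C * ‖x‖) h0 (hU x)
      have h4 := hV (b (U x)).1 (C * ‖x‖) h0 h1
      have h5 := norm_add_le (x - V (U x)) (V (b (U x)).1)
      have h6 := norm_sub_le x (V (U x))
      nlinarith [mul_nonneg hC h0]
    · show supC I z (b (U x)).2 ≤ _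
      refine h2.trans ?_
      nlinarith [mul_nonneg hC h0]
  · intro x
    show ‖x‖ ≤ _ * (‖(f x).1‖ + supC I z (f x).2)
    have e1 : x = g (f x) := (hgf x).symm
    set p := f x with hp
    have hn := norm_nonneg p.1
    have hs : 0 ≤ supC I z p.2 := apply_nonneg _ _
    have h0 : 0 ≤ C * ‖p.1‖ := mul_nonneg hC hn
    have h3 := hV (U p.1) (C * ‖p.1‖) h0 (hU p.1)
    have hB : 0 ≤ C * ‖p.1‖ + supC I z p.2 := add_nonneg h0 hs
    have h4 := hV (b.symm (U p.1, p.2)) (C * ‖p.1‖ + supC I z p.2) hB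
      (hb2 _ _ _ (fun j => (hU p.1 j).trans (by linarith)) (by linarith))
    have h5 := norm_add_le (p.1 - V (U p.1)) (V (b.symm (U p.1, p.2)))
    have h6 := norm_sub_le p.1 (V (U p.1))
    rw [e1, hg]
    nlinarith [mul_nonneg hC h0, mul_nonneg hC hs, mul_nonneg hC (mul_nonneg hC hs)]

end Space

end Pool.Agent.Comb7f333f
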