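import Pool.Agent.Lib.MP_7f333f_an.D.Final
import Pool.Agent.Lib.MP_7f333f_an.Neg.Schreier

set_option autoImplicit false
set_option linter.unusedSectionVars false

/-!
Families comparable with the Schreier family: their combinatorial spaces have the Schreier norm as
an equivalent norm, so that the absence of coordinatewise null sequences of isometries carries over
from the Schreier space.
-/

namespace Pool.Agent.Comb7f333f

open Filter Topology

/-- The family is comparable with the Schreier family. -/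
def SchreierLike (𝓕 : Set (Finset ℕ)) : Prop :=
  ∃ K : ℕ, (∀ F ∈ 𝓕, ∀ k ∈ F, F.card ≤ K * (k + 1)) ∧
    ∀ F : Finset ℕ, (∀ k ∈ F, K * F.card ≤ k + 1) → F ∈ 𝓕

/-- A finite set with at most `K * m` elements is the union of `K` sets with at most `m`
elements. -/
theorem sum_le_of_card_le {a : ℕ → ℝ} {B : ℝ} (hB : 0 ≤ B) (m : ℕ)
    {P : ℕ → Prop}
    (h : ∀ E : Finset ℕ, (∀ k ∈ E, P k) → E.card ≤ m → ∑ k ∈ E, a k ≤ B) (K : ℕ) :
    ∀ F : Finset ℕ, (∀ k ∈ F, P k) → F.card ≤ K * m → ∑ k ∈ F, a k ≤ K * B := by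
  induction K with
  | zero =>
    intro F _ hF
    have : F = ∅ := Finset.card_eq_zero.mp (by omega)
    subst this
    simp
  | succ K ih =>
    intro F hP hF
    by_cases hm : F.card ≤ m
    · have := h F hP hm
      push_cast
      nlinarith [show (0 : ℝ) ≤ K from Nat.cast_nonneg K]
    · push Not at hm
      obtain ⟨E, hE, hEc⟩ := Finset.exists_subset_card_eq hm.le
      have h1 := h E (fun k hk => hP k (hE hk)) hEc.le
      have h2 := ih (F \ E) (fun k hk => hP k (Finset.sdiff_subset hk)) (by
        rw [Finset.card_sdiff_of_subset hE, hEc]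
        have : (K + 1) * m = K * m + m := by ring
        omega)
      rw [← Finset.sum_sdiff hE]
      push_cast
      linarith

section

variable {𝓕 : Set (Finset ℕ)} {X : Type*} [NormedAddCommGroup X] [NormedSpace ℝ X] {e : ℕ → X}

/-- The sums over the sets of the family are bounded by a multiple of those over the Schreier
sets. -/
theorem sum_le_of_growth {K : ℕ} (hK : ∀ F ∈ 𝓕, ∀ k ∈ F, F.card ≤ K * (k + 1)) {a : ℕ → ℝ}
    {B : ℝ} (hB : 0 ≤ B)
    (h : ∀ E ∈ schreier, ∑ k ∈ E, a k ≤ B) {F : Finset ℕ} (hF : F ∈ 𝓕) :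
    ∑ k ∈ F, a k ≤ K * B := by
  rcases F.eq_empty_or_nonempty with h0 | h0
  · subst h0
    rw [Finset.sum_empty]
    positivity
  · refine sum_le_of_card_le hB (F.min' h0 + 1) (P := fun k => F.min' h0 ≤ k)
      (fun E hE hEc => h E fun k hk => ?_) K F (fun k hk => F.min'_le k hk)
      (hK F hF _ (F.min'_mem h0))
    have := hE k hk
    omega

theorem sum_le_of_growth' {K : ℕ} (hsing : ∀ n, {n} ∈ 𝓕)
    (hK : ∀ F : Finset ℕ, (∀ k ∈ F, K * F.card ≤ k + 1) → F ∈ 𝓕) {a : ℕ → ℝ}
    {B : ℝ} (hB : 0 ≤ B)
    (h : ∀ E ∈ 𝓕, ∑ k ∈ E, a k ≤ B) {F : Finset ℕ} (hF : F ∈ schreier) :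
    ∑ k ∈ F, a k ≤ (2 * K + 2 : ℕ) * B := by
  rcases F.eq_empty_or_nonempty with h0 | h0
  · subst h0
    rw [Finset.sum_empty]
    positivity
  · set p := F.min' h0 + 1 with hp
    have hcard : F.card ≤ p := hF _ (F.min'_mem h0)
    by_cases hbig : K ≤ p
    · refine sum_le_of_card_le hB (p / (K + 1) + (if p / (K + 1) = 0 then 1 else 0))
        (P := fun k => F.min' h0 ≤ k) (fun E hE hEc => ?_) (2 * K + 2) F
        (fun k hk => F.min'_le k hk) ?_
      · by_cases hz : p / (K + 1) = 0
        · rw [if_pos hz, hz] at hEc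
          rcases Nat.lt_or_ge E.card 1 with hlt | hge
          · have : E = ∅ := Finset.card_eq_zero.mp (by omega)
            subst this
            simpa using hB
          · obtain ⟨x, rfl⟩ := Finset.card_eq_one.mp (by omega : E.card = 1)
            exact h _ (hsing x)
        · rw [if_neg hz, add_zero] at hEc
          refine h E (hK E fun k hk => ?_)
          have h1 : K * E.card ≤ (K + 1) * (p / (K + 1)) := by
            refine Nat.mul_le_mul (Nat.le_succ K) hEc
          have h2 : (K + 1) * (p / (K + 1)) ≤ p := Nat.mul_div_le p (K + 1)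
          have h3 := hE k hk
          omega
      · refine hcard.trans ?_
        by_cases hz : p / (K + 1) = 0
        · rw [if_pos hz, hz]
          have h1 : p < K + 1 := by
            by_contra hcon
            push Not at hcon
            have := Nat.div_pos hcon (Nat.succ_pos K)
            omega
          omega
        · rw [if_neg hz, add_zero]
          have h1 : p < (K + 1) * (p / (K + 1) + 1) := Nat.lt_mul_div_succ p (Nat.succ_pos K)
          have h2 : 1 ≤ p / (K + 1) := Nat.one_le_iff_ne_zero.mpr hz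
          have h3 : (K + 1) * (p / (K + 1) + 1) ≤ (2 * K + 2) * (p / (K + 1)) := by
            have : (2 * K + 2) * (p / (K + 1)) = (K + 1) * (2 * (p / (K + 1))) := by ring
            rw [this]
            exact Nat.mul_le_mul_left _ (by omega)
          omega
    · push Not at hbig
      refine sum_le_of_card_le hB 1 (P := fun _ => True) (fun E _ hEc => ?_) (2 * K + 2) F
        (fun _ _ => trivial) (by omega)
      rcases Nat.lt_or_ge E.card 1 with hlt | hge
      · have : E = ∅ := Finset.card_eq_zero.mp (by omega)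
        subst this
        simpa using hB
      · obtain ⟨x, rfl⟩ := Finset.card_eq_one.mp (by omega : E.card = 1)
        exact h _ (hsing x)

/-- The Schreier norm on a combinatorial space of a family comparable with the Schreier family. -/
noncomputable def schN (e : ℕ → X) (x : X) : ℝ :=
  sSup {r | ∃ F ∈ schreier, r = ∑ k ∈ F, |ef e k x|}

end

section Ren

variable {𝓕 : Set (Finset ℕ)} {X : Type*} [NormedAddCommGroup X] [NormedSpace ℝ X] {e : ℕ → X}
  (h : IsRegular 𝓕) (hX : IsCombSpace 𝓕 e) {K : ℕ}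
  (hK1 : ∀ F ∈ 𝓕, ∀ k ∈ F, F.card ≤ K * (k + 1))
  (hK2 : ∀ F : Finset ℕ, (∀ k ∈ F, K * F.card ≤ k + 1) → F ∈ 𝓕)

include h hX hK2

theorem sum_sch_le (x : X) {F : Finset ℕ} (hF : F ∈ schreier) :
    ∑ k ∈ F, |ef e k x| ≤ (2 * K + 2 : ℕ) * ‖x‖ :=
  sum_le_of_growth' h.singleton hK2 (norm_nonneg x)
    (fun _ hE => sum_ef_le h hX hE x) hF

theorem schN_bdd (x : X) : BddAbove {r | ∃ F ∈ schreier, r = ∑ k ∈ F, |ef e k x|} := by
  refine ⟨(2 * K + 2 : ℕ) * ‖x‖, ?_⟩
  rintro r ⟨F, hF, rfl⟩
  exact sum_sch_le h hX hK2 x hF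

theorem le_schN (x : X) {F : Finset ℕ} (hF : F ∈ schreier) :
    ∑ k ∈ F, |ef e k x| ≤ schN e x := le_csSup (schN_bdd h hX hK2 x) ⟨F, hF, rfl⟩

omit h hX hK2 in
theorem empty_mem_schreier : (∅ : Finset ℕ) ∈ schreier := fun k hk =>
  absurd hk (Finset.notMem_empty k)

omit h hX hK2 in
theorem schN_le (x : X) {B : ℝ} (hB : ∀ F ∈ schreier, ∑ k ∈ F, |ef e k x| ≤ B) :
    schN e x ≤ B := by
  refine csSup_le ⟨_, ∅, empty_mem_schreier, rfl⟩ ?_
  rintro r ⟨F, hF, rfl⟩
  exact hB F hF

theorem schN_le_norm (x : X) : schN e x ≤ (2 * K + 2 : ℕ) * ‖x‖ :=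
  schN_le x fun _ hF => sum_sch_le h hX hK2 x hF

theorem schN_nonneg (x : X) : 0 ≤ schN e x := by
  have := le_schN h hX hK2 x empty_mem_schreier
  simpa using this

include hK1 in
theorem norm_le_schN (x : X) : ‖x‖ ≤ K * schN e x := by
  refine le_of_forall_pos_le_add fun δ hδ => ?_
  have hK0 : (0 : ℝ) ≤ K := Nat.cast_nonneg K
  set η : ℝ := δ / (1 + K * (2 * K + 2)) with hη
  have hη0 : 0 < η := by positivity
  obtain ⟨a, ha⟩ := hX.dense.exists_dist_lt x hη0
  rw [dist_eq_norm] at ha
  have h1 : ‖Finsupp.linearCombination ℝ e a‖ ≤ K * (schN e x + (2 * K + 2 : ℕ) * η) := by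
    rw [hX.norm_eq]
    have hpos : 0 ≤ schN e x + (2 * K + 2 : ℕ) * η :=
      add_nonneg (schN_nonneg h hX hK2 x) (by positivity)
    refine combNorm_le a (by positivity) fun F hF => ?_
    refine sum_le_of_growth hK1 hpos (fun E hE => ?_) hF
    have h2 := le_schN h hX hK2 x hE
    have h3 := sum_sch_le h hX hK2 (x - Finsupp.linearCombination ℝ e a) hE
    have h4 : ∑ k ∈ E, |a k| ≤ ∑ k ∈ E, |ef e k x| +
        ∑ k ∈ E, |ef e k (x - Finsupp.linearCombination ℝ e a)| := by
      rw [← Finset.sum_add_distrib]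
      refine Finset.sum_le_sum fun k _ => ?_
      rw [map_sub, ef_emb h hX]
      have := abs_sub_abs_le_abs_sub (a k) (ef e k x)
      rw [abs_sub_comm (a k)] at this
      linarith
    have h5 : ((2 * K + 2 : ℕ) : ℝ) * ‖x - Finsupp.linearCombination ℝ e a‖ ≤
        (2 * K + 2 : ℕ) * η := mul_le_mul_of_nonneg_left ha.le (Nat.cast_nonneg _)
    linarith
  have h5 := norm_sub_norm_le x (Finsupp.linearCombination ℝ e a)
  have h6 : η * (1 + K * (2 * K + 2)) = δ := by
    rw [hη]
    field_simp
  push_cast at h1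
  nlinarith [h1, h5, h6, ha]

end Ren

/-- A copy of `X`, to carry the Schreier norm. -/
def Ren (X : Type*) := X

instance {X : Type*} [NormedAddCommGroup X] : AddCommGroup (Ren X) :=
  inferInstanceAs (AddCommGroup X)

instance {X : Type*} [NormedAddCommGroup X] [NormedSpace ℝ X] : Module ℝ (Ren X) :=
  inferInstanceAs (Module ℝ X)

universe u

/-- The absence of coordinatewise null sequences of isometries carries over from the Schreier
space to the combinatorial spaces of the families comparable with the Schreier family. -/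
theorem noNullIsom_of_schreierLike
    (hW : ∀ (Y : Type u) [NormedAddCommGroup Y] [NormedSpace ℝ Y] [CompleteSpace Y]
      (e' : ℕ → Y), IsCombSpace schreier e' → DPart.NoNullIsom e')
    {𝓕 : Set (Finset ℕ)} {X : Type u} [NormedAddCommGroup X] [NormedSpace ℝ X] [CompleteSpace X]
    {e : ℕ → X} (h : IsRegular 𝓕) (hX : IsCombSpace 𝓕 e) (hlike : SchreierLike 𝓕) :
    DPart.NoNullIsom e := by
  obtain ⟨K, hK1, hK2⟩ := hlike
  let toX : Ren X → X := fun x => x
  let instNorm : Norm (Ren X) := ⟨fun x => schN e (toX x)⟩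
  have hnorm : ∀ x : Ren X, ‖x‖ = schN e (toX x) := fun _ => rfl
  have core : NormedSpace.Core ℝ (Ren X) :=
    { norm_nonneg := fun x => schN_nonneg h hX hK2 (toX x)
      norm_smul := fun c x => by
        have h1 : ∀ (c : ℝ) (x : X), schN e (c • x) ≤ |c| * schN e x := by
          intro c x
          refine schN_le _ fun F hF => ?_
          have : ∑ k ∈ F, |ef e k (c • x)| = |c| * ∑ k ∈ F, |ef e k x| := by
            rw [Finset.mul_sum]
            refine Finset.sum_congr rfl fun k _ => ?_
            rw [map_smul, smul_eq_mul, abs_mul]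
          rw [this]
          exact mul_le_mul_of_nonneg_left (le_schN h hX hK2 x hF) (abs_nonneg c)
        refine le_antisymm (h1 c (toX x)) ?_
        rcases eq_or_ne c 0 with hc | hc
        · subst hc
          rw [norm_zero, zero_mul]
          exact schN_nonneg h hX hK2 _
        · have h2 := h1 c⁻¹ (c • toX x)
          rw [smul_smul, inv_mul_cancel₀ hc, one_smul, abs_inv] at h2
          have h3 : 0 < |c| := abs_pos.mpr hc
          rw [inv_mul_eq_div, le_div_iff₀ h3] at h2
          rw [Real.norm_eq_abs, mul_comm]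
          exact h2
      norm_triangle := fun x y => by
        refine schN_le _ fun F hF => ?_
        have h1 := le_schN h hX hK2 (toX x) hF
        have h2 := le_schN h hX hK2 (toX y) hF
        have h3 : ∑ k ∈ F, |ef e k (toX x + toX y)| ≤
            ∑ k ∈ F, |ef e k (toX x)| + ∑ k ∈ F, |ef e k (toX y)| := by
          rw [← Finset.sum_add_distrib]
          refine Finset.sum_le_sum fun k _ => ?_
          rw [map_add]
          exact abs_add_le _ _
        exact h3.trans (add_le_add h1 h2)
      norm_eq_zero_iff := fun x => by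
        constructor
        · intro hx
          have h1 := norm_le_schN h hX hK1 hK2 (toX x)
          rw [hnorm] at hx
          rw [hx, mul_zero] at h1
          exact norm_le_zero_iff.mp h1
        · rintro rfl
          rw [hnorm]
          refine le_antisymm (schN_le _ fun F _ => ?_) (schN_nonneg h hX hK2 _)
          show ∑ k ∈ F, |ef e k (0 : X)| ≤ 0
          simp }
  let inst1 : NormedAddCommGroup (Ren X) := NormedAddCommGroup.ofCore core
  let inst2 : NormedSpace ℝ (Ren X) := NormedSpace.ofCore core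
  have hnorm' : ∀ x : Ren X, ‖x‖ = schN e (toX x) := fun _ => rfl
  let L : X ≃ₗ[ℝ] Ren X := LinearEquiv.refl ℝ X
  let LC : X ≃L[ℝ] Ren X := L.toContinuousLinearEquivOfBounds (2 * K + 2 : ℕ) K
    (fun x => schN_le_norm h hX hK2 x) (fun x => norm_le_schN h hX hK1 hK2 x)
  have inst3 : CompleteSpace (Ren X) :=
    (completeSpace_congr (e := LC.toEquiv) LC.isUniformEmbedding).1 inferInstance
  set e' : ℕ → Ren X := fun k => LC (e k) with he'
  have hlin : ∀ a : ℕ →₀ ℝ, Finsupp.linearCombination ℝ e' a =
      LC (Finsupp.linearCombination ℝ e a) := by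
    intro a
    rw [Finsupp.linearCombination_apply, Finsupp.linearCombination_apply, map_finsuppSum]
    simp [he']
  have hY : IsCombSpace schreier e' := by
    refine ⟨fun a => ?_, ?_⟩
    · rw [hlin]
      show schN e (Finsupp.linearCombination ℝ e a) = _
      unfold schN combNorm
      simp only [ef_emb h hX]
    · have h1 : (Finsupp.linearCombination ℝ e' : (ℕ →₀ ℝ) → Ren X) =
          LC ∘ Finsupp.linearCombination ℝ e := by
        funext a
        exact hlin a
      rw [h1]
      exact LC.surjective.denseRange.comp hX.dense LC.continuous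
  have hef : ∀ k (x : X), ef e' k (LC x) = ef e k x := by
    intro k x
    have h1 : Continuous fun x : X => ef e' k (LC x) := (ef e' k).continuous.comp LC.continuous
    refine congrFun (hX.dense.equalizer h1 (ef e k).continuous ?_) x
    funext a
    show ef e' k (LC (Finsupp.linearCombination ℝ e a)) = ef e k (Finsupp.linearCombination ℝ e a)
    rw [← hlin, ef_emb schreier_regular hY, ef_emb h hX]
  intro N c C hc hN g hg
  have hK0 : (0 : ℝ) ≤ K := Nat.cast_nonneg K
  have hK2' : (0 : ℝ) < (2 * K + 2 : ℕ) := by positivity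
  refine hW (Ren X) e' hY (N.comp (LC.symm.toLinearEquiv : Ren X →ₗ[ℝ] X))
    (c / (2 * K + 2 : ℕ)) (|C| * K) (by positivity) (fun y => ?_)
    (fun n => ⟨(LC.symm.toLinearEquiv.trans (g n : X ≃ₗ[ℝ] X)).trans LC.toLinearEquiv,
      fun y => ?_⟩) fun y k => ?_
  · have h1 := hN (LC.symm y)
    have h2 : ‖y‖ ≤ (2 * K + 2 : ℕ) * ‖LC.symm y‖ := schN_le_norm h hX hK2 _
    have h3 : ‖LC.symm y‖ ≤ K * ‖y‖ := norm_le_schN h hX hK1 hK2 _
    have h4 : (N.comp (LC.symm.toLinearEquiv : Ren X →ₗ[ℝ] X)) y = N (LC.symm y) := rfl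
    rw [h4]
    constructor
    · refine le_trans ?_ h1.1
      rw [div_mul_eq_mul_div, div_le_iff₀ hK2']
      nlinarith
    · refine h1.2.trans ?_
      have h5 : C * ‖LC.symm y‖ ≤ |C| * ‖LC.symm y‖ :=
        mul_le_mul_of_nonneg_right (le_abs_self C) (norm_nonneg _)
      refine h5.trans ?_
      rw [mul_assoc]
      exact mul_le_mul_of_nonneg_left h3 (abs_nonneg C)
  · show N (LC.symm (LC ((g n : X ≃ₗ[ℝ] X) (LC.symm y)))) = N (LC.symm y)
    rw [ContinuousLinearEquiv.symm_apply_apply]
    exact (g n).2 _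
  · have h1 := hg (LC.symm y) k
    refine h1.congr fun n => ?_
    rw [← hef]
    rfl

end Pool.Agent.Comb7f333f
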