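import Pool.Agent.Lib.MP_7f333f_an.SpikeNorm

set_option autoImplicit false

/-!
Systems of spikes which encode a set of tuples of points: every isometry of the spike norm comes
from a permutation of the points which preserves the set of tuples.
-/

namespace Pool.Agent.Comb7f333f

/-- The coefficients used to encode the entries of a tuple. -/
noncomputable def cc (j : ℕ) : ℝ := (1 / 20) * (1 / 8) ^ j

/-- The label of a tuple of length `n + 1`. -/
noncomputable def gam (n : ℕ) : ℝ := 1 + (1 / 200) * (1 + (1 / 2) ^ n)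

/-- The size of the additional vectors. -/
noncomputable def del (n : ℕ) : ℝ := (1 / 10000) * (1 / 8) ^ n

theorem cc_pos (j : ℕ) : 0 < cc j := by unfold cc; positivity

theorem cc_succ (j : ℕ) : cc (j + 1) = cc j / 8 := by unfold cc; rw [pow_succ]; ring

theorem cc_zero : cc 0 = 1 / 20 := by simp [cc]

theorem sum_cc_shift (j m : ℕ) : ∑ i ∈ Finset.range m, cc (j + 1 + i) ≤ cc j / 7 := by
  have h : ∀ m, ∑ i ∈ Finset.range m, cc (j + 1 + i) = (cc j / 7) * (1 - (1 / 8) ^ m) := by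
    intro m
    induction m with
    | zero => simp
    | succ m ih =>
      rw [Finset.sum_range_succ, ih]
      unfold cc
      rw [pow_add, pow_add, pow_succ]
      ring
  rw [h]
  have h1 : (0 : ℝ) ≤ (1 / 8) ^ m := by positivity
  nlinarith [cc_pos j]

theorem sum_cc (m : ℕ) : ∑ i ∈ Finset.range m, cc i ≤ 2 / 35 := by
  cases m with
  | zero => simp; norm_num
  | succ m =>
    rw [Finset.sum_range_succ']
    have h := sum_cc_shift 0 m
    have h2 : ∑ i ∈ Finset.range m, cc (0 + 1 + i) = ∑ i ∈ Finset.range m, cc (i + 1) :=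
      Finset.sum_congr rfl fun i _ => by congr 1; omega
    rw [h2, cc_zero] at h
    rw [cc_zero]
    linarith

theorem one_lt_gam (n : ℕ) : 1 + 1 / 200 ≤ gam n := by
  unfold gam
  have : (0 : ℝ) ≤ (1 / 2) ^ n := by positivity
  linarith

theorem gam_le (n : ℕ) : gam n ≤ 1 + 1 / 100 := by
  unfold gam
  have : ((1 : ℝ) / 2) ^ n ≤ 1 := pow_le_one₀ (by norm_num) (by norm_num)
  linarith

theorem gam_sep (n m : ℕ) (h : n ≠ m) : (1 / 400) * (1 / 2) ^ n ≤ |gam n - gam m| := by
  unfold gam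
  have e : (1 : ℝ) + 1 / 200 * (1 + (1 / 2) ^ n) - (1 + 1 / 200 * (1 + (1 / 2) ^ m)) =
    (1 / 200) * ((1 / 2) ^ n - (1 / 2) ^ m) := by ring
  rw [e, abs_mul, abs_of_pos (by norm_num : (0 : ℝ) < 1 / 200)]
  rcases lt_or_gt_of_ne h with h | h
  · have h1 : ((1 : ℝ) / 2) ^ m ≤ (1 / 2) ^ (n + 1) :=
      pow_le_pow_of_le_one (by norm_num) (by norm_num) h
    rw [pow_succ] at h1
    have h2 := le_abs_self (((1 : ℝ) / 2) ^ n - (1 / 2) ^ m)
    linarith
  · have h1 : ((1 : ℝ) / 2) ^ n ≤ (1 / 2) ^ (m + 1) :=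
      pow_le_pow_of_le_one (by norm_num) (by norm_num) h
    rw [pow_succ] at h1
    have h2 := neg_abs_le (((1 : ℝ) / 2) ^ n - (1 / 2) ^ m)
    have h3 : (0 : ℝ) ≤ (1 / 2) ^ n := by positivity
    linarith

theorem del_pos (n : ℕ) : 0 < del n := by unfold del; positivity

theorem del_le (n : ℕ) : del n ≤ 1 / 10000 := by
  unfold del
  have : ((1 : ℝ) / 8) ^ n ≤ 1 := pow_le_one₀ (by norm_num) (by norm_num)
  linarith

theorem del_le_cc (n j : ℕ) (h : j ≤ n) : del n ≤ cc j / 500 := by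
  unfold del cc
  have : ((1 : ℝ) / 8) ^ n ≤ (1 / 8) ^ j := pow_le_pow_of_le_one (by norm_num) (by norm_num) h
  linarith

theorem del_le_gam (n : ℕ) : del n ≤ (1 / 10000) * (1 / 2) ^ n := by
  unfold del
  have : ((1 : ℝ) / 8) ^ n ≤ (1 / 2) ^ n := pow_le_pow_left₀ (by norm_num) (by norm_num) n
  linarith

/-- A system of points and tuples with its coordinates in a seminormed space. -/
structure SpikeSystem (V : Type*) [AddCommGroup V] [Module ℝ V] (P Q : Type*) where
  q : Seminorm ℝ V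
  q_def : ∀ x, q x = 0 → x = 0
  zP : P → P
  zQ : Q → Q
  zP_ne : ∀ p, zP p ≠ p
  zQ_ne : ∀ t, zQ t ≠ t
  aP : P → V
  aQ : Q → V
  fP : P → V →ₗ[ℝ] ℝ
  fQ : Q → V →ₗ[ℝ] ℝ
  aP_z : ∀ p, aP (zP p) = - aP p
  aQ_z : ∀ t, aQ (zQ t) = - aQ t
  q_aP : ∀ p, q (aP p) ≤ 2
  q_aQ : ∀ t, q (aQ t) ≤ 2
  fP_le : ∀ p x, |fP p x| ≤ q x
  fQ_le : ∀ t x, |fQ t x| ≤ q x
  fP_aP_self : ∀ p, fP p (aP p) = 2
  fP_aP_ne : ∀ p p', p' ≠ p → p' ≠ zP p → fP p (aP p') = 0
  fP_aQ : ∀ p t, fP p (aQ t) = 0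
  fQ_aP : ∀ t p, fQ t (aP p) = 0
  fQ_aQ_self : ∀ t, fQ t (aQ t) = 2
  fQ_aQ_ne : ∀ t t', t' ≠ t → t' ≠ zQ t → fQ t (aQ t') = 0
  far : ∀ y, q y ≤ 1 → ∃ p : P, q (y + (1 / 4 : ℝ) • aP p) ≤ 1 ∧ q (y - (1 / 4 : ℝ) • aP p) ≤ 1
  len : Q → ℕ
  tup : Q → ℕ → P
  len_z : ∀ t, len (zQ t) = len t
  tup_z : ∀ t, ∀ j ≤ len t, tup (zQ t) j = zP (tup t j)
  zeta : Q → V
  zeta_z : ∀ t, zeta (zQ t) = - zeta t
  q_zeta : ∀ t, q (zeta t) ≤ del (len t)
  fP_zeta : ∀ p t, fP p (zeta t) = 0
  fQ_zeta : ∀ t' t, fQ t' (zeta t) = 0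

/-- The indices of the spikes. -/
inductive Idx (P Q : Type*)
  | pt (p : P) : Idx P Q
  | tA (t : Q) : Idx P Q
  | tV (t : Q) : Idx P Q

namespace SpikeSystem

variable {V : Type*} [AddCommGroup V] [Module ℝ V] {P Q : Type*} (S : SpikeSystem V P Q)

/-- The vector which encodes a tuple. -/
noncomputable def w (t : Q) : V :=
  ∑ j ∈ Finset.range (S.len t + 1), cc j • S.aP (S.tup t j) + S.zeta t

/-- The second spike of a tuple. -/
noncomputable def v (t : Q) : V := gam (S.len t) • S.aQ t + S.w t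

/-- The family of all spikes. -/
noncomputable def spk : Idx P Q → V
  | .pt p => S.aP p
  | .tA t => S.aQ t
  | .tV t => S.v t

/-- The new norm. -/
noncomputable def N : Seminorm ℝ V := spikeNorm S.q S.spk

theorem w_z (t : Q) : S.w (S.zQ t) = - S.w t := by
  unfold w
  rw [S.zeta_z, S.len_z, neg_add, ← Finset.sum_neg_distrib]
  congr 1
  refine Finset.sum_congr rfl fun j hj => ?_
  rw [S.tup_z t j (by simpa [Nat.lt_succ_iff] using hj), S.aP_z, smul_neg]

theorem v_z (t : Q) : S.v (S.zQ t) = - S.v t := by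
  unfold v
  rw [S.w_z, S.len_z, S.aQ_z, smul_neg, neg_add]

theorem fP_aP_nonpos (p p' : P) (h : p' ≠ p) : S.fP p (S.aP p') ≤ 0 := by
  by_cases h' : p' = S.zP p
  · rw [h', S.aP_z, map_neg, S.fP_aP_self]; norm_num
  · rw [S.fP_aP_ne p p' h h']

theorem abs_fP_aP (p p' : P) : |S.fP p (S.aP p')| ≤ 2 := (S.fP_le _ _).trans (S.q_aP _)

theorem fQ_aQ_nonpos (t t' : Q) (h : t' ≠ t) : S.fQ t (S.aQ t') ≤ 0 := by
  by_cases h' : t' = S.zQ t
  · rw [h', S.aQ_z, map_neg, S.fQ_aQ_self]; norm_num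
  · rw [S.fQ_aQ_ne t t' h h']

theorem abs_fQ_aQ (t t' : Q) : |S.fQ t (S.aQ t')| ≤ 2 := (S.fQ_le _ _).trans (S.q_aQ _)

theorem fQ_w (t' t : Q) : S.fQ t' (S.w t) = 0 := by
  unfold w
  rw [map_add, map_sum, S.fQ_zeta, add_zero]
  exact Finset.sum_eq_zero fun j _ => by rw [map_smul, S.fQ_aP, smul_zero]

theorem fP_w (p : P) (t : Q) : S.fP p (S.w t) =
    ∑ j ∈ Finset.range (S.len t + 1), cc j * S.fP p (S.aP (S.tup t j)) := by
  unfold w
  rw [map_add, map_sum, S.fP_zeta, add_zero]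
  exact Finset.sum_congr rfl fun j _ => by rw [map_smul, smul_eq_mul]

theorem abs_fP_w (p : P) (t : Q) : |S.fP p (S.w t)| ≤ 4 / 35 := by
  rw [S.fP_w]
  refine (Finset.abs_sum_le_sum_abs _ _).trans ?_
  have h : ∀ j ∈ Finset.range (S.len t + 1), |cc j * S.fP p (S.aP (S.tup t j))| ≤ cc j * 2 := by
    intro j _
    rw [abs_mul, abs_of_pos (cc_pos j)]
    exact mul_le_mul_of_nonneg_left (S.abs_fP_aP _ _) (cc_pos j).le
  refine (Finset.sum_le_sum h).trans ?_
  rw [← Finset.sum_mul]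
  have := sum_cc (S.len t + 1)
  linarith

theorem fP_w_first (t : Q) : 3 / 35 ≤ S.fP (S.tup t 0) (S.w t) := by
  rw [S.fP_w, Finset.sum_range_succ', S.fP_aP_self, cc_zero]
  have h : ∀ j ∈ Finset.range (S.len t), - (2 * cc (0 + 1 + j)) ≤
      cc (j + 1) * S.fP (S.tup t 0) (S.aP (S.tup t (j + 1))) := by
    intro j _
    have e : 0 + 1 + j = j + 1 := by omega
    rw [e]
    have h1 := neg_abs_le (S.fP (S.tup t 0) (S.aP (S.tup t (j + 1))))
    have h2 := S.abs_fP_aP (S.tup t 0) (S.tup t (j + 1))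
    nlinarith [cc_pos (j + 1)]
  have h2 := Finset.sum_le_sum h
  rw [Finset.sum_neg_distrib, ← Finset.mul_sum] at h2
  have h3 := sum_cc_shift 0 (S.len t)
  rw [cc_zero] at h3
  linarith

theorem q_w (t : Q) : S.q (S.w t) ≤ 23 / 200 := by
  unfold w
  refine (map_add_le_add _ _ _).trans ?_
  have h1 : S.q (∑ j ∈ Finset.range (S.len t + 1), cc j • S.aP (S.tup t j)) ≤ 4 / 35 := by
    refine (seminorm_sum_le _ _ _).trans ?_
    have h : ∀ j ∈ Finset.range (S.len t + 1), S.q (cc j • S.aP (S.tup t j)) ≤ cc j * 2 := by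
      intro j _
      rw [map_smul_eq_mul, Real.norm_eq_abs, abs_of_pos (cc_pos j)]
      exact mul_le_mul_of_nonneg_left (S.q_aP _) (cc_pos j).le
    refine (Finset.sum_le_sum h).trans ?_
    rw [← Finset.sum_mul]
    have := sum_cc (S.len t + 1)
    linarith
  have h2 := S.q_zeta t
  have h3 := del_le (S.len t)
  linarith

theorem fP_v (p : P) (t : Q) : S.fP p (S.v t) = S.fP p (S.w t) := by
  unfold v; rw [map_add, map_smul, S.fP_aQ, smul_zero, zero_add]

theorem fQ_v (t' t : Q) : S.fQ t' (S.v t) = gam (S.len t) * S.fQ t' (S.aQ t) := by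
  unfold v; rw [map_add, map_smul, S.fQ_w, add_zero, smul_eq_mul]

theorem q_spk (i : Idx P Q) : S.q (S.spk i) ≤ 3 := by
  cases i with
  | pt p => exact (S.q_aP p).trans (by norm_num)
  | tA t => exact (S.q_aQ t).trans (by norm_num)
  | tV t =>
    show S.q (gam (S.len t) • S.aQ t + S.w t) ≤ 3
    refine (map_add_le_add _ _ _).trans ?_
    rw [map_smul_eq_mul, Real.norm_eq_abs, abs_of_pos (by linarith [one_lt_gam (S.len t)])]
    have h1 := S.q_w t
    have h2 := S.q_aQ t
    have h3 := gam_le (S.len t)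
    have h4 := one_lt_gam (S.len t)
    have h5 := apply_nonneg S.q (S.aQ t)
    nlinarith

theorem q_le (x : V) : S.q x ≤ 3 * S.N x :=
  le_mul_spikeNorm S.q S.spk 3 (by norm_num) S.q_spk x

theorem N_le (x : V) : S.N x ≤ S.q x := spikeNorm_le _ _ _

theorem N_def (x : V) (h : S.N x = 0) : x = 0 :=
  S.q_def x (le_antisymm (by simpa [h] using S.q_le x) (apply_nonneg _ _))

theorem N_spk (i : Idx P Q) : S.N (S.spk i) ≤ 1 := spikeNorm_spike _ _ _

theorem abs_fP_spk (p : P) (i : Idx P Q) : |S.fP p (S.spk i)| ≤ 21 / 10 := by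
  cases i with
  | pt p' => exact (S.abs_fP_aP p p').trans (by norm_num)
  | tA t => show |S.fP p (S.aQ t)| ≤ _; rw [S.fP_aQ, abs_zero]; norm_num
  | tV t => show |S.fP p (S.v t)| ≤ _; rw [S.fP_v]; exact (S.abs_fP_w p t).trans (by norm_num)

theorem abs_fQ_spk (t' : Q) (i : Idx P Q) : |S.fQ t' (S.spk i)| ≤ 21 / 10 := by
  cases i with
  | pt p' => show |S.fQ t' (S.aP p')| ≤ _; rw [S.fQ_aP, abs_zero]; norm_num
  | tA t => exact (S.abs_fQ_aQ t' t).trans (by norm_num)
  | tV t =>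
    show |S.fQ t' (S.v t)| ≤ _
    rw [S.fQ_v, abs_mul, abs_of_pos (by linarith [one_lt_gam (S.len t)])]
    have h1 := S.abs_fQ_aQ t' t
    have h2 := gam_le (S.len t)
    have h3 := one_lt_gam (S.len t)
    have h4 := abs_nonneg (S.fQ t' (S.aQ t))
    nlinarith

theorem le_N_of (φ : V →ₗ[ℝ] ℝ) (h1 : ∀ x, |φ x| ≤ S.q x)
    (h2 : ∀ i, |φ (S.spk i)| ≤ 21 / 10) (x : V) : |φ x| ≤ 21 / 10 * S.N x := by
  have h := abs_le_spikeNorm S.q S.spk ((10 / 21 : ℝ) • φ)
    (fun x => by
      rw [LinearMap.smul_apply, smul_eq_mul, abs_mul, abs_of_pos (by norm_num)]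
      have := h1 x
      have h3 := abs_nonneg (φ x)
      linarith)
    (fun i => by
      rw [LinearMap.smul_apply, smul_eq_mul, abs_mul, abs_of_pos (by norm_num)]
      have := h2 i
      linarith) x
  rw [LinearMap.smul_apply, smul_eq_mul, abs_mul, abs_of_pos (by norm_num)] at h
  show _ ≤ 21 / 10 * spikeNorm S.q S.spk x
  linarith

theorem fP_le_N (p : P) (x : V) : |S.fP p x| ≤ 21 / 10 * S.N x :=
  S.le_N_of _ (S.fP_le p) (S.abs_fP_spk p) x

theorem fQ_le_N (t : Q) (x : V) : |S.fQ t x| ≤ 21 / 10 * S.N x :=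
  S.le_N_of _ (S.fQ_le t) (S.abs_fQ_spk t) x

/-! ### Distances between spikes -/

theorem N_close (t : Q) : S.N (S.aQ t - S.v t) ≤ 14 / 100 := by
  refine (S.N_le _).trans ?_
  have h : S.aQ t - S.v t = - ((gam (S.len t) - 1) • S.aQ t + S.w t) := by
    unfold v; rw [sub_smul, one_smul]; abel
  rw [h, map_neg_eq_map]
  refine (map_add_le_add _ _ _).trans ?_
  rw [map_smul_eq_mul, Real.norm_eq_abs, abs_of_pos (by linarith [one_lt_gam (S.len t)])]
  have h1 := S.q_w t
  have h2 := S.q_aQ t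
  have h3 := gam_le (S.len t)
  have h4 := one_lt_gam (S.len t)
  have h5 := apply_nonneg S.q (S.aQ t)
  nlinarith

theorem N_far (i j : Idx P Q) (h : i ≠ j) : 
    (∃ t, (i = .tA t ∧ j = .tV t) ∨ (i = .tV t ∧ j = .tA t)) ∨
      89 / 100 ≤ S.N (S.spk i - S.spk j) := by
  have hf : ∀ x : V, (∃ p, 66 / 35 ≤ S.fP p x) ∨ (∃ t, 66 / 35 ≤ S.fQ t x) →
      89 / 100 ≤ S.N x := by
    rintro x (⟨p, hp⟩ | ⟨t, ht⟩)
    · have := (le_abs_self _).trans (S.fP_le_N p x); linarith
    · have := (le_abs_self _).trans (S.fQ_le_N t x); linarith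
  have hg : ∀ n, (1 : ℝ) ≤ gam n := fun n => by linarith [one_lt_gam n]
  cases i with
  | pt p =>
    right
    refine hf _ (Or.inl ⟨p, ?_⟩)
    cases j with
    | pt p' =>
      show _ ≤ S.fP p (S.aP p - S.aP p')
      have := S.fP_aP_nonpos p p' (by rintro rfl; exact h rfl)
      rw [map_sub, S.fP_aP_self]; linarith
    | tA t =>
      show _ ≤ S.fP p (S.aP p - S.aQ t)
      rw [map_sub, S.fP_aP_self, S.fP_aQ]; norm_num
    | tV t =>
      show _ ≤ S.fP p (S.aP p - S.v t)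
      have := (le_abs_self _).trans (S.abs_fP_w p t)
      rw [map_sub, S.fP_aP_self, S.fP_v]; linarith
  | tA t =>
    cases j with
    | pt p' =>
      right
      refine hf _ (Or.inr ⟨t, ?_⟩)
      show _ ≤ S.fQ t (S.aQ t - S.aP p')
      rw [map_sub, S.fQ_aQ_self, S.fQ_aP]; norm_num
    | tA t' =>
      right
      refine hf _ (Or.inr ⟨t, ?_⟩)
      show _ ≤ S.fQ t (S.aQ t - S.aQ t')
      have := S.fQ_aQ_nonpos t t' (by rintro rfl; exact h rfl)
      rw [map_sub, S.fQ_aQ_self]; linarith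
    | tV t' =>
      by_cases htt : t' = t
      · subst htt; exact Or.inl ⟨t', Or.inl ⟨rfl, rfl⟩⟩
      right
      refine hf _ (Or.inr ⟨t, ?_⟩)
      show _ ≤ S.fQ t (S.aQ t - S.v t')
      have h1 := S.fQ_aQ_nonpos t t' htt
      have h2 := hg (S.len t')
      rw [map_sub, S.fQ_aQ_self, S.fQ_v]; nlinarith
  | tV t =>
    cases j with
    | pt p' =>
      right
      refine hf _ (Or.inr ⟨t, ?_⟩)
      show _ ≤ S.fQ t (S.v t - S.aP p')
      have h2 := hg (S.len t)
      rw [map_sub, S.fQ_v, S.fQ_aQ_self, S.fQ_aP]; linarith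
    | tA t' =>
      by_cases htt : t' = t
      · subst htt; exact Or.inl ⟨t', Or.inr ⟨rfl, rfl⟩⟩
      right
      refine hf _ (Or.inr ⟨t, ?_⟩)
      show _ ≤ S.fQ t (S.v t - S.aQ t')
      have h1 := S.fQ_aQ_nonpos t t' htt
      have h2 := hg (S.len t)
      rw [map_sub, S.fQ_v, S.fQ_aQ_self]; linarith
    | tV t' =>
      right
      refine hf _ (Or.inr ⟨t, ?_⟩)
      show _ ≤ S.fQ t (S.v t - S.v t')
      have h1 := S.fQ_aQ_nonpos t t' (by rintro rfl; exact h rfl)
      have h2 := hg (S.len t)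
      have h3 := hg (S.len t')
      rw [map_sub, S.fQ_v, S.fQ_v, S.fQ_aQ_self]; nlinarith

theorem N_sep_pair (t : Q) : 1 / 25 ≤ S.N (S.aQ t - S.v t) := by
  have h1 := S.fP_le_N (S.tup t 0) (S.aQ t - S.v t)
  have h2 := S.fP_w_first t
  rw [map_sub, S.fP_aQ, S.fP_v, zero_sub, abs_neg] at h1
  have h3 := le_abs_self (S.fP (S.tup t 0) (S.w t))
  linarith

theorem N_sep (i j : Idx P Q) (h : i ≠ j) : 1 / 25 ≤ S.N (S.spk i - S.spk j) := by
  rcases S.N_far i j h with ⟨t, ⟨rfl, rfl⟩ | ⟨rfl, rfl⟩⟩ | h'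
  · exact S.N_sep_pair t
  · rw [map_sub_rev]; exact S.N_sep_pair t
  · linarith

theorem spk_injective : Function.Injective S.spk := by
  intro i j hij
  by_contra h
  have := S.N_sep i j h
  rw [hij, sub_self, map_zero] at this
  norm_num at this

/-! ### Certificates -/

theorem spk_sym (i : Idx P Q) : ∃ j, S.spk j = - S.spk i := by
  cases i with
  | pt p => exact ⟨.pt (S.zP p), S.aP_z p⟩
  | tA t => exact ⟨.tA (S.zQ t), S.aQ_z t⟩
  | tV t => exact ⟨.tV (S.zQ t), S.v_z t⟩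

theorem dent_spk (i : Idx P Q) : Dent S.N (S.spk i) := by
  cases i with
  | pt p =>
    refine dent_of_certificate S.q S.spk (1 / 50) (by norm_num) (.pt p) ((1 / 2 : ℝ) • S.fP p)
      ?_ ?_ ?_
    · show (1 / 2 : ℝ) * S.fP p (S.aP p) = 1
      rw [S.fP_aP_self]; norm_num
    · intro x
      show |(1 / 2 : ℝ) * S.fP p x| ≤ _
      rw [abs_mul, abs_of_pos (by norm_num)]
      have := S.fP_le p x
      have := apply_nonneg S.q x
      linarith
    · intro j
      cases j with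
      | pt p' =>
        by_cases h1 : p' = p
        · left; rw [h1]
        by_cases h2 : p' = S.zP p
        · right; left; rw [h2]; exact S.aP_z p
        right; right
        show |(1 / 2 : ℝ) * S.fP p (S.aP p')| ≤ _
        rw [S.fP_aP_ne p p' h1 h2]; norm_num
      | tA t =>
        right; right
        show |(1 / 2 : ℝ) * S.fP p (S.aQ t)| ≤ _
        rw [S.fP_aQ]; norm_num
      | tV t =>
        right; right
        show |(1 / 2 : ℝ) * S.fP p (S.v t)| ≤ _
        rw [S.fP_v, abs_mul, abs_of_pos (by norm_num)]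
        have := S.abs_fP_w p t
        linarith
  | tA t =>
    refine dent_of_certificate S.q S.spk (1 / 50) (by norm_num) (.tA t)
      ((1 / 2 : ℝ) • S.fQ t - (2 / 5 : ℝ) • S.fP (S.tup t 0)) ?_ ?_ ?_
    · show (1 / 2 : ℝ) * S.fQ t (S.aQ t) - (2 / 5 : ℝ) * S.fP (S.tup t 0) (S.aQ t) = 1
      rw [S.fQ_aQ_self, S.fP_aQ]; norm_num
    · intro x
      show |(1 / 2 : ℝ) * S.fQ t x - (2 / 5 : ℝ) * S.fP (S.tup t 0) x| ≤ _
      refine (abs_sub _ _).trans ?_
      rw [abs_mul, abs_mul, abs_of_pos (by norm_num : (0 : ℝ) < 1 / 2),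
        abs_of_pos (by norm_num : (0 : ℝ) < 2 / 5)]
      have := S.fP_le (S.tup t 0) x
      have := S.fQ_le t x
      have := apply_nonneg S.q x
      linarith
    · intro j
      cases j with
      | pt p' =>
        right; right
        show |(1 / 2 : ℝ) * S.fQ t (S.aP p') - (2 / 5 : ℝ) * S.fP (S.tup t 0) (S.aP p')| ≤ _
        rw [S.fQ_aP, mul_zero, zero_sub, abs_neg, abs_mul, abs_of_pos (by norm_num)]
        have := S.abs_fP_aP (S.tup t 0) p'
        linarith
      | tA t' =>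
        by_cases h1 : t' = t
        · left; rw [h1]
        by_cases h2 : t' = S.zQ t
        · right; left; rw [h2]; exact S.aQ_z t
        right; right
        show |(1 / 2 : ℝ) * S.fQ t (S.aQ t') - (2 / 5 : ℝ) * S.fP (S.tup t 0) (S.aQ t')| ≤ _
        rw [S.fP_aQ, S.fQ_aQ_ne t t' h1 h2]; norm_num
      | tV t' =>
        right; right
        show |(1 / 2 : ℝ) * S.fQ t (S.v t') - (2 / 5 : ℝ) * S.fP (S.tup t 0) (S.v t')| ≤ _
        rw [S.fQ_v, S.fP_v]
        have e1 := S.abs_fP_w (S.tup t 0) t'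
        have e1' := abs_le.mp e1
        by_cases h1 : t' = t
        · rw [h1, S.fQ_aQ_self]
          have e2 := S.fP_w_first t
          have e3 := gam_le (S.len t)
          have e4 := one_lt_gam (S.len t)
          rw [h1] at e1'
          rw [abs_le]; constructor <;> linarith [e1'.1, e1'.2]
        by_cases h2 : t' = S.zQ t
        · rw [h2, S.w_z, map_neg, S.aQ_z, map_neg, S.fQ_aQ_self, S.len_z]
          have e2 := S.fP_w_first t
          have e3 := gam_le (S.len t)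
          have e4 := one_lt_gam (S.len t)
          rw [h2, S.w_z, map_neg] at e1'
          rw [abs_le]; constructor <;> linarith [e1'.1, e1'.2]
        · rw [S.fQ_aQ_ne t t' h1 h2, abs_le]; constructor <;> linarith [e1'.1, e1'.2]
  | tV t =>
    set β := S.fP (S.tup t 0) (S.w t) with hβ
    have e1 := abs_le.mp (S.abs_fP_w (S.tup t 0) t)
    rw [← hβ] at e1
    have e2 := S.fP_w_first t
    rw [← hβ] at e2
    have e3 := gam_le (S.len t)
    have e4 := one_lt_gam (S.len t)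
    set α := (1 - 2 / 5 * β) / (2 * gam (S.len t)) with hα
    have hαg : α * (2 * gam (S.len t)) = 1 - 2 / 5 * β := by
      rw [hα]; field_simp
    have hα0 : 0 < α := by rw [hα]; apply div_pos <;> linarith [e1.2]
    have hα1 : 2 * α ≤ 97 / 100 := by nlinarith
    refine dent_of_certificate S.q S.spk (1 / 50) (by norm_num) (.tV t)
      (α • S.fQ t + (2 / 5 : ℝ) • S.fP (S.tup t 0)) ?_ ?_ ?_
    · show α * S.fQ t (S.v t) + (2 / 5 : ℝ) * S.fP (S.tup t 0) (S.v t) = 1
      rw [S.fQ_v, S.fP_v, S.fQ_aQ_self, ← hβ]; linarith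
    · intro x
      show |α * S.fQ t x + (2 / 5 : ℝ) * S.fP (S.tup t 0) x| ≤ _
      refine (abs_add_le _ _).trans ?_
      rw [abs_mul, abs_mul, abs_of_pos hα0, abs_of_pos (by norm_num : (0 : ℝ) < 2 / 5)]
      have h1 := S.fP_le (S.tup t 0) x
      have h2 := S.fQ_le t x
      have h3 := apply_nonneg S.q x
      nlinarith
    · intro j
      cases j with
      | pt p' =>
        right; right
        show |α * S.fQ t (S.aP p') + (2 / 5 : ℝ) * S.fP (S.tup t 0) (S.aP p')| ≤ _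
        rw [S.fQ_aP, mul_zero, zero_add, abs_mul, abs_of_pos (by norm_num)]
        have := S.abs_fP_aP (S.tup t 0) p'
        linarith
      | tA t' =>
        right; right
        show |α * S.fQ t (S.aQ t') + (2 / 5 : ℝ) * S.fP (S.tup t 0) (S.aQ t')| ≤ _
        rw [S.fP_aQ, mul_zero, add_zero, abs_mul, abs_of_pos hα0]
        have := S.abs_fQ_aQ t t'
        nlinarith
      | tV t' =>
        by_cases h1 : t' = t
        · left; rw [h1]
        by_cases h2 : t' = S.zQ t
        · right; left; rw [h2]; exact S.v_z t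
        right; right
        show |α * S.fQ t (S.v t') + (2 / 5 : ℝ) * S.fP (S.tup t 0) (S.v t')| ≤ _
        rw [S.fQ_v, S.fP_v, S.fQ_aQ_ne t t' h1 h2, mul_zero, mul_zero, zero_add, abs_mul,
          abs_of_pos (by norm_num)]
        have := S.abs_fP_w (S.tup t 0) t'
        linarith

theorem far' (y : V) (hy : S.q y ≤ 1) :
    ∃ u, 1 / 5 ≤ S.N u ∧ S.q (y + u) ≤ 1 ∧ S.q (y - u) ≤ 1 := by
  obtain ⟨p, h1, h2⟩ := S.far y hy
  refine ⟨_, ?_, h1, h2⟩
  have h3 := S.fP_le_N p ((1 / 4 : ℝ) • S.aP p)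
  rw [map_smul, S.fP_aP_self, smul_eq_mul, abs_of_pos (by norm_num)] at h3
  linarith

section Isometry

variable (T : V ≃ₗ[ℝ] V) (hT : ∀ x, S.N (T x) = S.N x)

include hT

theorem exists_idx (i : Idx P Q) : ∃ j, T (S.spk i) = S.spk j :=
  exists_spike_map S.q S.spk S.N_def S.spk_sym (1 / 5) (by norm_num) S.far' (1 / 25)
    (by norm_num) (fun i j h => S.N_sep i j fun h' => h (by rw [h'])) S.dent_spk T hT i

theorem symm_isom (x : V) : S.N (T.symm x) = S.N x := by
  rw [← hT (T.symm x)]; simp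

theorem pair_map (t : Q) : ∃ t', (T (S.aQ t) = S.aQ t' ∧ T (S.v t) = S.v t') ∨
    (T (S.aQ t) = S.v t' ∧ T (S.v t) = S.aQ t') := by
  obtain ⟨i, hi⟩ := S.exists_idx T hT (.tA t)
  obtain ⟨j, hj⟩ := S.exists_idx T hT (.tV t)
  change T (S.aQ t) = _ at hi
  change T (S.v t) = _ at hj
  have hne : i ≠ j := by
    rintro rfl
    have h1 : S.aQ t = S.v t := T.injective (hi.trans hj.symm)
    have h2 := S.N_sep_pair t
    rw [h1, sub_self, map_zero] at h2
    norm_num at h2
  rcases S.N_far i j hne with ⟨t', ⟨rfl, rfl⟩ | ⟨rfl, rfl⟩⟩ | h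
  · exact ⟨t', Or.inl ⟨hi, hj⟩⟩
  · exact ⟨t', Or.inr ⟨hi, hj⟩⟩
  · exfalso
    rw [← hi, ← hj, ← map_sub, hT] at h
    have := S.N_close t
    linarith

theorem pt_map (p : P) : ∃ p', T (S.aP p) = S.aP p' := by
  obtain ⟨i, hi⟩ := S.exists_idx T hT (.pt p)
  change T (S.aP p) = _ at hi
  have hbad : ∀ t, ¬ (T (S.aP p) = S.aQ t ∨ T (S.aP p) = S.v t) := by
    intro t ht
    have hp : ∀ t', S.aP p ≠ S.aQ t' ∧ S.aP p ≠ S.v t' := by
      intro t'
      constructor
      · intro h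
        have := S.spk_injective (a₁ := .pt p) (a₂ := .tA t') h
        cases this
      · intro h
        have := S.spk_injective (a₁ := .pt p) (a₂ := .tV t') h
        cases this
    rcases S.pair_map T.symm (S.symm_isom T hT) t with ⟨t', ⟨h1, h2⟩ | ⟨h1, h2⟩⟩
    · rcases ht with ht | ht
      · rw [← ht] at h1; simp only [LinearEquiv.symm_apply_apply] at h1; exact (hp t').1 h1
      · rw [← ht] at h2; simp only [LinearEquiv.symm_apply_apply] at h2; exact (hp t').2 h2
    · rcases ht with ht | ht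
      · rw [← ht] at h1; simp only [LinearEquiv.symm_apply_apply] at h1; exact (hp t').2 h1
      · rw [← ht] at h2; simp only [LinearEquiv.symm_apply_apply] at h2; exact (hp t').1 h2
  cases i with
  | pt p' => exact ⟨p', hi⟩
  | tA t => exact absurd (Or.inl hi) (hbad t)
  | tV t => exact absurd (Or.inr hi) (hbad t)

omit hT in
theorem T_w (π : P → P) (hπ : ∀ p, T (S.aP p) = S.aP (π p)) (t : Q) :
    T (S.w t) = ∑ j ∈ Finset.range (S.len t + 1), cc j • S.aP (π (S.tup t j)) +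
      T (S.zeta t) := by
  unfold w
  rw [map_add, map_sum]
  congr 1
  exact Finset.sum_congr rfl fun j _ => by rw [map_smul, hπ]

theorem abs_T_zeta (t : Q) : S.N (T (S.zeta t)) ≤ del (S.len t) := by
  rw [hT]; exact (S.N_le _).trans (S.q_zeta t)

theorem abs_fQ_T_w (π : P → P) (hπ : ∀ p, T (S.aP p) = S.aP (π p)) (t t' : Q) :
    |S.fQ t' (T (S.w t))| ≤ 21 / 10 * del (S.len t) := by
  rw [S.T_w T π hπ, map_add, map_sum]
  have h0 : ∑ j ∈ Finset.range (S.len t + 1), S.fQ t' (cc j • S.aP (π (S.tup t j))) = 0 :=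
    Finset.sum_eq_zero fun j _ => by rw [map_smul, S.fQ_aP, smul_zero]
  rw [h0, zero_add]
  have h1 := S.fQ_le_N t' (T (S.zeta t))
  have h2 := S.abs_T_zeta T hT t
  linarith

/-- The structure of the isometries of the new norm. -/
theorem structure_isom : ∃ π : P → P, ∃ τ : Q → Q, (∀ p, T (S.aP p) = S.aP (π p)) ∧
    ∀ t, T (S.aQ t) = S.aQ (τ t) ∧ S.len (τ t) = S.len t ∧
      (∀ j ≤ S.len t, S.tup (τ t) j = π (S.tup t j)) ∧ T (S.zeta t) = S.zeta (τ t) := by
  choose π hπ using S.pt_map T hT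
  refine ⟨π, ?_⟩
  suffices h : ∀ t, ∃ t', T (S.aQ t) = S.aQ t' ∧ S.len t' = S.len t ∧
      (∀ j ≤ S.len t, S.tup t' j = π (S.tup t j)) ∧ T (S.zeta t) = S.zeta t' by
    choose τ hτ using h
    exact ⟨τ, hπ, hτ⟩
  intro t
  obtain ⟨t', h | h⟩ := S.pair_map T hT t
  swap
  · exfalso
    have h1 : T (S.v t) = gam (S.len t) • T (S.aQ t) + T (S.w t) := by
      rw [v, map_add, map_smul]
    have h2 := congrArg (S.fQ t') h1
    rw [h.1, h.2, map_add, map_smul, S.fQ_v, S.fQ_aQ_self, smul_eq_mul] at h2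
    have h3 := S.abs_fQ_T_w T hT π hπ t t'
    have h4 := del_le (S.len t)
    have h5 := one_lt_gam (S.len t)
    have h6 := one_lt_gam (S.len t')
    have h7 := abs_le.mp h3
    nlinarith [h7.1]
  obtain ⟨h1, h2⟩ := h
  have h3 : T (S.v t) = gam (S.len t) • T (S.aQ t) + T (S.w t) := by
    rw [v, map_add, map_smul]
  rw [h1, h2] at h3
  have hlen : S.len t' = S.len t := by
    by_contra hne
    have h4 := congrArg (S.fQ t') h3
    rw [map_add, map_smul, S.fQ_v, S.fQ_aQ_self, smul_eq_mul] at h4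
    have h5 := S.abs_fQ_T_w T hT π hπ t t'
    have h6 := gam_sep (S.len t) (S.len t') (Ne.symm hne)
    have h7 := del_le_gam (S.len t)
    have h8 : S.fQ t' (T (S.w t)) = - (2 * (gam (S.len t) - gam (S.len t'))) := by linarith
    rw [h8, abs_neg, abs_mul, abs_of_pos (by norm_num : (0 : ℝ) < 2)] at h5
    have h9 : (0 : ℝ) < (1 / 2) ^ (S.len t) := by positivity
    linarith
  have h4 : S.w t' = T (S.w t) := by
    unfold v at h3
    rw [hlen] at h3
    exact add_left_cancel h3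
  rw [S.T_w T π hπ, w, hlen] at h4
  have h5 : T (S.zeta t) - S.zeta t' = ∑ j ∈ Finset.range (S.len t + 1),
      cc j • (S.aP (S.tup t' j) - S.aP (π (S.tup t j))) := by
    simp only [smul_sub, Finset.sum_sub_distrib]
    rw [sub_eq_sub_iff_add_eq_add, add_comm (T (S.zeta t)), h4.symm, add_comm]
  have h6 : ∀ j, j ≤ S.len t → S.tup t' j = π (S.tup t j) := by
    intro j
    induction j using Nat.strong_induction_on with
    | _ j ih =>
      intro hj
      by_contra hne
      set p := S.tup t' j with hp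
      have h7 := congrArg (S.fP p) h5
      rw [map_sub, S.fP_zeta, sub_zero, map_sum] at h7
      set d : ℕ → ℝ := fun i => S.fP p (S.aP (S.tup t' i) - S.aP (π (S.tup t i))) with hd
      have h8 : ∀ i ∈ Finset.range (S.len t + 1),
          S.fP p (cc i • (S.aP (S.tup t' i) - S.aP (π (S.tup t i)))) = cc i * d i := by
        intro i _
        rw [map_smul, smul_eq_mul]
      rw [Finset.sum_congr rfl h8] at h7
      have hd0 : ∀ i, i < j → d i = 0 := by
        intro i hi
        simp only [hd]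
        rw [ih i hi (by omega), sub_self, map_zero]
      have hdj : 2 ≤ d j := by
        simp only [hd]
        rw [map_sub, ← hp, S.fP_aP_self]
        have := S.fP_aP_nonpos p (π (S.tup t j)) (Ne.symm hne)
        linarith
      have hdi : ∀ i, -4 ≤ d i := by
        intro i
        simp only [hd]
        rw [map_sub]
        have e1 := abs_le.mp (S.abs_fP_aP p (S.tup t' i))
        have e2 := abs_le.mp (S.abs_fP_aP p (π (S.tup t i)))
        linarith [e1.1, e2.2]
      obtain ⟨m, hm⟩ : ∃ m, S.len t + 1 = j + 1 + m := ⟨S.len t - j, by omega⟩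
      rw [hm, Finset.sum_range_add, Finset.sum_range_succ,
        Finset.sum_eq_zero (fun i hi => by rw [hd0 i (Finset.mem_range.mp hi), mul_zero]),
        zero_add] at h7
      have h9 : - (4 * (cc j / 7)) ≤ ∑ x ∈ Finset.range m, cc (j + 1 + x) * d (j + 1 + x) := by
        have e1 : ∀ x ∈ Finset.range m, - (4 * cc (j + 1 + x)) ≤
            cc (j + 1 + x) * d (j + 1 + x) := by
          intro x _
          have := hdi (j + 1 + x)
          nlinarith [cc_pos (j + 1 + x)]
        have e2 := Finset.sum_le_sum e1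
        rw [Finset.sum_neg_distrib, ← Finset.mul_sum] at e2
        have e3 := sum_cc_shift j m
        linarith
      have h10 := (le_abs_self _).trans (S.fP_le_N p (T (S.zeta t)))
      have h11 := S.abs_T_zeta T hT t
      have h12 := del_le_cc (S.len t) j hj
      have h13 := cc_pos j
      nlinarith
  refine ⟨t', h1, hlen, h6, ?_⟩
  have h7 : ∑ j ∈ Finset.range (S.len t + 1),
      cc j • (S.aP (S.tup t' j) - S.aP (π (S.tup t j))) = 0 := by
    refine Finset.sum_eq_zero fun j hj => ?_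
    rw [h6 j (by simpa [Nat.lt_succ_iff] using hj), sub_self, smul_zero]
  rw [h7] at h5
  exact sub_eq_zero.mp h5

end Isometry

end SpikeSystem

end Pool.Agent.Comb7f333f
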